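import Mathlib
import Pool.Agent.Helper366.IV.Defs

set_option autoImplicit false

/-!
Definitions and statements for the linear oscillation decay of the flux of planar p-harmonic
functions (all analysis is done on the complex plane, real derivatives in the directions 1 and I).
-/

namespace Pool.Agent.W796.PH

open MeasureTheory Metric Set Filter Topology Complex
open scoped ENNReal ContDiff ComplexConjugate
open Pool.Agent.Helper366.IV (W QR Jac)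

/-- strong local Sobolev space: `q` has the partial derivatives `qx`, `qy` on `U`, everything
square integrable on compact subsets of `U`, and on each compact subset of `U` the function `q` is
a limit in `W^{1,2}` of smooth maps -/
structure SW (U : Set ℂ) (q qx qy : ℂ → ℂ) : Prop where
  mem : ∀ K : Set ℂ, IsCompact K → K ⊆ U → MemLp q 2 (volume.restrict K)
  memx : ∀ K : Set ℂ, IsCompact K → K ⊆ U → MemLp qx 2 (volume.restrict K)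
  memy : ∀ K : Set ℂ, IsCompact K → K ⊆ U → MemLp qy 2 (volume.restrict K)
  approx : ∀ K : Set ℂ, IsCompact K → K ⊆ U → ∃ Q : ℕ → ℂ → ℂ,
    (∀ n, ContDiff ℝ ∞ (Q n)) ∧
    Tendsto (fun n => eLpNorm (fun z => Q n z - q z) 2 (volume.restrict K)) atTop (𝓝 0) ∧
    Tendsto (fun n => eLpNorm (fun z => fderiv ℝ (Q n) z 1 - qx z) 2 (volume.restrict K))
      atTop (𝓝 0) ∧
    Tendsto (fun n => eLpNorm (fun z => fderiv ℝ (Q n) z I - qy z) 2 (volume.restrict K))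
      atTop (𝓝 0)

/-- `qv` is the weak derivative of `q` on `U` in the direction `v` -/
def WD (U : Set ℂ) (q qv : ℂ → ℂ) (v : ℂ) : Prop :=
  ∀ φ : ℂ → ℝ, ContDiff ℝ ∞ φ → HasCompactSupport φ → tsupport φ ⊆ U →
    ∫ z, fderiv ℝ φ z v • q z = - ∫ z, φ z • qv z

/-- Dirichlet integral over a ball -/
noncomputable def Dir (qx qy : ℂ → ℂ) (c : ℂ) (r : ℝ) : ℝ :=
  ∫ z in ball c r, (‖qx z‖ ^ 2 + ‖qy z‖ ^ 2)

/-- the map `|g|^e g` -/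
noncomputable def pw (e : ℝ) (g : ℂ) : ℂ := ((‖g‖ ^ e : ℝ) : ℂ) * g

/-- `h` is `p`-harmonic in `Ω` with weak gradient `G = h_x + i h_y` -/
structure PHarm (p : ℝ) (Ω : Set ℂ) (h : ℂ → ℝ) (G : ℂ → ℂ) : Prop where
  hloc : ∀ K : Set ℂ, IsCompact K → K ⊆ Ω → MemLp h (ENNReal.ofReal p) (volume.restrict K)
  gloc : ∀ K : Set ℂ, IsCompact K → K ⊆ Ω → MemLp G (ENNReal.ofReal p) (volume.restrict K)
  weak : ∀ φ : ℂ → ℝ, ContDiff ℝ ∞ φ → HasCompactSupport φ → tsupport φ ⊆ Ω → ∀ v : ℂ,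
    ∫ z, h z * fderiv ℝ φ z v = - ∫ z, φ z * (conj (G z) * v).re
  eq : ∀ φ : ℂ → ℝ, ContDiff ℝ ∞ φ → HasCompactSupport φ → tsupport φ ⊆ Ω →
    ∫ z, fderiv ℝ φ z (pw (p - 2) (G z)) = 0

/-- derivative of a radial power map in frame form: `w + (k-1) <n,w> n` -/
noncomputable def fr (k : ℝ) (n w : ℂ) : ℂ := w + (((k - 1) * (conj n * w).re : ℝ) : ℂ) * n

/-- the regularised radial power map `(δ² + |v|²)^(e/2) v` -/
noncomputable def pd (e δ : ℝ) (v : ℂ) : ℂ := (((δ ^ 2 + ‖v‖ ^ 2) ^ (e / 2) : ℝ) : ℂ) * v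

/-- the almost everywhere relations for the derivatives of `V = |∇h|^{(p-2)/2} ∇h` -/
def Str (p : ℝ) (U : Set ℂ) (V Vx Vy : ℂ → ℂ) : Prop :=
  (∀ᵐ z ∂(volume.restrict U), V z ≠ 0 →
    (fr (2 - 2 / p) (V z / ‖V z‖) (Vx z)).re + (fr (2 - 2 / p) (V z / ‖V z‖) (Vy z)).im = 0 ∧
    (fr (2 / p) (V z / ‖V z‖) (Vx z)).im = (fr (2 / p) (V z / ‖V z‖) (Vy z)).re) ∧
  (∀ᵐ z ∂(volume.restrict U), V z = 0 → Vx z = 0 ∧ Vy z = 0)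

/-! ### Statements -/

/-- TASK DQ: difference quotient estimate. -/
def S_DQ : Prop := ∀ (p : ℝ), 2 ≤ p → ∀ (Ω : Set ℂ) (h : ℂ → ℝ) (G : ℂ → ℂ), IsOpen Ω →
  PHarm p Ω h G → ∀ (c : ℂ) (r : ℝ), 0 < r → closedBall c r ⊆ Ω →
  ∃ C t₀ : ℝ, 0 < t₀ ∧ ∀ e : ℂ, ‖e‖ = 1 → ∀ t : ℝ, 0 < t → t < t₀ →
    closedBall c (r + t) ⊆ Ω ∧
    ∫ z in ball c r, ‖pw ((p - 2) / 2) (G (z + t * e)) - pw ((p - 2) / 2) (G z)‖ ^ 2 ≤ C * t ^ 2

/-- TASK RIESZ: Lipschitz translations give a weak derivative in `L²`. -/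
def S_Riesz : Prop := ∀ (V : ℂ → ℂ) (c e : ℂ) (r C t₀ : ℝ), 0 < r → 0 < t₀ → ‖e‖ = 1 →
  MemLp V 2 (volume.restrict (ball c (r + t₀))) →
  (∀ t : ℝ, 0 < t → t < t₀ → ∫ z in ball c r, ‖V (z + t * e) - V z‖ ^ 2 ≤ C * t ^ 2) →
  ∃ Ve : ℂ → ℂ, MemLp Ve 2 (volume.restrict (ball c r)) ∧ WD (ball c r) V Ve e

/-- TASK WEAKSW: weak derivatives in `L²` give the strong space (mollification). -/
def S_WeakSW : Prop := ∀ (U : Set ℂ) (q qx qy : ℂ → ℂ), IsOpen U →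
  MemLp q 2 (volume.restrict U) → MemLp qx 2 (volume.restrict U) →
  MemLp qy 2 (volume.restrict U) → WD U q qx 1 → WD U q qy I → SW U q qx qy

/-- TASK CHAIN: chain rule for smooth maps with bounded derivative. -/
def S_Chain : Prop := ∀ (U : Set ℂ) (q qx qy : ℂ → ℂ), IsOpen U → SW U q qx qy →
  ∀ (Θ : ℂ → ℂ) (C : ℝ), ContDiff ℝ ∞ Θ → (∀ v, ‖fderiv ℝ Θ v‖ ≤ C) →
  SW U (fun z => Θ (q z)) (fun z => fderiv ℝ Θ (q z) (qx z)) (fun z => fderiv ℝ Θ (q z) (qy z))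

/-- TASK ZERO: the derivatives vanish almost everywhere on the zero set. -/
def S_Zero : Prop := ∀ (U : Set ℂ) (q qx qy : ℂ → ℂ), IsOpen U → SW U q qx qy →
  ∀ᵐ z ∂(volume.restrict U), q z = 0 → qx z = 0 ∧ qy z = 0

/-- TASK STR: the equations `div A = 0` and `curl ∇h = 0` in terms of `V`. -/
def S_Str : Prop := ∀ (p : ℝ), 2 ≤ p → ∀ (Ω : Set ℂ) (h : ℂ → ℝ) (G : ℂ → ℂ), IsOpen Ω →
  PHarm p Ω h G → ∀ (U : Set ℂ), IsOpen U → U ⊆ Ω → ∀ (Vx Vy : ℂ → ℂ),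
  SW U (fun z => pw ((p - 2) / 2) (G z)) Vx Vy →
  Str p U (fun z => pw ((p - 2) / 2) (G z)) Vx Vy

/-- TASK QRALG: the regularised maps are quasiregular with `K = p - 1` (linear algebra). -/
def S_QRAlg : Prop := ∀ (p : ℝ), 2 ≤ p → ∀ (n a b : ℂ), ‖n‖ = 1 →
  (fr (2 - 2 / p) n a).re + (fr (2 - 2 / p) n b).im = 0 →
  (fr (2 / p) n a).im = (fr (2 / p) n b).re →
  ∀ k : ℝ, 2 / p ≤ k → k ≤ 1 →
  ‖fr k n a‖ ^ 2 + ‖fr k n b‖ ^ 2 ≤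
    ((p - 1) + 1 / (p - 1)) *
      ((fr k n b).re * (fr k n a).im - (fr k n a).re * (fr k n b).im)

/-- TASK PDDER: derivatives of the radial maps. -/
def S_PdDer : Prop :=
  (∀ (e δ : ℝ), 0 < δ → ContDiff ℝ ∞ (pd e δ) ∧ ∀ v w : ℂ,
    fderiv ℝ (pd e δ) v w = (((δ ^ 2 + ‖v‖ ^ 2) ^ (e / 2) : ℝ) : ℂ) *
      fr (1 + e * ‖v‖ ^ 2 / (δ ^ 2 + ‖v‖ ^ 2)) (v / ‖v‖) w) ∧
  (∀ (e : ℝ) (v : ℂ), v ≠ 0 → ContDiffAt ℝ ∞ (pw e) v ∧ ∀ w : ℂ,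
    fderiv ℝ (pw e) v w = ((‖v‖ ^ e : ℝ) : ℂ) * fr (1 + e) (v / ‖v‖) w)

/-- TASK ISO: isoperimetric inequality on circles for smooth maps. -/
def S_Iso : Prop := ∀ (g : ℂ → ℂ), ContDiff ℝ ∞ g → ∀ (c : ℂ) (r : ℝ), 0 < r →
  ∫ z in ball c r, Jac (fun z => fderiv ℝ g z 1) (fun z => fderiv ℝ g z I) z ≤
    1 / 2 * ∫ θ in (-Real.pi)..Real.pi,
      ‖fderiv ℝ g (c + r * exp (θ * I)) (r * exp (θ * I) * I)‖ ^ 2

/-- TASK GROW: growth of the Dirichlet integral with the sharp constant. -/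
def S_Grow : Prop := ∀ (c : ℂ) (R : ℝ) (q qx qy : ℂ → ℂ), SW (ball c R) q qx qy →
  ∀ a b : ℝ, 0 < a → a ≤ b → b < R → ∀ (κ w w' : ℝ → ℝ), ContinuousOn κ (Icc a b) →
  (∀ r ∈ Icc a b, 1 ≤ κ r) → (∀ r ∈ Icc a b, 0 ≤ w r) →
  (∀ r ∈ Icc a b, HasDerivAt w (w' r) r) → ContinuousOn w' (Icc a b) →
  (∀ r ∈ Icc a b, - w' r ≤ 2 / (κ r * r) * w r) →
  (∀ r ∈ Icc a b, QR (κ r + 1 / κ r) (ball c r) qx qy) →
  w a * Dir qx qy c a ≤ w b * Dir qx qy c b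

/-- TASK HOLD: Morrey's lemma (continuity from Dirichlet growth). -/
def S_Hold : Prop := ∀ (c : ℂ) (R ρ s α M : ℝ) (q qx qy : ℂ → ℂ), SW (ball c R) q qx qy →
  0 < ρ → 0 < s → ρ + s < R → 0 < α → 0 ≤ M →
  (∀ y ∈ ball c ρ, ∀ r : ℝ, 0 < r → r ≤ s → Dir qx qy y r ≤ M * r ^ (2 * α)) →
  ∃ q' : ℂ → ℂ, ContinuousOn q' (ball c ρ) ∧ ∀ᵐ z ∂(volume.restrict (ball c ρ)), q z = q' z

/-- TASK CACC: Caccioppoli inequality with the `L²` norm. -/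
def S_Cacc : Prop := ∀ κ : ℝ, 0 < κ → ∃ C : ℝ, 0 < C ∧ ∀ (U : Set ℂ) (q qx qy : ℂ → ℂ), IsOpen U →
  W U q qx qy → QR κ U qx qy → ∀ (z₀ : ℂ) (r : ℝ) (a : ℂ), 0 < r → closedBall z₀ (2 * r) ⊆ U →
  ∫ z in closedBall z₀ r, (‖qx z‖ ^ 2 + ‖qy z‖ ^ 2) ≤
    C / r ^ 2 * ∫ z in closedBall z₀ (2 * r), ‖q z - a‖ ^ 2

/-- TASK ALG: inequalities for the maps `V` and `A`. -/
def S_Alg : Prop := ∀ p : ℝ, 2 ≤ p → ∃ C : ℝ, 0 < C ∧ ∀ a b : ℂ,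
  ‖pw ((p - 2) / 2) a - pw ((p - 2) / 2) b‖ ^ 2 ≤
    C * (conj (pw (p - 2) a - pw (p - 2) b) * (a - b)).re ∧
  ‖pw (p - 2) a - pw (p - 2) b‖ ≤
    C * (‖a‖ + ‖b‖) ^ ((p - 2) / 2) * ‖pw ((p - 2) / 2) a - pw ((p - 2) / 2) b‖ ∧
  ‖pw (p - 2) a - pw (p - 2) b‖ ≤ C * (‖a‖ + ‖b‖) ^ (p - 2) * ‖a - b‖ ∧
  (‖a‖ + ‖b‖) ^ (p - 2) * ‖a - b‖ ≤ C * ‖pw (p - 2) a - pw (p - 2) b‖ ∧
  ‖a - b‖ ^ (p - 1) ≤ C * ‖pw (p - 2) a - pw (p - 2) b‖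

/-- TASK LIN: affine change of variables in the class `W`. -/
def S_Lin : Prop := ∀ (U : Set ℂ) (q qx qy : ℂ → ℂ), IsOpen U → W U q qx qy →
  ∀ (L : ℂ ≃L[ℝ] ℂ) (y : ℂ),
  W ((fun w => y + L w) ⁻¹' U) (fun w => q (y + L w))
    (fun w => (L 1).re • qx (y + L w) + (L 1).im • qy (y + L w))
    (fun w => (L I).re • qx (y + L w) + (L I).im • qy (y + L w))

/-- TASK NDALG: linear algebra in the nondegenerate regime. `H = (a, b)` is the derivative of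
the gradient (`a = G_x`, `b = G_y`, symmetric), `n` the direction of the gradient at the point,
`m` the direction at the centre. In the coordinates `w`, `z = y + m (s Re w + i Im w)`,
`s = √(p-1)`, the conjugate of the transformed gradient `s Re(m̄ G) + i Im(m̄ G)` is
quasiregular with constant close to 1. -/
def S_NdAlg : Prop := ∀ (p : ℝ), 2 ≤ p → ∀ (n m a b : ℂ), ‖n‖ = 1 → ‖m‖ = 1 →
  (fr (p - 1) n a).re + (fr (p - 1) n b).im = 0 → a.im = b.re →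
  ∀ ε : ℝ, 2 * (p - 2) * ‖n - m‖ ≤ ε → ε ≤ 1 / 2 →
  let s : ℝ := Real.sqrt (p - 1)
  let T : ℂ → ℂ := fun g => ((s * (conj m * g).re : ℝ) : ℂ) - (((conj m * g).im : ℝ) : ℂ) * I
  let X : ℂ := T ((s * m).re • a + (s * m).im • b)
  let Y : ℂ := T ((m * I).re • a + (m * I).im • b)
  ‖X‖ ^ 2 + ‖Y‖ ^ 2 ≤ ((1 + 4 * ε) + 1 / (1 + 4 * ε)) * (X.re * Y.im - Y.re * X.im)

end Pool.Agent.W796.PH
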