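import Mathlib
import Pool.Agent.W796.PH.Defs

set_option autoImplicit false

/-!
Second part of the statements for the linear oscillation decay of the flux of planar p-harmonic
functions: mean value estimate, the final computation, and the transfer to the Euclidean plane.
-/

namespace Pool.Agent.W796.PH

open MeasureTheory Metric Set Filter Topology Complex
open scoped ENNReal ContDiff ComplexConjugate
open Pool.Agent.Helper366.IV (W QR Jac)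

/-- TASK MEAN: local boundedness in terms of the `L¹` norm. -/
def S_Mean : Prop := ∀ κ : ℝ, 0 < κ → ∃ C : ℝ, 0 < C ∧ ∀ (U : Set ℂ) (q qx qy : ℂ → ℂ), IsOpen U →
  W U q qx qy → QR κ U qx qy → ∀ (z₀ : ℂ) (r : ℝ) (a : ℂ), 0 < r → closedBall z₀ (2 * r) ⊆ U →
  ∀ z ∈ closedBall z₀ r, ‖q z - a‖ ≤ C / r ^ 2 * ∫ w in closedBall z₀ (2 * r), ‖q w - a‖

/-- the three local estimates for the gradient of a `p`-harmonic function -/
structure Est (p C M : ℝ) (U : Set ℂ) (G : ℂ → ℂ) : Prop where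
  cont : ContinuousOn G U
  mean : ∀ (c : ℂ) (r : ℝ), 0 < r → closedBall c r ⊆ U → ∀ a : ℂ, ∀ z ∈ closedBall c (r / 2),
    ‖G z - a‖ ≤ C / r ^ 2 * ∫ w in closedBall c r, ‖G w - a‖
  hold : ∀ (c : ℂ) (r S : ℝ), 0 < r → closedBall c r ⊆ U → ∀ a : ℂ,
    (∀ w ∈ closedBall c r, ‖G w - a‖ ≤ S) →
    ∀ z ∈ closedBall c (r / 2), ∀ z' ∈ closedBall c (r / 2),
      ‖G z - G z'‖ ≤ C * (‖z - z'‖ / r) ^ (1 / (p - 1)) * S
  nd : ∀ (c : ℂ) (r σ : ℝ), 0 < r → closedBall c r ⊆ U →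
    (∀ w ∈ closedBall c r, ‖G w - G c‖ ≤ σ) → M * σ ≤ ‖G c‖ →
    ∀ z ∈ closedBall c (r / 8), ‖G z - G c‖ ≤ C * (‖z - c‖ / r) * σ

/-- TASK FINAL: linear decay for the flux from the three local estimates. -/
def S_Final : Prop := ∀ p : ℝ, 2 ≤ p → ∀ C M : ℝ, 0 < C → 0 < M → ∃ C' : ℝ, 0 < C' ∧
  ∀ (U : Set ℂ) (G : ℂ → ℂ), Est p C M U G → ∀ (c : ℂ) (R : ℝ), 0 < R → closedBall c R ⊆ U →
  ∀ (a : ℂ) (θ : ℝ), 0 < θ → θ ≤ 1 / 32 → ∀ x ∈ closedBall c (θ * R),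
    ‖pw (p - 2) (G x) - pw (p - 2) (G c)‖ ≤
      C' * θ / R ^ 2 * ∫ w in closedBall c R, ‖pw (p - 2) (G w) - a‖

/-- the decay estimate for the flux of `p`-harmonic functions on the complex plane, with
constant `c` -/
def Decay (p c : ℝ) : Prop := ∀ (Ω : Set ℂ) (h : ℂ → ℝ) (G : ℂ → ℂ), IsOpen Ω → PHarm p Ω h G →
  ∀ (z₀ : ℂ) (R : ℝ), 0 < R → ball z₀ R ⊆ Ω →
  IntegrableOn (fun z => pw (p - 2) (G z)) (ball z₀ R) → ∀ θ : ℝ, 0 < θ → θ < 1 →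
  ⨍ z in ball z₀ (θ * R), ‖pw (p - 2) (G z) - ⨍ w in ball z₀ (θ * R), pw (p - 2) (G w)‖ ≤
    c * θ * ⨍ z in ball z₀ R, ‖pw (p - 2) (G z) - ⨍ w in ball z₀ R, pw (p - 2) (G w)‖

/-- existence of a representative with the local estimates (to be proved by helper796) -/
def S_Est : Prop := ∀ p : ℝ, 2 ≤ p → ∃ C M : ℝ, 0 < C ∧ 0 < M ∧
  ∀ (Ω : Set ℂ) (h : ℂ → ℝ) (G : ℂ → ℂ), IsOpen Ω → PHarm p Ω h G →
  ∀ (c : ℂ) (R : ℝ), 0 < R → closedBall c R ⊆ Ω →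
  ∃ G' : ℂ → ℂ, Est p C M (ball c R) G' ∧ ∀ᵐ z ∂(volume.restrict (ball c R)), G z = G' z

/-- TASK DECAY: from the pointwise estimate to the decay estimate for averages. -/
def S_Decay : Prop := S_Final → S_Est → ∀ p : ℝ, 2 ≤ p → ∃ c : ℝ, 0 < c ∧ Decay p c

/-- the Euclidean plane -/
abbrev E2 := EuclideanSpace ℝ (Fin 2)

/-- `A(Q) = |Q|^{p-2} Q` -/
noncomputable def flux (p : ℝ) (Q : E2) : E2 := (‖Q‖ ^ (p - 2) : ℝ) • Q

/-- `h` is `p`-harmonic in the open set `Ω`, with weak gradient `g` -/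
structure IsPHarmonic (p : ℝ) (Ω : Set E2) (h : E2 → ℝ) (g : E2 → E2) : Prop where
  hloc : ∀ K : Set E2, IsCompact K → K ⊆ Ω → MemLp h (ENNReal.ofReal p) (volume.restrict K)
  gloc : ∀ K : Set E2, IsCompact K → K ⊆ Ω → MemLp g (ENNReal.ofReal p) (volume.restrict K)
  weak : ∀ φ : E2 → ℝ, ContDiff ℝ ∞ φ → HasCompactSupport φ → tsupport φ ⊆ Ω → ∀ v : E2,
    ∫ x in Ω, h x * fderiv ℝ φ x v = - ∫ x in Ω, inner ℝ (g x) v * φ x
  eq : ∀ φ : E2 → ℝ, ContDiff ℝ ∞ φ → HasCompactSupport φ → tsupport φ ⊆ Ω →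
    ∫ x in Ω, inner ℝ (flux p (g x)) (gradient φ x) = 0

/-- the decay estimate on the Euclidean plane -/
def DecayE (p c : ℝ) : Prop := ∀ (Ω : Set E2) (h : E2 → ℝ) (g : E2 → E2), IsOpen Ω →
  IsPHarmonic p Ω h g → ∀ (x₀ : E2) (R : ℝ), 0 < R → ball x₀ R ⊆ Ω →
  IntegrableOn (fun x => flux p (g x)) (ball x₀ R) → ∀ θ : ℝ, 0 < θ → θ < 1 →
  ⨍ x in ball x₀ (θ * R), ‖flux p (g x) - ⨍ y in ball x₀ (θ * R), flux p (g y)‖ ≤
    c * θ * ⨍ x in ball x₀ R, ‖flux p (g x) - ⨍ y in ball x₀ R, flux p (g y)‖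

/-- TASK TRANS: transfer from the complex plane to the Euclidean plane. -/
def S_Trans : Prop := ∀ p c : ℝ, 2 ≤ p → 0 < c → Decay p c → DecayE p c

end Pool.Agent.W796.PH
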