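import Mathlib
import Pool.Agent.Helper366.IV.Stokes

set_option autoImplicit false

/-! Tools for the Caccioppoli inequality (adapted from the starting file Helper366/IV/Cacc.lean). -/

open MeasureTheory Metric Set Filter Topology Complex
open scoped ContDiff ENNReal ComplexConjugate

namespace Pool.Agent.W796.PH.CaccL

open Pool.Agent.Helper366.IV





theorem exists_cutoff : ∃ C0 : ℝ, 0 < C0 ∧ ∀ (z₀ : ℂ) (r : ℝ), 0 < r → ∃ η : ℂ → ℝ,
    ContDiff ℝ 2 η ∧ HasCompactSupport η ∧ tsupport η ⊆ closedBall z₀ (2 * r) ∧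
    (∀ z, 0 ≤ η z) ∧ (∀ z, η z ≤ 1) ∧ (∀ z ∈ closedBall z₀ r, η z = 1) ∧
    ∀ z, ‖fderiv ℝ η z‖ ≤ C0 / r := by
  let f : ContDiffBump (0 : ℂ) := ⟨1, 3 / 2, by norm_num, by norm_num⟩
  have hf : ContDiff ℝ 2 (f : ℂ → ℝ) := f.contDiff
  have hcf : Continuous (fderiv ℝ (f : ℂ → ℝ)) := hf.continuous_fderiv (by norm_num)
  obtain ⟨C1, hC1⟩ := (f.hasCompactSupport.fderiv (𝕜 := ℝ)).exists_bound_of_continuous hcf
  refine ⟨max C1 1, by positivity, fun z₀ r hr => ?_⟩
  have hr' : r ≠ 0 := hr.ne'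
  let L : ℂ → ℂ := fun z => (r⁻¹ : ℝ) • (z - z₀)
  have hL : ContDiff ℝ 2 L := by
    refine ContDiff.const_smul _ ?_
    exact contDiff_id.sub contDiff_const
  have hLd : ∀ z, HasFDerivAt L ((r⁻¹ : ℝ) • ContinuousLinearMap.id ℝ ℂ) z := by
    intro z
    exact ((hasFDerivAt_id z).sub_const z₀).const_smul (r⁻¹ : ℝ)
  have hsupp : tsupport (fun z => f (L z)) ⊆ closedBall z₀ (2 * r) := by
    apply closure_minimal _ isClosed_closedBall
    intro z hz
    have h1 : L z ∈ Function.support (f : ℂ → ℝ) := hz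
    rw [f.support_eq, mem_ball, dist_zero_right] at h1
    have h2 : ‖L z‖ = r⁻¹ * ‖z - z₀‖ := by
      simp only [L, norm_smul, Real.norm_eq_abs, abs_of_pos (inv_pos.2 hr)]
    rw [h2] at h1
    rw [mem_closedBall, dist_eq_norm]
    have h3 : ‖z - z₀‖ < r * (3 / 2) := by
      have := (inv_mul_lt_iff₀ hr).1 h1
      exact this
    linarith
  refine ⟨fun z => f (L z), hf.comp hL, ?_, hsupp, fun z => f.nonneg, fun z => f.le_one, ?_, ?_⟩
  · exact HasCompactSupport.of_support_subset_isCompact (isCompact_closedBall z₀ (2 * r))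
      (subset_closure.trans hsupp)
  · intro z hz
    apply f.one_of_mem_closedBall
    rw [mem_closedBall, dist_zero_right]
    have h2 : ‖L z‖ = r⁻¹ * ‖z - z₀‖ := by
      simp only [L, norm_smul, Real.norm_eq_abs, abs_of_pos (inv_pos.2 hr)]
    rw [h2]
    rw [mem_closedBall, dist_eq_norm] at hz
    have : r⁻¹ * ‖z - z₀‖ ≤ r⁻¹ * r := by gcongr
    rw [inv_mul_cancel₀ hr'] at this
    exact this
  · intro z
    have hd : HasFDerivAt (fun z => f (L z))
        ((fderiv ℝ (f : ℂ → ℝ) (L z)).comp ((r⁻¹ : ℝ) • ContinuousLinearMap.id ℝ ℂ)) z := by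
      have h1 : HasFDerivAt (f : ℂ → ℝ) (fderiv ℝ (f : ℂ → ℝ) (L z)) (L z) :=
        ((hf.differentiable (by norm_num)) (L z)).hasFDerivAt
      exact h1.comp z (hLd z)
    rw [hd.fderiv]
    calc ‖(fderiv ℝ (f : ℂ → ℝ) (L z)).comp ((r⁻¹ : ℝ) • ContinuousLinearMap.id ℝ ℂ)‖
        ≤ ‖fderiv ℝ (f : ℂ → ℝ) (L z)‖ * ‖(r⁻¹ : ℝ) • ContinuousLinearMap.id ℝ ℂ‖ :=
          ContinuousLinearMap.opNorm_comp_le _ _
      _ ≤ max C1 1 * r⁻¹ := by
          have h3 : ‖(r⁻¹ : ℝ) • ContinuousLinearMap.id ℝ ℂ‖ ≤ r⁻¹ := by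
            rw [norm_smul, Real.norm_eq_abs, abs_of_pos (inv_pos.2 hr)]
            have := ContinuousLinearMap.norm_id_le (𝕜 := ℝ) (E := ℂ)
            have hrp := inv_pos.2 hr
            nlinarith
          have h4 : ‖fderiv ℝ (f : ℂ → ℝ) (L z)‖ ≤ max C1 1 := (hC1 _).trans (le_max_left _ _)
          gcongr
      _ = max C1 1 / r := by rw [div_eq_mul_inv]

theorem L2_mul {K : Set ℂ} {f g : ℂ → ℝ} (hf : MemLp f 2 (volume.restrict K))
    (hg : MemLp g 2 (volume.restrict K)) : IntegrableOn (fun z => f z * g z) K :=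
  hf.integrable_mul hg

theorem L2_re {K : Set ℂ} {f : ℂ → ℂ} (hf : MemLp f 2 (volume.restrict K)) :
    MemLp (fun z => (f z).re) 2 (volume.restrict K) := hf.re

theorem L2_im {K : Set ℂ} {f : ℂ → ℂ} (hf : MemLp f 2 (volume.restrict K)) :
    MemLp (fun z => (f z).im) 2 (volume.restrict K) := hf.im

theorem L2_int {K : Set ℂ} (hK : IsCompact K) {f : ℂ → ℝ} (hf : MemLp f 2 (volume.restrict K)) :
    IntegrableOn f K := by
  haveI : IsFiniteMeasure (volume.restrict K) := ⟨by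
    rw [Measure.restrict_apply_univ]; exact hK.measure_lt_top⟩
  exact hf.integrable (by norm_num)

theorem stokes_sq {U : Set ℂ} {q qx qy : ℂ → ℂ} (h : W U q qx qy) (η : ℂ → ℝ) (K : Set ℂ)
    (hη : ContDiff ℝ 2 η) (hc : HasCompactSupport η) (hs : tsupport η ⊆ K) (hKU : K ⊆ U) :
    ∫ z in K, η z ^ 2 * ((qx z).re * (qy z).im - (qy z).re * (qx z).im) =
      - ∫ z in K, (q z).re * (2 * η z * (fderiv ℝ η z 1 * (qy z).im - fderiv ℝ η z I * (qx z).im)) := by
  have hη2 : ContDiff ℝ 2 (fun z => η z ^ 2) := hη.pow 2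
  have hsup : Function.support (fun z => η z ^ 2) ⊆ Function.support η := by
    intro z hz
    simp only [Function.mem_support] at hz ⊢
    intro h0; apply hz; rw [h0]; ring
  have hts : tsupport (fun z => η z ^ 2) ⊆ tsupport η := closure_mono hsup
  have hc2 : HasCompactSupport (fun z => η z ^ 2) := hc.mono hsup
  have := h.stokes (fun z => η z ^ 2) hη2 hc2 (hts.trans (hs.trans hKU))
  have hfd : ∀ z v, fderiv ℝ (fun z => η z ^ 2) z v = 2 * η z * fderiv ℝ η z v := by
    intro z v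
    have h1 : HasFDerivAt η (fderiv ℝ η z) z := (hη.differentiable (by norm_num) z).hasFDerivAt
    have h2 := (h1.pow 2).fderiv
    rw [h2]
    simp
  rw [setIntegral_eq_integral_of_forall_compl_eq_zero, setIntegral_eq_integral_of_forall_compl_eq_zero,
    this]
  · congr 1
    apply integral_congr_ae
    filter_upwards with z
    rw [hfd, hfd]; ring
  · intro z hz
    have : η z = 0 := by
      by_contra h0
      exact hz (hs (subset_closure h0))
    rw [this]; ring
  · intro z hz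
    have : η z = 0 := by
      by_contra h0
      exact hz (hs (subset_closure h0))
    rw [this]; ring


theorem vol_ball (z₀ : ℂ) (r : ℝ) (hr : 0 < r) :
    (volume (closedBall z₀ (2 * r))).toReal = 4 * Real.pi * r ^ 2 := by
  rw [Complex.volume_closedBall]
  rw [ENNReal.toReal_mul, ENNReal.toReal_pow, ENNReal.toReal_ofReal (by positivity)]
  simp
  ring

theorem fd_bound {η : ℂ → ℝ} {c : ℝ} {z : ℂ} (h : ‖fderiv ℝ η z‖ ≤ c) :
    (fderiv ℝ η z 1) ^ 2 ≤ c ^ 2 ∧ (fderiv ℝ η z I) ^ 2 ≤ c ^ 2 := by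
  constructor
  · have h1 : |fderiv ℝ η z 1| ≤ c := by
      have := (fderiv ℝ η z).le_opNorm 1
      simp only [norm_one, mul_one, Real.norm_eq_abs] at this
      exact this.trans h
    exact sq_le_sq' (by linarith [(abs_le.1 h1).1]) (abs_le.1 h1).2
  · have h1 : |fderiv ℝ η z I| ≤ c := by
      have := (fderiv ℝ η z).le_opNorm I
      simp only [Complex.norm_I, mul_one, Real.norm_eq_abs] at this
      exact this.trans h
    exact sq_le_sq' (by linarith [(abs_le.1 h1).1]) (abs_le.1 h1).2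

end Pool.Agent.W796.PH.CaccL
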