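import Mathlib
import Pool.Agent.W796.PH.Defs
import Pool.Agent.W345.PH.WeakSW

set_option autoImplicit false

/-! Mollification in `L^p`, smooth approximation of functions with weak gradient in `L^p`. -/

namespace Pool.Agent.W796.PH

open MeasureTheory Metric Set Filter Topology Complex
open scoped ENNReal ContDiff ComplexConjugate
open ContinuousLinearMap Convolution

theorem lint_rpow_le {α : Type*} [MeasurableSpace α] (ν : Measure α) (hν : ν univ = 1)
    {q : ℝ} (hq : 1 ≤ q) {h : α → ℝ≥0∞} (hh : AEMeasurable h ν) :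
    (∫⁻ a, h a ∂ν) ^ q ≤ ∫⁻ a, h a ^ q ∂ν := by
  rcases hq.eq_or_lt with rfl | hq1
  · simp
  have hpq : q.HolderConjugate (q / (q - 1)) := Real.HolderConjugate.conjExponent hq1
  have := ENNReal.lintegral_mul_le_Lp_mul_Lq ν hpq hh (g := fun _ => 1) aemeasurable_const
  simp only [Pi.mul_apply, mul_one, ENNReal.one_rpow, lintegral_const, hν] at this
  have hq0 : q ≠ 0 := by linarith
  calc (∫⁻ a, h a ∂ν) ^ q ≤ ((∫⁻ a, h a ^ q ∂ν) ^ (1 / q)) ^ q :=
        ENNReal.rpow_le_rpow this (by linarith)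
    _ = _ := by
        rw [← ENNReal.rpow_mul, one_div, inv_mul_cancel₀ hq0, ENNReal.rpow_one]

theorem transl_contP (p : ℝ≥0∞) (hp : 1 ≤ p) (hp' : p ≠ ⊤) (g : ℂ → ℂ) (hg : MemLp g p volume)
    (η : ℝ≥0∞) (hη : 0 < η) :
    ∃ ε : ℝ, 0 < ε ∧ ∀ t : ℂ, ‖t‖ < ε → eLpNorm (fun z => g (z - t) - g z) p volume ≤ η := by
  have : Fact (1 ≤ p) := ⟨hp⟩
  let G : ℂ → C(ℂ, ℂ) := fun t => ⟨fun z => z - t, by fun_prop⟩
  have hG : Continuous G := ContinuousMap.continuous_of_continuous_uncurry _ (by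
    show Continuous fun p : ℂ × ℂ => p.2 - p.1
    fun_prop)
  have hmp : ∀ t, MeasurePreserving (G t) volume volume := fun t =>
    measurePreserving_sub_right volume t
  have hc : Continuous fun t => Lp.compMeasurePreserving (G t) (hmp t) (hg.toLp g) :=
    Continuous.compMeasurePreservingLp continuous_const hG hmp hp'
  have h0 := hc.tendsto 0
  rw [EMetric.tendsto_nhds] at h0
  have h1 := h0 η hη
  rw [Metric.eventually_nhds_iff] at h1
  obtain ⟨ε, hε, h2⟩ := h1
  refine ⟨ε, hε, fun t ht => ?_⟩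
  have h3 := h2 (y := t) (by simpa [dist_eq_norm] using ht)
  rw [Lp.edist_def] at h3
  have hcoe : ∀ s : ℂ, (Lp.compMeasurePreserving (G s) (hmp s) (hg.toLp g) : ℂ → ℂ) =ᵐ[volume]
      fun z => g (z - s) := by
    intro s
    have e1 := Lp.coeFn_compMeasurePreserving (hg.toLp g) (hmp s)
    have e2 : (fun z => (hg.toLp g : ℂ → ℂ) (G s z)) =ᵐ[volume] fun z => g (G s z) :=
      (hmp s).quasiMeasurePreserving.ae_eq_comp hg.coeFn_toLp
    exact e1.trans e2
  have h4 : eLpNorm (fun z => g (z - t) - g z) p volume =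
      eLpNorm ((Lp.compMeasurePreserving (G t) (hmp t) (hg.toLp g) : ℂ → ℂ) -
        (Lp.compMeasurePreserving (G 0) (hmp 0) (hg.toLp g) : ℂ → ℂ)) p volume := by
    apply eLpNorm_congr_ae
    filter_upwards [hcoe t, hcoe 0] with z h5 h6
    rw [Pi.sub_apply, h5, h6, sub_zero]
  rw [h4]
  exact h3.le

theorem mollify_LP {q : ℝ} (hq : 1 ≤ q) (g : ℂ → ℂ) (hgm : Measurable g)
    (hg : MemLp g (ENNReal.ofReal q) volume) (ρ : ℂ → ℝ)
    (hρc : Continuous ρ) (hρs : HasCompactSupport ρ) (hρ0 : ∀ t, 0 ≤ ρ t) (hρ1 : ∫ t, ρ t = 1)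
    (ε : ℝ) (hρε : ∀ t, ρ t ≠ 0 → ‖t‖ < ε) (η : ℝ≥0∞)
    (h : ∀ t : ℂ, ‖t‖ < ε → eLpNorm (fun z => g (z - t) - g z) (ENNReal.ofReal q) volume ≤ η) :
    eLpNorm (fun z => (∫ t, ρ t • g (z - t)) - g z) (ENNReal.ofReal q) volume ≤ η := by
  have hq0 : 0 < q := by linarith
  have hP1 : (1 : ℝ≥0∞) ≤ ENNReal.ofReal q := by
    rw [← ENNReal.ofReal_one]
    exact ENNReal.ofReal_le_ofReal hq
  have hP0 : ENNReal.ofReal q ≠ 0 := by
    intro h0
    rw [h0] at hP1
    simp at hP1
  have hPt : ENNReal.ofReal q ≠ ⊤ := ENNReal.ofReal_ne_top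
  have hPr : (ENNReal.ofReal q).toReal = q := ENNReal.toReal_ofReal hq0.le
  have hρint : Integrable ρ := hρc.integrable_of_hasCompactSupport hρs
  have hloc : LocallyIntegrable g volume := hg.locallyIntegrable hP1
  have hρm : Measurable fun t => ‖ρ t‖ₑ := hρc.measurable.enorm
  set ν : Measure ℂ := volume.withDensity fun t => ‖ρ t‖ₑ with hν
  have hρ1' : ∫⁻ t, ‖ρ t‖ₑ = 1 := by
    rw [← ofReal_integral_norm_eq_lintegral_enorm hρint]
    have : ∫ x, ‖ρ x‖ = 1 := by
      rw [← hρ1]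
      refine integral_congr_ae (Filter.Eventually.of_forall fun w => ?_)
      exact Real.norm_of_nonneg (hρ0 w)
    rw [this, ENNReal.ofReal_one]
  have hν1 : ν univ = 1 := by
    rw [hν, withDensity_apply _ MeasurableSet.univ, Measure.restrict_univ, hρ1']
  have hpt : ∀ z, ‖(∫ t, ρ t • g (z - t)) - g z‖ₑ ^ q ≤
      ∫⁻ t, ‖ρ t‖ₑ * ‖g (z - t) - g z‖ₑ ^ q := by
    intro z
    have hi1 : Integrable fun t => ρ t • g (z - t) :=
      hρs.convolutionExists_left (lsmul ℝ ℝ) hρc hloc z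
    have hi2 : Integrable fun t => ρ t • g z := hρint.smul_const _
    have e1 : (∫ t, ρ t • g (z - t)) - g z = ∫ t, ρ t • (g (z - t) - g z) := by
      have : ∫ t, ρ t • g z = g z := by rw [integral_smul_const, hρ1, one_smul]
      calc (∫ t, ρ t • g (z - t)) - g z = (∫ t, ρ t • g (z - t)) - ∫ t, ρ t • g z := by rw [this]
        _ = ∫ t, (ρ t • g (z - t) - ρ t • g z) := (integral_sub hi1 hi2).symm
        _ = _ := by simp only [smul_sub]
    have hm1 : Measurable fun t => ‖g (z - t) - g z‖ₑ :=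
      ((hgm.comp (measurable_const.sub measurable_id)).sub measurable_const).enorm
    have h1 : ‖∫ t, ρ t • (g (z - t) - g z)‖ₑ ≤ ∫⁻ t, ‖g (z - t) - g z‖ₑ ∂ν := by
      refine (enorm_integral_le_lintegral_enorm _).trans (le_of_eq ?_)
      rw [hν, lintegral_withDensity_eq_lintegral_mul _ hρm hm1]
      refine lintegral_congr fun t => ?_
      rw [enorm_smul]
      rfl
    rw [e1]
    calc ‖∫ t, ρ t • (g (z - t) - g z)‖ₑ ^ q ≤ (∫⁻ t, ‖g (z - t) - g z‖ₑ ∂ν) ^ q :=
          ENNReal.rpow_le_rpow h1 hq0.le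
      _ ≤ ∫⁻ t, ‖g (z - t) - g z‖ₑ ^ q ∂ν := lint_rpow_le ν hν1 hq hm1.aemeasurable
      _ = _ := by
          rw [hν, lintegral_withDensity_eq_lintegral_mul _ hρm (hm1.pow_const _)]
          rfl
  have hmm : Measurable fun w : ℂ × ℂ => ‖ρ w.2‖ₑ * ‖g (w.1 - w.2) - g w.1‖ₑ ^ q :=
    (hρm.comp measurable_snd).mul ((((hgm.comp (measurable_fst.sub measurable_snd)).sub
      (hgm.comp measurable_fst)).enorm).pow_const _)
  have hone : q * (1 / q) = 1 := by field_simp
  have hone' : 1 / q * q = 1 := by field_simp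
  have key : ∫⁻ z, ‖(∫ t, ρ t • g (z - t)) - g z‖ₑ ^ q ≤ η ^ q := by
    calc ∫⁻ z, ‖(∫ t, ρ t • g (z - t)) - g z‖ₑ ^ q
        ≤ ∫⁻ z, ∫⁻ t, ‖ρ t‖ₑ * ‖g (z - t) - g z‖ₑ ^ q := lintegral_mono hpt
      _ = ∫⁻ t, ∫⁻ z, ‖ρ t‖ₑ * ‖g (z - t) - g z‖ₑ ^ q :=
          lintegral_lintegral_swap hmm.aemeasurable
      _ ≤ ∫⁻ t, ‖ρ t‖ₑ * η ^ q := by
          refine lintegral_mono fun t => ?_
          simp only
          have hmt : Measurable fun z => ‖g (z - t) - g z‖ₑ ^ q :=
            (((hgm.comp (measurable_id.sub_const t)).sub hgm).enorm).pow_const _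
          rw [lintegral_const_mul _ hmt]
          by_cases ht : ρ t = 0
          · rw [ht]; simp
          · gcongr
            have h1 := h t (hρε t ht)
            rw [eLpNorm_eq_lintegral_rpow_enorm_toReal hP0 hPt, hPr] at h1
            have h2 := ENNReal.rpow_le_rpow h1 hq0.le
            rw [← ENNReal.rpow_mul, hone', ENNReal.rpow_one] at h2
            exact h2
      _ = η ^ q := by rw [lintegral_mul_const _ hρm, hρ1', one_mul]
  rw [eLpNorm_eq_lintegral_rpow_enorm_toReal hP0 hPt, hPr]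
  calc (∫⁻ z, ‖(∫ t, ρ t • g (z - t)) - g z‖ₑ ^ q) ^ (1 / q)
      ≤ (η ^ q) ^ (1 / q) := ENNReal.rpow_le_rpow key (by positivity)
    _ = η := by rw [← ENNReal.rpow_mul, hone, ENNReal.rpow_one]

/-- smooth approximation of a function with weak gradient in `L^q` -/
theorem approxP {q : ℝ} (hq : 1 ≤ q) {c : ℂ} {R R' : ℝ} (hRR : R < R') (hR0 : 0 ≤ R) {h : ℂ → ℝ}
    {G : ℂ → ℂ} (hh : MemLp h (ENNReal.ofReal q) (volume.restrict (closedBall c R')))
    (hG : MemLp G (ENNReal.ofReal q) (volume.restrict (closedBall c R')))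
    (hw : ∀ φ : ℂ → ℝ, ContDiff ℝ ∞ φ → HasCompactSupport φ → tsupport φ ⊆ ball c R' → ∀ v : ℂ,
      ∫ z, h z * fderiv ℝ φ z v = - ∫ z, φ z * (conj (G z) * v).re) :
    ∃ H : ℕ → ℂ → ℝ, (∀ n, ContDiff ℝ ∞ (H n)) ∧ ∀ v : ℂ,
      Tendsto (fun n => eLpNorm (fun z => fderiv ℝ (H n) z v - (conj (G z) * v).re)
        (ENNReal.ofReal q) (volume.restrict (closedBall c R))) atTop (𝓝 0) := by
  have hP1 : (1 : ℝ≥0∞) ≤ ENNReal.ofReal q := by
    rw [← ENNReal.ofReal_one]
    exact ENNReal.ofReal_le_ofReal hq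
  have hPt : ENNReal.ofReal q ≠ ⊤ := ENNReal.ofReal_ne_top
  set U : Set ℂ := ball c R' with hU
  set K : Set ℂ := closedBall c R with hK
  set δ : ℝ := (R' - R) / 2 with hδ
  have hδ0 : 0 < δ := by rw [hδ]; linarith
  set K' : Set ℂ := closedBall c (R + δ) with hK'def
  have hK' : IsCompact K' := isCompact_closedBall _ _
  have hδU : K' ⊆ U := closedBall_subset_ball (by rw [hδ]; linarith)
  -- the complex valued function
  set Q : ℂ → ℂ := fun z => (h z : ℂ) with hQ
  have hQL : MemLp Q (ENNReal.ofReal q) (volume.restrict (closedBall c R')) := hh.ofReal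
  have hεpos : ∀ n : ℕ, 0 < δ / ((n : ℝ) + 2) := fun n => by positivity
  let b : ℕ → ContDiffBump (0 : ℂ) := fun n =>
    ⟨δ / ((n : ℝ) + 2) / 2, δ / ((n : ℝ) + 2), by positivity, by
      have := hεpos n
      linarith⟩
  set ρ : ℕ → ℂ → ℝ := fun n => (b n).normed volume with hρ
  have hρs : ∀ n, ContDiff ℝ ∞ (ρ n) := fun n => (b n).contDiff_normed
  have hρc : ∀ n, HasCompactSupport (ρ n) := fun n => (b n).hasCompactSupport_normed
  have hρ0 : ∀ n x, 0 ≤ ρ n x := fun n => (b n).nonneg_normed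
  have hρi : ∀ n, ∫ x, ρ n x = 1 := fun n => (b n).integral_normed
  have hρsupp : ∀ n x, ρ n x ≠ 0 → ‖x‖ < δ / ((n : ℝ) + 2) := by
    intro n x hx
    have : x ∈ Function.support (ρ n) := hx
    rw [hρ] at this
    simp only at this
    rw [(b n).support_normed_eq] at this
    simpa [b] using this
  have hεδ : ∀ n : ℕ, δ / ((n : ℝ) + 2) ≤ δ := by
    intro n
    rw [div_le_iff₀ (by positivity)]
    have : (0 : ℝ) ≤ n := by positivity
    nlinarith
  have hball : ∀ (n : ℕ), ∀ z ∈ K, closedBall z (δ / ((n : ℝ) + 2)) ⊆ K' := by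
    intro n z hz
    refine closedBall_subset_closedBall' ?_
    have : dist z c ≤ R := hz
    have := hεδ n
    linarith
  have hεlim : Tendsto (fun n : ℕ => δ / ((n : ℝ) + 2)) atTop (𝓝 0) := by
    apply Tendsto.div_atTop tendsto_const_nhds
    exact tendsto_atTop_add_const_right _ _ tendsto_natCast_atTop_atTop
  have hFi : Integrable (K'.indicator Q) := by
    rw [integrable_indicator_iff hK'.measurableSet]
    have : IsFiniteMeasure (volume.restrict K') := ⟨by
      rw [Measure.restrict_apply_univ]; exact hK'.measure_lt_top⟩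
    refine MemLp.integrable hP1 (hQL.mono_measure (Measure.restrict_mono ?_ le_rfl))
    exact closedBall_subset_closedBall (by rw [hδ]; linarith)
  have hmoll : ∀ (f g : ℂ → ℂ), MemLp f (ENNReal.ofReal q) volume → Measurable g →
      f =ᵐ[volume] g → Tendsto (fun n => eLpNorm (fun z => (∫ t, ρ n t • g (z - t)) - g z)
        (ENNReal.ofReal q) (volume.restrict K)) atTop (𝓝 0) := by
    intro f g hf hgm hfg
    have hgL : MemLp g (ENNReal.ofReal q) volume := hf.ae_eq hfg
    rw [ENNReal.tendsto_nhds_zero]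
    intro η hη
    obtain ⟨ε, hε, hε'⟩ := transl_contP (ENNReal.ofReal q) hP1 hPt g hgL η hη
    have hev : ∀ᶠ n : ℕ in atTop, δ / ((n : ℝ) + 2) < ε := hεlim.eventually (gt_mem_nhds hε)
    filter_upwards [hev] with n hn
    have h1 := mollify_LP hq g hgm hgL (ρ n) (hρs n).continuous (hρc n) (hρ0 n) (hρi n)
      (δ / ((n : ℝ) + 2)) (hρsupp n) η (fun t ht => hε' t (ht.trans hn))
    exact (eLpNorm_mono_measure _ Measure.restrict_le_self).trans h1
  -- smoothness of the mollified complex function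
  have hsm : ∀ n, ContDiff ℝ ∞ (ρ n ⋆[lsmul ℝ ℝ, volume] (K'.indicator Q)) := fun n =>
    (hρc n).contDiff_convolution_left (lsmul ℝ ℝ) (hρs n) hFi.locallyIntegrable
  refine ⟨fun n z => ((ρ n ⋆[lsmul ℝ ℝ, volume] (K'.indicator Q)) z).re,
    fun n => reCLM.contDiff.comp (hsm n), ?_⟩
  intro v
  -- the complex derivative
  set qe : ℂ → ℂ := fun z => (((conj (G z) * v).re : ℝ) : ℂ) with hqe
  have hqeL : MemLp qe (ENNReal.ofReal q) (volume.restrict U) := by
    have h1 : MemLp G (ENNReal.ofReal q) (volume.restrict U) :=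
      hG.mono_measure (Measure.restrict_mono ball_subset_closedBall le_rfl)
    have h2 : MemLp (fun z => conj (G z) * v) (ENNReal.ofReal q) (volume.restrict U) := by
      have h3 : MemLp (fun z => conj (G z)) (ENNReal.ofReal q) (volume.restrict U) :=
        h1.star
      exact h3.mul_const v
    exact h2.re.ofReal
  have hWD : WD U Q qe v := by
    intro φ hφ hc hs
    have h1 := hw φ hφ hc hs v
    have e1 : ∀ z, fderiv ℝ φ z v • Q z = (((h z * fderiv ℝ φ z v : ℝ)) : ℂ) := by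
      intro z
      rw [real_smul, hQ]
      push_cast
      ring
    have e2 : ∀ z, φ z • qe z = (((φ z * (conj (G z) * v).re : ℝ)) : ℂ) := by
      intro z
      rw [real_smul, hqe]
      push_cast
      ring
    simp only [e1, e2]
    rw [integral_complex_ofReal, integral_complex_ofReal]
    exact_mod_cast h1
  have hUi : MemLp (U.indicator qe) (ENNReal.ofReal q) volume :=
    (memLp_indicator_iff_restrict measurableSet_ball).2 hqeL
  set g : ℂ → ℂ := hUi.aestronglyMeasurable.mk _ with hg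
  have hgae : (U.indicator qe) =ᵐ[volume] g := hUi.aestronglyMeasurable.ae_eq_mk
  have hgm : Measurable g := hUi.aestronglyMeasurable.stronglyMeasurable_mk.measurable
  have hgU : ∀ᵐ z, z ∈ U → g z = qe z := by
    filter_upwards [hgae] with z hz hzU
    rw [← hz, indicator_of_mem hzU]
  have hlim := hmoll _ g hUi hgm hgae
  refine tendsto_of_tendsto_of_tendsto_of_le_of_le tendsto_const_nhds hlim
    (fun n => zero_le) (fun n => ?_)
  refine eLpNorm_mono_ae ?_
  filter_upwards [ae_restrict_mem measurableSet_closedBall, ae_restrict_of_ae hgU] with z hz hgz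
  have hzU : z ∈ U := closedBall_subset_ball hRR hz
  have hd := Pool.Agent.W345.PH.WeakSW.deriv_formula U Q qe v K' hδU hFi hWD g hgU (ρ n) (hρs n)
    (hρc n) (δ / ((n : ℝ) + 2)) (hρsupp n) z (hball n z hz)
  have hre : fderiv ℝ (fun z => ((ρ n ⋆[lsmul ℝ ℝ, volume] (K'.indicator Q)) z).re) z v =
      (fderiv ℝ (ρ n ⋆[lsmul ℝ ℝ, volume] (K'.indicator Q)) z v).re := by
    have h1 := reCLM.hasFDerivAt.comp z (((hsm n).differentiable (by simp)) z).hasFDerivAt
    have h2 : fderiv ℝ (fun z => ((ρ n ⋆[lsmul ℝ ℝ, volume] (K'.indicator Q)) z).re) z =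
      reCLM.comp (fderiv ℝ (ρ n ⋆[lsmul ℝ ℝ, volume] (K'.indicator Q)) z) := h1.fderiv
    rw [h2]
    rfl
  rw [hre, hd, hgz hzU, hqe]
  simp only
  have e3 : (∫ t, ρ n t • g (z - t)).re - (conj (G z) * v).re =
      ((∫ t, ρ n t • g (z - t)) - (((conj (G z) * v).re : ℝ) : ℂ)).re := by
    rw [sub_re, ofReal_re]
  rw [e3]
  exact Complex.abs_re_le_norm _

end Pool.Agent.W796.PH
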