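import Mathlib
import Pool.Agent.W796.PH.Defs

set_option autoImplicit false

/-! Elementary facts on the radial maps `pw`, `pd`, `fr`. -/

namespace Pool.Agent.W796.PH

open MeasureTheory Metric Set Filter Topology Complex
open scoped ENNReal ContDiff ComplexConjugate
open Pool.Agent.Helper366.IV (W QR Jac)

theorem norm_pw (e : ℝ) (g : ℂ) : ‖pw e g‖ = ‖g‖ ^ e * ‖g‖ := by
  unfold pw
  rw [norm_mul, Complex.norm_real, Real.norm_eq_abs, abs_of_nonneg (Real.rpow_nonneg (norm_nonneg _) _)]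

theorem pw_zero (e : ℝ) : pw e 0 = 0 := by
  unfold pw
  simp

theorem pw_ne_zero {e : ℝ} {g : ℂ} (hg : g ≠ 0) : pw e g ≠ 0 := by
  rw [← norm_ne_zero_iff, norm_pw]
  have : 0 < ‖g‖ := norm_pos_iff.2 hg
  positivity

theorem pw_pw {e e' : ℝ} (g : ℂ) : pw e (pw e' g) = pw (e + e' + e * e') g := by
  rcases eq_or_ne g 0 with rfl | hg
  · rw [pw_zero, pw_zero, pw_zero]
  have h0 : 0 < ‖g‖ := norm_pos_iff.2 hg
  have h1 : ‖pw e' g‖ = ‖g‖ ^ (e' + 1) := by
    rw [norm_pw, Real.rpow_add_one h0.ne']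
  unfold pw at h1 ⊢
  rw [h1, ← mul_assoc, ← ofReal_mul, ← Real.rpow_mul h0.le, ← Real.rpow_add h0]
  congr 3
  ring

theorem pw_zero_exp (g : ℂ) : pw 0 g = g := by
  unfold pw
  simp

theorem pw_inv (p : ℝ) (hp : 2 ≤ p) (g : ℂ) : pw (2 / p - 1) (pw ((p - 2) / 2) g) = g := by
  rw [pw_pw]
  have : 2 / p - 1 + (p - 2) / 2 + (2 / p - 1) * ((p - 2) / 2) = 0 := by
    field_simp
    ring
  rw [this, pw_zero_exp]

theorem pw_cont {e : ℝ} (he : 0 ≤ e) : Continuous (pw e) := by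
  unfold pw
  refine Continuous.mul ?_ continuous_id
  exact continuous_ofReal.comp (continuous_norm.rpow_const (fun _ => Or.inr he))

theorem norm_pw_half (p : ℝ) (hp : 2 ≤ p) (g : ℂ) : ‖pw ((p - 2) / 2) g‖ = ‖g‖ ^ (p / 2) := by
  rw [norm_pw]
  rcases eq_or_ne g 0 with rfl | hg
  · rw [norm_zero, mul_zero, Real.zero_rpow (by positivity)]
  · rw [← Real.rpow_add_one (norm_ne_zero_iff.2 hg)]
    congr 1
    ring

/-- `V = |G|^{(p-2)/2} G` is in `L²` when `G` is in `L^p` -/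
theorem memLp_V {p : ℝ} (hp : 2 ≤ p) {G : ℂ → ℂ} {μ : Measure ℂ}
    (hG : MemLp G (ENNReal.ofReal p) μ) :
    MemLp (fun z => pw ((p - 2) / 2) (G z)) 2 μ := by
  have hp0 : 0 < p := by linarith
  have hm : AEStronglyMeasurable (fun z => pw ((p - 2) / 2) (G z)) μ :=
    (pw_cont (by linarith)).comp_aestronglyMeasurable hG.1
  have h1 := hG.norm_rpow_div (ENNReal.ofReal (p / 2))
  have h2 : ENNReal.ofReal p / ENNReal.ofReal (p / 2) = 2 := by
    rw [← ENNReal.ofReal_div_of_pos (by positivity)]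
    have : p / (p / 2) = 2 := by field_simp
    rw [this]
    norm_num
  rw [h2, ENNReal.toReal_ofReal (by positivity)] at h1
  refine (memLp_norm_iff hm).1 ?_
  simpa only [norm_pw_half p hp] using h1

/-- the regularised map is uniformly close to the radial power map -/
theorem pd_close {e δ : ℝ} (he1 : -1 < e) (he0 : e ≤ 0) (hδ : 0 < δ) (v : ℂ) :
    ‖pd e δ v - pw e v‖ ≤ δ ^ (1 + e) := by
  have hδe : 0 < δ ^ (1 + e) := Real.rpow_pos_of_pos hδ _
  rcases eq_or_ne v 0 with rfl | hv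
  · unfold pd pw
    simp only [mul_zero, sub_self, norm_zero]
    exact hδe.le
  have hs : 0 < ‖v‖ := norm_pos_iff.2 hv
  set s := ‖v‖ with hsdef
  have h1 : pd e δ v - pw e v = (((δ ^ 2 + s ^ 2) ^ (e / 2) - s ^ e : ℝ) : ℂ) * v := by
    unfold pd pw
    rw [← hsdef]
    push_cast
    ring
  have h2 : (δ ^ 2 + s ^ 2) ^ (e / 2) ≤ s ^ e := by
    have e1 : s ^ e = (s ^ 2) ^ (e / 2) := by
      rw [← Real.rpow_natCast, ← Real.rpow_mul hs.le]
      congr 1
      push_cast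
      ring
    rw [e1]
    exact Real.rpow_le_rpow_of_nonpos (by positivity) (by nlinarith [sq_nonneg δ]) (by linarith)
  rw [h1, norm_mul, Complex.norm_real, Real.norm_eq_abs, abs_of_nonpos (by linarith), ← hsdef]
  have h3 : s ^ e * s = s ^ (1 + e) := by
    rw [Real.rpow_add hs, Real.rpow_one]
    ring
  rcases le_or_gt s δ with hle | hgt
  · have h4 : 0 ≤ (δ ^ 2 + s ^ 2) ^ (e / 2) := by positivity
    calc -((δ ^ 2 + s ^ 2) ^ (e / 2) - s ^ e) * s ≤ s ^ e * s := by nlinarith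
      _ = s ^ (1 + e) := h3
      _ ≤ δ ^ (1 + e) := Real.rpow_le_rpow hs.le hle (by linarith)
  · -- `(1 + x)^{e/2} ≥ 1 - x`
    have hx : 0 ≤ δ ^ 2 / s ^ 2 := by positivity
    have h5 : (δ ^ 2 + s ^ 2) ^ (e / 2) = s ^ e * (1 + δ ^ 2 / s ^ 2) ^ (e / 2) := by
      have e1 : δ ^ 2 + s ^ 2 = s ^ 2 * (1 + δ ^ 2 / s ^ 2) := by field_simp; ring
      have e2 : s ^ e = (s ^ 2) ^ (e / 2) := by
        rw [← Real.rpow_natCast, ← Real.rpow_mul hs.le]
        congr 1
        push_cast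
        ring
      rw [e1, Real.mul_rpow (by positivity) (by positivity), e2]
    have h6 : 1 - δ ^ 2 / s ^ 2 ≤ (1 + δ ^ 2 / s ^ 2) ^ (e / 2) := by
      have h7 : (1 + δ ^ 2 / s ^ 2) ^ (-1 : ℝ) ≤ (1 + δ ^ 2 / s ^ 2) ^ (e / 2) :=
        Real.rpow_le_rpow_of_exponent_le (by linarith) (by linarith)
      rw [Real.rpow_neg_one] at h7
      refine le_trans ?_ h7
      rw [← one_div, le_div_iff₀ (by positivity)]
      nlinarith [mul_nonneg hx hx]
    have h8 : 0 ≤ s ^ e * s := by positivity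
    calc -((δ ^ 2 + s ^ 2) ^ (e / 2) - s ^ e) * s
        = s ^ e * s * (1 - (1 + δ ^ 2 / s ^ 2) ^ (e / 2)) := by rw [h5]; ring
      _ ≤ s ^ e * s * (δ ^ 2 / s ^ 2) := by
        refine mul_le_mul_of_nonneg_left ?_ h8
        linarith
      _ = s ^ (e - 1) * δ ^ 2 := by
        rw [Real.rpow_sub_one hs.ne']
        field_simp
      _ ≤ δ ^ (e - 1) * δ ^ 2 := by
        refine mul_le_mul_of_nonneg_right ?_ (by positivity)
        exact Real.rpow_le_rpow_of_nonpos hδ hgt.le (by linarith)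
      _ = δ ^ (1 + e) := by
        rw [← Real.rpow_natCast δ 2, ← Real.rpow_add hδ]
        congr 1
        push_cast
        ring

theorem norm_fr_le {k : ℝ} {n w : ℂ} (hn : ‖n‖ ≤ 1) (hk : |k - 1| ≤ 1) : ‖fr k n w‖ ≤ 2 * ‖w‖ := by
  unfold fr
  refine (norm_add_le _ _).trans ?_
  have h1 : ‖(((k - 1) * (conj n * w).re : ℝ) : ℂ) * n‖ ≤ ‖w‖ := by
    rw [norm_mul, Complex.norm_real, Real.norm_eq_abs, abs_mul]
    have h2 : |(conj n * w).re| ≤ ‖w‖ := by
      refine (Complex.abs_re_le_norm _).trans ?_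
      rw [norm_mul, Complex.norm_conj]
      nlinarith [norm_nonneg w]
    calc |k - 1| * |(conj n * w).re| * ‖n‖ ≤ 1 * ‖w‖ * 1 := by gcongr
      _ = ‖w‖ := by ring
  linarith

end Pool.Agent.W796.PH
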