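import Mathlib
import Pool.Agent.W796.PH.MollP
import Pool.Agent.W796.PH.Rad

set_option autoImplicit false

/-! Difference quotients, preparations. -/

namespace Pool.Agent.W796.PH

open MeasureTheory Metric Set Filter Topology Complex
open scoped ENNReal ContDiff ComplexConjugate

/-- gradient as a complex number -/
noncomputable def gr (H : ℂ → ℝ) (z : ℂ) : ℂ :=
  ((fderiv ℝ H z 1 : ℝ) : ℂ) + ((fderiv ℝ H z I : ℝ) : ℂ) * I

theorem fderiv_eq_gr (H : ℂ → ℝ) (z w : ℂ) : fderiv ℝ H z w = (conj (gr H z) * w).re := by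
  have h1 : w = w.re • (1 : ℂ) + w.im • I := by
    apply Complex.ext <;> simp
  conv_lhs => rw [h1, map_add, map_smul, map_smul]
  unfold gr
  simp
  ring

theorem gr_cont {H : ℂ → ℝ} (hH : ContDiff ℝ 1 H) : Continuous (gr H) := by
  have h1 : ∀ v : ℂ, Continuous (fun z => fderiv ℝ H z v) := fun v =>
    (hH.continuous_fderiv one_ne_zero).clm_apply continuous_const
  exact (continuous_ofReal.comp (h1 1)).add ((continuous_ofReal.comp (h1 I)).mul continuous_const)

theorem abs_re_conj_mul_le (a b : ℂ) : |(conj a * b).re| ≤ ‖a‖ * ‖b‖ := by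
  refine (Complex.abs_re_le_norm _).trans ?_
  rw [norm_mul, Complex.norm_conj]

theorem gr_eq_zero {H : ℂ → ℝ} {z : ℂ} (hz : z ∉ tsupport H) : gr H z = 0 := by
  have h0 : fderiv ℝ H z = 0 := by
    by_contra hcon
    exact hz (support_fderiv_subset ℝ (f := H) hcon)
  unfold gr
  rw [h0]
  simp

/-- translations map into larger balls -/
theorem mp_shift (c v : ℂ) (ρ ρ' : ℝ) (hρ : ρ + ‖v‖ ≤ ρ') :
    closedBall c ρ ⊆ (fun z => z + v) ⁻¹' closedBall c ρ' := by
  intro z hz
  show dist (z + v) c ≤ ρ'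
  have h1 : dist z c ≤ ρ := hz
  rw [dist_eq_norm] at h1 ⊢
  have : z + v - c = (z - c) + v := by ring
  rw [this]
  exact (norm_add_le _ _).trans (by linarith)

theorem memLp_shift {E : Type*} [NormedAddCommGroup E] {P : ℝ≥0∞} {f : ℂ → E} {c v : ℂ}
    {ρ ρ' : ℝ} (hρ : ρ + ‖v‖ ≤ ρ') (hf : MemLp f P (volume.restrict (closedBall c ρ'))) :
    MemLp (fun z => f (z + v)) P (volume.restrict (closedBall c ρ)) ∧
    eLpNorm (fun z => f (z + v)) P (volume.restrict (closedBall c ρ)) ≤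
      eLpNorm f P (volume.restrict (closedBall c ρ')) := by
  have hmp : MeasurePreserving (fun z : ℂ => z + v)
      (volume.restrict ((fun z => z + v) ⁻¹' closedBall c ρ'))
      (volume.restrict (closedBall c ρ')) :=
    (measurePreserving_add_right volume v).restrict_preimage measurableSet_closedBall
  have hle : volume.restrict (closedBall c ρ) ≤
      volume.restrict ((fun z => z + v) ⁻¹' closedBall c ρ') :=
    Measure.restrict_mono (mp_shift c v ρ ρ' hρ) le_rfl
  have h1 : MemLp (f ∘ fun z => z + v) P (volume.restrict ((fun z => z + v) ⁻¹' closedBall c ρ')) :=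
    hf.comp_measurePreserving hmp
  refine ⟨h1.mono_measure hle, ?_⟩
  calc eLpNorm (fun z => f (z + v)) P (volume.restrict (closedBall c ρ))
      ≤ eLpNorm (f ∘ fun z => z + v) P (volume.restrict ((fun z => z + v) ⁻¹' closedBall c ρ')) :=
        eLpNorm_mono_measure _ hle
    _ = _ := eLpNorm_comp_measurePreserving hf.1 hmp

/-- difference quotients of a smooth function are bounded by the gradient -/
theorem shift_Lp {q : ℝ} (hq : 1 ≤ q) {H : ℂ → ℝ} (hH : ContDiff ℝ 1 H) {c e : ℂ} {ρ ρ' t : ℝ}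
    (he : ‖e‖ = 1) (ht : 0 < t) (hρ : ρ + t ≤ ρ') :
    eLpNorm (fun z => (H (z + t * e) - H z) / t) (ENNReal.ofReal q)
      (volume.restrict (closedBall c ρ)) ≤
      eLpNorm (gr H) (ENNReal.ofReal q) (volume.restrict (closedBall c ρ')) := by
  have hq0 : 0 < q := by linarith
  have hP0 : ENNReal.ofReal q ≠ 0 := by
    simp only [ne_eq, ENNReal.ofReal_eq_zero, not_le]
    exact hq0
  have hPt : ENNReal.ofReal q ≠ ⊤ := ENNReal.ofReal_ne_top
  have hPr : (ENNReal.ofReal q).toReal = q := ENNReal.toReal_ofReal hq0.le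
  have hgc : Continuous (gr H) := gr_cont hH
  set ν : Measure ℝ := volume.restrict (Ioc (0 : ℝ) 1) with hν
  have hν1 : ν univ = 1 := by
    rw [hν, Measure.restrict_apply_univ, Real.volume_Ioc]
    simp
  have hcs : ∀ z : ℂ, Continuous (fun s : ℝ => z + ((s * t : ℝ) : ℂ) * e) := fun z => by fun_prop
  -- pointwise bound
  have hpt : ∀ z : ℂ, ‖(H (z + t * e) - H z) / t‖ₑ ≤
      ∫⁻ s, ‖gr H (z + ((s * t : ℝ) : ℂ) * e)‖ₑ ∂ν := by
    intro z
    have hder : ∀ s ∈ uIcc (0 : ℝ) 1, HasDerivAt (fun s : ℝ => H (z + ((s * t : ℝ) : ℂ) * e) / t)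
        (fderiv ℝ H (z + ((s * t : ℝ) : ℂ) * e) e) s := by
      intro s _
      have h1 : HasDerivAt (fun s : ℝ => z + ((s * t : ℝ) : ℂ) * e) ((t : ℂ) * e) s := by
        have h2 : HasDerivAt (fun s : ℝ => ((s * t : ℝ) : ℂ)) (t : ℂ) s := by
          have h3 : HasDerivAt (fun s : ℝ => s * t) t s := by
            simpa using (hasDerivAt_id s).mul_const t
          exact h3.ofReal_comp
        exact (h2.mul_const e).const_add z
      have h4 : HasFDerivAt H (fderiv ℝ H (z + ((s * t : ℝ) : ℂ) * e))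
          (z + ((s * t : ℝ) : ℂ) * e) := ((hH.differentiable one_ne_zero) _).hasFDerivAt
      have h5 := (h4.comp_hasDerivAt s h1).div_const t
      refine h5.congr_deriv ?_
      have h6 : (t : ℂ) * e = t • e := by rw [real_smul]
      rw [h6, map_smul, smul_eq_mul]
      field_simp
    have hcont : Continuous (fun s : ℝ => fderiv ℝ H (z + ((s * t : ℝ) : ℂ) * e) e) :=
      ((hH.continuous_fderiv one_ne_zero).comp (hcs z)).clm_apply continuous_const
    have h7 := intervalIntegral.integral_eq_sub_of_hasDerivAt hder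
      (hcont.intervalIntegrable 0 1)
    have h8 : (H (z + t * e) - H z) / t = ∫ s, fderiv ℝ H (z + ((s * t : ℝ) : ℂ) * e) e ∂ν := by
      rw [hν, ← intervalIntegral.integral_of_le (by norm_num : (0 : ℝ) ≤ 1), h7]
      simp only [one_mul, zero_mul, ofReal_zero, add_zero]
      ring
    rw [h8]
    refine (enorm_integral_le_lintegral_enorm _).trans (lintegral_mono fun s => ?_)
    rw [fderiv_eq_gr]
    rw [enorm_le_iff_norm_le, Real.norm_eq_abs]
    refine (abs_re_conj_mul_le _ _).trans ?_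
    rw [he, mul_one]
  have hm2 : Measurable fun w : ℂ × ℝ => ‖gr H (w.1 + ((w.2 * t : ℝ) : ℂ) * e)‖ₑ ^ q := by
    have : Continuous fun w : ℂ × ℝ => gr H (w.1 + ((w.2 * t : ℝ) : ℂ) * e) :=
      hgc.comp (by fun_prop)
    exact this.measurable.enorm.pow_const q
  have key : ∫⁻ z in closedBall c ρ, ‖(H (z + t * e) - H z) / t‖ₑ ^ q ≤
      ∫⁻ z in closedBall c ρ', ‖gr H z‖ₑ ^ q := by
    calc ∫⁻ z in closedBall c ρ, ‖(H (z + t * e) - H z) / t‖ₑ ^ q
        ≤ ∫⁻ z in closedBall c ρ, ∫⁻ s, ‖gr H (z + ((s * t : ℝ) : ℂ) * e)‖ₑ ^ q ∂ν := by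
          refine lintegral_mono fun z => ?_
          refine (ENNReal.rpow_le_rpow (hpt z) hq0.le).trans (lint_rpow_le ν hν1 hq ?_)
          exact ((hgc.comp (hcs z)).measurable.enorm).aemeasurable
      _ = ∫⁻ s, (∫⁻ z in closedBall c ρ, ‖gr H (z + ((s * t : ℝ) : ℂ) * e)‖ₑ ^ q) ∂ν :=
          lintegral_lintegral_swap hm2.aemeasurable
      _ ≤ ∫⁻ _, (∫⁻ z in closedBall c ρ', ‖gr H z‖ₑ ^ q) ∂ν := by
          refine lintegral_mono_ae ?_
          filter_upwards [ae_restrict_mem measurableSet_Ioc] with s hs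
          have hnorm : ‖((s * t : ℝ) : ℂ) * e‖ ≤ t := by
            rw [norm_mul, he, mul_one, Complex.norm_real, Real.norm_eq_abs,
              abs_of_nonneg (mul_nonneg hs.1.le ht.le)]
            nlinarith [hs.2]
          have hmp : MeasurePreserving (fun z : ℂ => z + ((s * t : ℝ) : ℂ) * e)
              (volume.restrict ((fun z => z + ((s * t : ℝ) : ℂ) * e) ⁻¹' closedBall c ρ'))
              (volume.restrict (closedBall c ρ')) :=
            (measurePreserving_add_right volume _).restrict_preimage measurableSet_closedBall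
          have hle : volume.restrict (closedBall c ρ) ≤
              volume.restrict ((fun z => z + ((s * t : ℝ) : ℂ) * e) ⁻¹' closedBall c ρ') :=
            Measure.restrict_mono (mp_shift c _ ρ ρ' (by linarith)) le_rfl
          calc ∫⁻ z in closedBall c ρ, ‖gr H (z + ((s * t : ℝ) : ℂ) * e)‖ₑ ^ q
              ≤ ∫⁻ z in (fun z => z + ((s * t : ℝ) : ℂ) * e) ⁻¹' closedBall c ρ',
                ‖gr H (z + ((s * t : ℝ) : ℂ) * e)‖ₑ ^ q := lintegral_mono' hle le_rfl
            _ = ∫⁻ z in closedBall c ρ', ‖gr H z‖ₑ ^ q :=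
              hmp.lintegral_comp (f := fun z => ‖gr H z‖ₑ ^ q)
                (hgc.measurable.enorm.pow_const q)
      _ = ∫⁻ z in closedBall c ρ', ‖gr H z‖ₑ ^ q := by
          rw [lintegral_const, hν1, mul_one]
  rw [eLpNorm_eq_lintegral_rpow_enorm_toReal hP0 hPt, eLpNorm_eq_lintegral_rpow_enorm_toReal hP0 hPt,
    hPr]
  exact ENNReal.rpow_le_rpow key (by positivity)

theorem int_rpow_le {μ : Measure ℂ} {q M : ℝ} (hq : 1 ≤ q) {f : ℂ → ℝ}
    (hf : MemLp f (ENNReal.ofReal q) μ) (hM : 0 ≤ M)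
    (h : eLpNorm f (ENNReal.ofReal q) μ ≤ ENNReal.ofReal M) : ∫ z, ‖f z‖ ^ q ∂μ ≤ M ^ q := by
  have hq0 : 0 < q := by linarith
  have hP0 : ENNReal.ofReal q ≠ 0 := by
    simp only [ne_eq, ENNReal.ofReal_eq_zero, not_le]
    exact hq0
  have hPt : ENNReal.ofReal q ≠ ⊤ := ENNReal.ofReal_ne_top
  have hPr : (ENNReal.ofReal q).toReal = q := ENNReal.toReal_ofReal hq0.le
  rw [hf.eLpNorm_eq_integral_rpow_norm hP0 hPt, hPr] at h
  have h0 : 0 ≤ ∫ z, ‖f z‖ ^ q ∂μ := integral_nonneg (fun z => by positivity)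
  have h1 : (∫ z, ‖f z‖ ^ q ∂μ) ^ q⁻¹ ≤ M := (ENNReal.ofReal_le_ofReal_iff hM).1 h
  have h2 := Real.rpow_le_rpow (by positivity) h1 hq0.le
  rwa [← Real.rpow_mul h0, inv_mul_cancel₀ hq0.ne', Real.rpow_one] at h2

theorem norm_pw_flux (p : ℝ) (hp : 2 ≤ p) (g : ℂ) : ‖pw (p - 2) g‖ = ‖g‖ ^ (p - 1) := by
  rw [norm_pw]
  rcases eq_or_ne g 0 with rfl | hg
  · rw [norm_zero, mul_zero, Real.zero_rpow (by linarith)]
  · rw [← Real.rpow_add_one (norm_ne_zero_iff.2 hg)]
    congr 1
    ring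

/-- the flux is in the dual space -/
theorem memLp_A {p : ℝ} (hp : 2 ≤ p) {G : ℂ → ℂ} {μ : Measure ℂ}
    (hG : MemLp G (ENNReal.ofReal p) μ) :
    MemLp (fun z => pw (p - 2) (G z)) (ENNReal.ofReal (p / (p - 1))) μ := by
  have hp0 : 0 < p - 1 := by linarith
  have hm : AEStronglyMeasurable (fun z => pw (p - 2) (G z)) μ :=
    (pw_cont (by linarith)).comp_aestronglyMeasurable hG.1
  have h1 := hG.norm_rpow_div (ENNReal.ofReal (p - 1))
  rw [← ENNReal.ofReal_div_of_pos hp0, ENNReal.toReal_ofReal hp0.le] at h1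
  refine (memLp_norm_iff hm).1 ?_
  simpa only [norm_pw_flux p hp] using h1

end Pool.Agent.W796.PH
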