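import Mathlib
import Pool.Agent.W796.PH.DQa

set_option autoImplicit false

/-! Difference quotients for p-harmonic functions. -/

namespace Pool.Agent.W796.PH

open MeasureTheory Metric Set Filter Topology Complex
open scoped ENNReal ContDiff ComplexConjugate

theorem fin_cb (c : ℂ) (ρ : ℝ) : IsFiniteMeasure (volume.restrict (closedBall c ρ)) :=
  ⟨by rw [Measure.restrict_apply_univ]; exact (isCompact_closedBall c ρ).measure_lt_top⟩

theorem one_le_ofReal {q : ℝ} (hq : 1 ≤ q) : (1 : ℝ≥0∞) ≤ ENNReal.ofReal q := by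
  rw [← ENNReal.ofReal_one]
  exact ENNReal.ofReal_le_ofReal hq

/-- integrability of `⟨∇φ, F⟩` -/
theorem int_gr {φ : ℂ → ℝ} (hφ : ContDiff ℝ ∞ φ) {F : ℂ → ℂ} {c : ℂ}
    {ρ : ℝ} (hs : tsupport φ ⊆ closedBall c ρ)
    (hF : Integrable F (volume.restrict (closedBall c ρ))) :
    Integrable (fun z => fderiv ℝ φ z (F z)) := by
  have hφ1 : ContDiff ℝ 1 φ := contDiff_infty.1 hφ 1
  have hg : Continuous (gr φ) := gr_cont hφ1
  rw [← integrableOn_iff_integrable_of_support_subset (s := closedBall c ρ)]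
  · obtain ⟨C, hC⟩ := (isCompact_closedBall c ρ).exists_bound_of_continuousOn hg.continuousOn
    refine Integrable.mono' (g := fun z => C * ‖F z‖) (hF.norm.const_mul C) ?_ ?_
    · simp only [fderiv_eq_gr]
      exact (((continuous_conj.comp hg).aestronglyMeasurable).mul hF.1).re
    · filter_upwards [ae_restrict_mem measurableSet_closedBall] with z hz
      rw [fderiv_eq_gr, Real.norm_eq_abs]
      refine (abs_re_conj_mul_le _ _).trans ?_
      have := hC z hz
      gcongr
  · intro z hz
    by_contra hcon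
    apply hz
    show fderiv ℝ φ z (F z) = 0
    rw [fderiv_eq_gr, gr_eq_zero (fun h => hcon (hs h))]
    simp

/-- the difference of the equations at two translated points -/
theorem test0 {p : ℝ} (hp : 2 ≤ p) {Ω : Set ℂ} {h : ℂ → ℝ} {G : ℂ → ℂ} (hh : PHarm p Ω h G)
    {c v : ℂ} {ρ ρ' : ℝ} (hρ : ρ + ‖v‖ ≤ ρ') (hB : closedBall c ρ' ⊆ Ω) {φ : ℂ → ℝ}
    (hφ : ContDiff ℝ ∞ φ) (hc : HasCompactSupport φ) (hs : tsupport φ ⊆ closedBall c ρ) :
    ∫ z, fderiv ℝ φ z (pw (p - 2) (G (z + v)) - pw (p - 2) (G z)) = 0 := by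
  have hρ' : ρ ≤ ρ' := by
    have := norm_nonneg v
    linarith
  have hGL : MemLp G (ENNReal.ofReal p) (volume.restrict (closedBall c ρ')) :=
    hh.gloc _ (isCompact_closedBall _ _) hB
  have hp0 : 0 < p - 1 := by linarith
  have h1q : 1 ≤ p / (p - 1) := by
    rw [le_div_iff₀ hp0]
    linarith
  have hA : MemLp (fun z => pw (p - 2) (G z)) (ENNReal.ofReal (p / (p - 1)))
      (volume.restrict (closedBall c ρ')) := memLp_A hp hGL
  have hfin := fin_cb c ρ
  have hA1 : Integrable (fun z => pw (p - 2) (G z)) (volume.restrict (closedBall c ρ)) :=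
    (hA.mono_measure (Measure.restrict_mono (closedBall_subset_closedBall hρ') le_rfl)).integrable
      (one_le_ofReal h1q)
  have hA2 : Integrable (fun z => pw (p - 2) (G (z + v))) (volume.restrict (closedBall c ρ)) :=
    (memLp_shift hρ hA).1.integrable (one_le_ofReal h1q)
  have i1 := int_gr hφ hs hA1
  have i2 := int_gr hφ hs hA2
  have e1 : ∫ z, fderiv ℝ φ z (pw (p - 2) (G z)) = 0 :=
    hh.eq φ hφ hc (hs.trans ((closedBall_subset_closedBall hρ').trans hB))
  -- the translated test function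
  have e2 : ∫ z, fderiv ℝ φ z (pw (p - 2) (G (z + v))) = 0 := by
    have hψ : ContDiff ℝ ∞ (fun z => φ (z - v)) := hφ.comp (contDiff_id.sub contDiff_const)
    have hψs : tsupport (fun z => φ (z - v)) ⊆ closedBall c ρ' := by
      refine closure_minimal ?_ isClosed_closedBall
      intro z hz
      have h1 : z - v ∈ closedBall c ρ := hs (subset_tsupport φ hz)
      have h2 := mp_shift c v ρ ρ' hρ h1
      simpa using h2
    have hψc : HasCompactSupport (fun z => φ (z - v)) :=
      (isCompact_closedBall c ρ').of_isClosed_subset (isClosed_tsupport _) hψs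
    have h3 := hh.eq _ hψ hψc (hψs.trans hB)
    have h4 : ∀ z, fderiv ℝ (fun z => φ (z - v)) z = fderiv ℝ φ (z - v) := by
      intro z
      exact fderiv_comp_sub v
    simp only [h4] at h3
    rw [← h3, ← integral_sub_right_eq_self (fun z => fderiv ℝ φ z (pw (p - 2) (G (z + v)))) v]
    simp only [sub_add_cancel]
  have e3 : ∀ z, fderiv ℝ φ z (pw (p - 2) (G (z + v)) - pw (p - 2) (G z)) =
      fderiv ℝ φ z (pw (p - 2) (G (z + v))) - fderiv ℝ φ z (pw (p - 2) (G z)) := by
    intro z
    rw [map_sub]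
  simp only [e3]
  rw [integral_sub i2 i1, e1, e2, sub_zero]

/-- convergence of pairings -/
theorem tendsto_pair {μ : Measure ℂ} {q q' : ℝ} (hqq : q.HolderConjugate q') {f : ℕ → ℂ → ℂ}
    {g F : ℂ → ℂ} (hf : ∀ n, MemLp (f n) (ENNReal.ofReal q) μ) (hg : MemLp g (ENNReal.ofReal q) μ)
    (hF : MemLp F (ENNReal.ofReal q') μ)
    (hlim : Tendsto (fun n => eLpNorm (fun z => f n z - g z) (ENNReal.ofReal q) μ) atTop (𝓝 0)) :
    Tendsto (fun n => ∫ z, (conj (f n z) * F z).re ∂μ) atTop
      (𝓝 (∫ z, (conj (g z) * F z).re ∂μ)) := by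
  have hH : (ENNReal.ofReal q).HolderTriple (ENNReal.ofReal q') 1 := by
    have := hqq.ennrealOfReal
    exact this
  have hmul : ∀ k : ℂ → ℂ, MemLp k (ENNReal.ofReal q) μ →
      Integrable (fun z => (conj (k z) * F z).re) μ := by
    intro k hk
    have h1 : MemLp (fun z => conj (k z)) (ENNReal.ofReal q) μ := hk.star
    exact (MemLp.integrable_mul h1 hF).re
  refine tendsto_integral_of_L1' _ (hmul g hg).1
    (Eventually.of_forall fun n => hmul _ (hf n)) ?_
  have hb : ∀ n, eLpNorm ((fun z => (conj (f n z) * F z).re) - fun z => (conj (g z) * F z).re) 1 μ ≤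
      eLpNorm (fun z => f n z - g z) (ENNReal.ofReal q) μ * eLpNorm F (ENNReal.ofReal q') μ := by
    intro n
    refine le_trans ?_ (eLpNorm_le_eLpNorm_mul_eLpNorm'_of_norm (r := 1)
      (p := ENNReal.ofReal q) (q := ENNReal.ofReal q')
      ((hf n).1.sub hg.1) hF.1 (fun a b => conj a * b) 1 (Eventually.of_forall fun z => ?_) |>.trans ?_)
    · refine eLpNorm_mono fun z => ?_
      have e1 : ((fun z => (conj (f n z) * F z).re) - fun z => (conj (g z) * F z).re) z =
          (conj (f n z - g z) * F z).re := by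
        simp only [Pi.sub_apply, map_sub, sub_mul, sub_re]
      rw [e1]
      exact Complex.abs_re_le_norm _
    · simp only [NNReal.coe_one, one_mul, norm_mul, Complex.norm_conj, le_refl]
    · simp only [ENNReal.coe_one, one_mul]
      exact le_rfl
  have hlim2 := ENNReal.Tendsto.mul_const (b := eLpNorm F (ENNReal.ofReal q') μ) hlim
    (Or.inr hF.2.ne)
  rw [zero_mul] at hlim2
  exact tendsto_of_tendsto_of_tendsto_of_le_of_le tendsto_const_nhds hlim2 (fun n => zero_le) hb

end Pool.Agent.W796.PH
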