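import Mathlib
import Pool.Agent.W796.PH.DQb

set_option autoImplicit false

/-! Difference quotients for p-harmonic functions: the main estimate. -/

namespace Pool.Agent.W796.PH

open MeasureTheory Metric Set Filter Topology Complex
open scoped ENNReal ContDiff ComplexConjugate

theorem dq_alg (α β X Y : ℝ) (hβ : 0 < β) : 2 * α * X * Y ≤ X ^ 2 / β + β * α ^ 2 * Y ^ 2 := by
  have h1 : X ^ 2 / β + β * α ^ 2 * Y ^ 2 - 2 * α * X * Y = (X - β * α * Y) ^ 2 / β := by
    field_simp
    ring
  have h2 : 0 ≤ (X - β * α * Y) ^ 2 / β := by positivity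
  linarith

theorem young_p {p x y : ℝ} (hp : 2 ≤ p) (hx : 0 ≤ x) (hy : 0 ≤ y) :
    y ^ (p - 2) * x ^ 2 ≤ y ^ p + x ^ p := by
  have hsq : ∀ s : ℝ, 0 ≤ s → s ^ (p - 2) * s ^ 2 = s ^ p := by
    intro s hs
    rcases hs.eq_or_lt with rfl | hs0
    · rw [Real.zero_rpow (by linarith : p ≠ 0)]
      simp
    · rw [← Real.rpow_natCast s 2, ← Real.rpow_add hs0]
      congr 1
      push_cast
      ring
  rcases le_total x y with hxy | hxy
  · have h1 : x ^ 2 ≤ y ^ 2 := by gcongr
    have h2 : 0 ≤ y ^ (p - 2) := Real.rpow_nonneg hy _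
    have h3 : 0 ≤ x ^ p := Real.rpow_nonneg hx _
    calc y ^ (p - 2) * x ^ 2 ≤ y ^ (p - 2) * y ^ 2 := by gcongr
      _ = y ^ p := hsq y hy
      _ ≤ y ^ p + x ^ p := by linarith
  · have h1 : y ^ (p - 2) ≤ x ^ (p - 2) := Real.rpow_le_rpow hy hxy (by linarith)
    have h3 : 0 ≤ y ^ p := Real.rpow_nonneg hy _
    calc y ^ (p - 2) * x ^ 2 ≤ x ^ (p - 2) * x ^ 2 := by gcongr
      _ = x ^ p := hsq x hx
      _ ≤ y ^ p + x ^ p := by linarith

/-- pointwise bound for the lower order term -/
theorem dq_pt {p CA Cη t : ℝ} (hp : 2 ≤ p) (hCA : 0 < CA) (ht : 0 < t) {η y Vt D Fn : ℝ}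
    (hη : 0 ≤ η) (hy : 0 ≤ y) (_hVt : 0 ≤ Vt) (hD : 0 ≤ D) (hCη : 0 ≤ Cη)
    (hF : Fn ≤ CA * y ^ ((p - 2) / 2) * Vt) :
    2 * η * (t * D) * (Cη * Fn) ≤ η ^ 2 * Vt ^ 2 / (2 * CA) +
      2 * CA * (Cη * CA) ^ 2 * t ^ 2 * (y ^ p + D ^ p) := by
  have h1 := dq_alg (Cη * CA) (2 * CA) (η * Vt) (y ^ ((p - 2) / 2) * (t * D)) (by positivity)
  have h2 : (y ^ ((p - 2) / 2) * (t * D)) ^ 2 = t ^ 2 * (y ^ (p - 2) * D ^ 2) := by
    have : (y ^ ((p - 2) / 2)) ^ 2 = y ^ (p - 2) := by
      rw [← Real.rpow_natCast, ← Real.rpow_mul hy]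
      congr 1
      push_cast
      ring
    rw [mul_pow, this]
    ring
  rw [h2] at h1
  have h3 := young_p hp hD hy
  calc 2 * η * (t * D) * (Cη * Fn) ≤ 2 * η * (t * D) * (Cη * (CA * y ^ ((p - 2) / 2) * Vt)) := by
        gcongr
    _ = 2 * (Cη * CA) * (η * Vt) * (y ^ ((p - 2) / 2) * (t * D)) := by ring
    _ ≤ (η * Vt) ^ 2 / (2 * CA) + 2 * CA * (Cη * CA) ^ 2 * (t ^ 2 * (y ^ (p - 2) * D ^ 2)) := h1
    _ ≤ (η * Vt) ^ 2 / (2 * CA) + 2 * CA * (Cη * CA) ^ 2 * (t ^ 2 * (y ^ p + D ^ p)) := by gcongr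
    _ = _ := by ring

theorem gr_lim {P : ℝ≥0∞} (hP : 1 ≤ P) {μ : Measure ℂ} {G : ℂ → ℂ} (hG : MemLp G P μ)
    {H : ℕ → ℂ → ℝ} (hH : ∀ n, ContDiff ℝ ∞ (H n))
    (hlim : ∀ v : ℂ, Tendsto (fun n => eLpNorm (fun z => fderiv ℝ (H n) z v -
      (conj (G z) * v).re) P μ) atTop (𝓝 0)) :
    Tendsto (fun n => eLpNorm (fun z => gr (H n) z - G z) P μ) atTop (𝓝 0) := by
  have h1 := hlim 1
  have h2 := hlim I
  have h3 := h1.add h2
  rw [add_zero] at h3
  refine tendsto_of_tendsto_of_tendsto_of_le_of_le tendsto_const_nhds h3 (fun n => zero_le)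
    (fun n => ?_)
  have hm : ∀ v : ℂ, AEStronglyMeasurable (fun z => fderiv ℝ (H n) z v - (conj (G z) * v).re) μ := by
    intro v
    have hc : Continuous (fun z => fderiv ℝ (H n) z v) :=
      ((contDiff_infty.1 (hH n) 1).continuous_fderiv one_ne_zero).clm_apply continuous_const
    refine hc.aestronglyMeasurable.sub ?_
    have h4 : AEStronglyMeasurable (fun z => conj (G z)) μ := hG.star.1
    exact (h4.mul_const v).re
  have e1 : (fun z => gr (H n) z - G z) =
      (fun z => (((fderiv ℝ (H n) z 1 - (conj (G z) * 1).re : ℝ)) : ℂ)) +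
      (fun z => (((fderiv ℝ (H n) z I - (conj (G z) * I).re : ℝ)) : ℂ) * I) := by
    funext z
    simp only [Pi.add_apply, gr]
    apply Complex.ext <;> simp
  rw [e1]
  refine (eLpNorm_add_le (continuous_ofReal.comp_aestronglyMeasurable (hm 1))
    ((continuous_ofReal.comp_aestronglyMeasurable (hm I)).mul_const I) hP).trans ?_
  refine add_le_add ?_ ?_
  · refine eLpNorm_mono fun z => ?_
    rw [Complex.norm_real]
  · refine eLpNorm_mono fun z => ?_
    rw [norm_mul, Complex.norm_real, Complex.norm_I, mul_one]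

theorem dq_main (hA : S_Alg) : S_DQ := by
  intro p hp Ω h G hΩ hh c r hr hB
  obtain ⟨CA, hCA, hAlg⟩ := hA p hp
  have hp1 : 1 ≤ p := by linarith
  have hpm : 0 < p - 1 := by linarith
  obtain ⟨δ, hδ, hδB⟩ := (isCompact_closedBall c r).exists_cthickening_subset_open hΩ hB
  rw [cthickening_closedBall hδ.le hr.le] at hδB
  set t₀ : ℝ := δ / 4 with ht₀
  have ht₀0 : 0 < t₀ := by positivity
  have hB4 : closedBall c (r + 4 * t₀) ⊆ Ω := by
    refine subset_trans (closedBall_subset_closedBall ?_) hδB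
    rw [ht₀]
    linarith
  set P : ℝ≥0∞ := ENNReal.ofReal p with hP
  have hP1 : 1 ≤ P := one_le_ofReal hp1
  set μ3 : Measure ℂ := volume.restrict (closedBall c (r + 3 * t₀)) with hμ3
  set μ1 : Measure ℂ := volume.restrict (closedBall c (r + t₀)) with hμ1
  have hfin1 : IsFiniteMeasure μ1 := fin_cb c _
  have hG4 : MemLp G P (volume.restrict (closedBall c (r + 4 * t₀))) :=
    hh.gloc _ (isCompact_closedBall _ _) hB4
  have hG3 : MemLp G P μ3 :=
    hG4.mono_measure (Measure.restrict_mono (closedBall_subset_closedBall (by linarith)) le_rfl)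
  have hG1 : MemLp G P μ1 :=
    hG4.mono_measure (Measure.restrict_mono (closedBall_subset_closedBall (by linarith)) le_rfl)
  -- the cutoff
  let b : ContDiffBump c := ⟨r, r + t₀, hr, by linarith⟩
  set η : ℂ → ℝ := fun z => b z with hη
  have hηs : ContDiff ℝ ∞ η := b.contDiff
  have hηs1 : ContDiff ℝ 1 η := contDiff_infty.1 hηs 1
  have hη0 : ∀ z, 0 ≤ η z := fun z => b.nonneg
  have hη1 : ∀ z, η z ≤ 1 := fun z => b.le_one
  have hηeq : ∀ z ∈ closedBall c r, η z = 1 := fun z hz => b.one_of_mem_closedBall hz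
  have hηt : tsupport η = closedBall c (r + t₀) := b.tsupport_eq
  have hηsup : ∀ z, z ∉ closedBall c (r + t₀) → η z = 0 := by
    intro z hz
    rw [← hηt] at hz
    exact image_eq_zero_of_notMem_tsupport hz
  obtain ⟨Cη, hCη⟩ := (isCompact_closedBall c (r + t₀)).exists_bound_of_continuousOn
    (gr_cont hηs1).continuousOn
  have hCη0 : 0 ≤ Cη := (norm_nonneg _).trans (hCη c (mem_closedBall_self (by positivity)))
  -- approximation
  obtain ⟨H, hHs, hHlim⟩ := approxP hp1 (R := r + 3 * t₀) (R' := r + 4 * t₀) (c := c) (h := h)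
    (G := G) (by linarith) (by positivity) (hh.hloc _ (isCompact_closedBall _ _) hB4) hG4
    (fun φ hφ hc hs v => hh.weak φ hφ hc (hs.trans (ball_subset_closedBall.trans hB4)) v)
  have hHs1 : ∀ n, ContDiff ℝ 1 (H n) := fun n => contDiff_infty.1 (hHs n) 1
  have hgr := gr_lim hP1 hG3 hHs hHlim
  set MG : ℝ := (eLpNorm G P μ3).toReal + 1 with hMG
  have hMG0 : 0 < MG := by positivity
  have hMGle : eLpNorm G P μ3 ≤ ENNReal.ofReal MG := by
    rw [hMG, ENNReal.ofReal_add (by positivity) (by norm_num), ENNReal.ofReal_toReal hG3.2.ne]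
    exact le_self_add
  set S : ℝ := (2 * MG) ^ p + MG ^ p with hS
  have hS0 : 0 ≤ S := by positivity
  set K1 : ℝ := 2 * CA * (Cη * CA) ^ 2 with hK1
  refine ⟨2 * CA * K1 * S, t₀, ht₀0, ?_⟩
  intro e he t ht htt
  refine ⟨(closedBall_subset_closedBall (by linarith)).trans hB4, ?_⟩
  set v : ℂ := (t : ℂ) * e with hv
  have hvn : ‖v‖ = t := by
    rw [hv, norm_mul, he, mul_one, Complex.norm_real, Real.norm_eq_abs, abs_of_pos ht]
  -- the functions
  set A1 : ℂ → ℂ := fun z => pw (p - 2) (G z) with hA1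
  set Vf : ℂ → ℂ := fun z => pw ((p - 2) / 2) (G z) with hVf
  set F : ℂ → ℂ := fun z => A1 (z + v) - A1 z with hF
  set Vt : ℂ → ℂ := fun z => Vf (z + v) - Vf z with hVt
  set P' : ℝ≥0∞ := ENNReal.ofReal (p / (p - 1)) with hP'
  have hρ13 : r + t₀ + ‖v‖ ≤ r + 3 * t₀ := by rw [hvn]; linarith
  have hA3 : MemLp A1 P' μ3 := memLp_A hp hG3
  have hA1m : MemLp A1 P' μ1 := memLp_A hp hG1
  have hAt : MemLp (fun z => A1 (z + v)) P' μ1 := (memLp_shift hρ13 hA3).1
  have hFm : MemLp F P' μ1 := hAt.sub hA1m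
  have hGt : MemLp (fun z => G (z + v)) P μ1 := (memLp_shift hρ13 hG3).1
  have hVtm : MemLp Vt 2 μ1 :=
    (memLp_shift hρ13 (memLp_V hp hG3)).1.sub (memLp_V hp hG1)
  have hconj : p.HolderConjugate (p / (p - 1)) := Real.HolderConjugate.conjExponent (by linarith)
  have h1q : 1 ≤ p / (p - 1) := by
    rw [le_div_iff₀ hpm]
    linarith
  have hFi : Integrable F μ1 := hFm.integrable (one_le_ofReal h1q)
  -- weighted flux
  set E : ℂ → ℂ := fun z => (((η z) ^ 2 : ℝ) : ℂ) * F z with hE
  have hηc : Continuous η := hηs.continuous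
  have hEm : MemLp E P' μ1 := by
    refine MemLp.of_le hFm ((continuous_ofReal.comp (hηc.pow 2)).aestronglyMeasurable.mul hFm.1) ?_
    refine Eventually.of_forall fun z => ?_
    rw [hE]
    simp only
    rw [norm_mul, Complex.norm_real, Real.norm_eq_abs, abs_of_nonneg (sq_nonneg _)]
    have : (η z) ^ 2 ≤ 1 := pow_le_one₀ (hη0 z) (hη1 z)
    nlinarith [norm_nonneg (F z)]
  -- gradients of the approximations
  set f : ℕ → ℂ → ℂ := fun n z => gr (H n) (z + v) - gr (H n) z with hf
  set g : ℂ → ℂ := fun z => G (z + v) - G z with hg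
  have hgrc : ∀ n, Continuous (gr (H n)) := fun n => gr_cont (hHs1 n)
  have hcm : ∀ (k : ℂ → ℂ) (ρ : ℝ), Continuous k → MemLp k P (volume.restrict (closedBall c ρ)) := by
    intro k ρ hk
    have := fin_cb c ρ
    obtain ⟨C, hC⟩ := (isCompact_closedBall c ρ).exists_bound_of_continuousOn hk.continuousOn
    exact MemLp.of_bound hk.aestronglyMeasurable C
      ((ae_restrict_iff' measurableSet_closedBall).2 (Eventually.of_forall hC))
  have hgr1 : Tendsto (fun n => eLpNorm (fun z => gr (H n) z - G z) P μ1) atTop (𝓝 0) := by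
    refine tendsto_of_tendsto_of_tendsto_of_le_of_le tendsto_const_nhds hgr (fun n => zero_le)
      (fun n => eLpNorm_mono_measure _ (Measure.restrict_mono
        (closedBall_subset_closedBall (by linarith)) le_rfl))
  have hgr2 : Tendsto (fun n => eLpNorm (fun z => gr (H n) (z + v) - G (z + v)) P μ1) atTop
      (𝓝 0) := by
    refine tendsto_of_tendsto_of_tendsto_of_le_of_le tendsto_const_nhds hgr (fun n => zero_le)
      (fun n => ?_)
    exact (memLp_shift (f := fun z => gr (H n) z - G z) hρ13 ((hcm _ _ (hgrc n)).sub hG3)).2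
  have hflim : Tendsto (fun n => eLpNorm (fun z => f n z - g z) P μ1) atTop (𝓝 0) := by
    have h3 := hgr2.add hgr1
    rw [add_zero] at h3
    refine tendsto_of_tendsto_of_tendsto_of_le_of_le tendsto_const_nhds h3 (fun n => zero_le)
      (fun n => ?_)
    have e1 : (fun z => f n z - g z) = (fun z => gr (H n) (z + v) - G (z + v)) -
        (fun z => gr (H n) z - G z) := by
      funext z
      simp only [Pi.sub_apply, hf, hg]
      ring
    rw [e1]
    refine eLpNorm_sub_le ?_ ?_ hP1
    · exact ((hgrc n).comp (continuous_id.add continuous_const)).aestronglyMeasurable.sub hGt.1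
    · exact (hgrc n).aestronglyMeasurable.sub hG1.1
  have hfm : ∀ n, MemLp (f n) P μ1 := fun n =>
    hcm _ _ (((hgrc n).comp (continuous_id.add continuous_const)).sub (hgrc n))
  have hgm : MemLp g P μ1 := hGt.sub hG1
  have hpair := tendsto_pair hconj hfm hgm hEm hflim
  -- the Young function
  set y : ℂ → ℝ := fun z => ‖G (z + v)‖ + ‖G z‖ with hy
  have hym : MemLp y P μ1 := hGt.norm.add hG1.norm
  have hyle : eLpNorm y P μ1 ≤ ENNReal.ofReal (2 * MG) := by
    have e1 : eLpNorm (fun z => ‖G (z + v)‖) P μ1 ≤ ENNReal.ofReal MG := by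
      rw [eLpNorm_norm (fun z => G (z + v))]
      exact (memLp_shift hρ13 hG3).2.trans hMGle
    have e2 : eLpNorm (fun z => ‖G z‖) P μ1 ≤ ENNReal.ofReal MG := by
      rw [eLpNorm_norm G]
      refine (eLpNorm_mono_measure _ (Measure.restrict_mono
        (closedBall_subset_closedBall (by linarith)) le_rfl)).trans hMGle
    calc eLpNorm y P μ1 ≤ eLpNorm (fun z => ‖G (z + v)‖) P μ1 + eLpNorm (fun z => ‖G z‖) P μ1 :=
          eLpNorm_add_le hGt.norm.1 hG1.norm.1 hP1
      _ ≤ ENNReal.ofReal MG + ENNReal.ofReal MG := add_le_add e1 e2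
      _ = ENNReal.ofReal (2 * MG) := by
        rw [← ENNReal.ofReal_add hMG0.le hMG0.le]
        congr 1
        ring
  have hyint : ∫ z, y z ^ p ∂μ1 ≤ (2 * MG) ^ p := by
    have := int_rpow_le hp1 hym (by positivity) hyle
    refine le_trans (le_of_eq ?_) this
    refine integral_congr_ae (Eventually.of_forall fun z => ?_)
    show y z ^ p = ‖y z‖ ^ p
    rw [Real.norm_of_nonneg (by rw [hy]; positivity)]
  have hyi : Integrable (fun z => y z ^ p) μ1 := by
    have h1 := hym.integrable_norm_rpow (by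
      simp only [hP, ne_eq, ENNReal.ofReal_eq_zero, not_le]
      linarith) ENNReal.ofReal_ne_top
    rw [hP, ENNReal.toReal_ofReal (by linarith)] at h1
    refine h1.congr (Eventually.of_forall fun z => ?_)
    show ‖y z‖ ^ p = y z ^ p
    rw [Real.norm_of_nonneg (by rw [hy]; positivity)]
  -- the energy
  set X : ℝ := ∫ z, (η z) ^ 2 * ‖Vt z‖ ^ 2 ∂μ1 with hX
  have hXi : Integrable (fun z => (η z) ^ 2 * ‖Vt z‖ ^ 2) μ1 := by
    refine Integrable.mono' hVtm.norm.integrable_sq
      ((hηc.pow 2).aestronglyMeasurable.mul (hVtm.1.norm.pow 2)) (Eventually.of_forall fun z => ?_)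
    rw [Real.norm_of_nonneg (by positivity)]
    have : (η z) ^ 2 ≤ 1 := pow_le_one₀ (hη0 z) (hη1 z)
    nlinarith [sq_nonneg ‖Vt z‖]
  -- the testing identity and the bound for the right side
  have hbound : ∀ᶠ n in atTop, ∫ z, (conj (f n z) * E z).re ∂μ1 ≤
      X / (2 * CA) + K1 * t ^ 2 * S := by
    have hev : ∀ᶠ n in atTop, eLpNorm (fun z => gr (H n) z - G z) P μ3 < 1 :=
      hgr.eventually (gt_mem_nhds one_pos)
    filter_upwards [hev] with n hn
    set D : ℂ → ℝ := fun z => (H n (z + v) - H n z) / t with hD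
    have hHc : Continuous (H n) := (hHs n).continuous
    have hDc : Continuous D := by
      rw [hD]
      fun_prop
    have hDm : MemLp D P μ1 := by
      obtain ⟨C, hC⟩ := (isCompact_closedBall c (r + t₀)).exists_bound_of_continuousOn
        hDc.continuousOn
      exact MemLp.of_bound hDc.aestronglyMeasurable C
        ((ae_restrict_iff' measurableSet_closedBall).2 (Eventually.of_forall hC))
    have hDle : eLpNorm D P μ1 ≤ ENNReal.ofReal MG := by
      have h1 := shift_Lp hp1 (hHs1 n) (c := c) (ρ := r + t₀) (ρ' := r + 3 * t₀) he ht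
        (by linarith)
      refine h1.trans ?_
      have e1 : gr (H n) = (fun z => gr (H n) z - G z) + G := by
        funext z
        simp
      rw [e1]
      refine (eLpNorm_add_le ((hgrc n).aestronglyMeasurable.sub hG3.1) hG3.1 hP1).trans ?_
      rw [hMG, add_comm (eLpNorm G P μ3).toReal, ENNReal.ofReal_add (by norm_num) (by positivity),
        ENNReal.ofReal_toReal hG3.2.ne, ENNReal.ofReal_one]
      exact add_le_add hn.le le_rfl
    have hDint : ∫ z, ‖D z‖ ^ p ∂μ1 ≤ MG ^ p := int_rpow_le hp1 hDm hMG0.le hDle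
    have hDi : Integrable (fun z => ‖D z‖ ^ p) μ1 := by
      have h1 := hDm.integrable_norm_rpow (by
        simp only [hP, ne_eq, ENNReal.ofReal_eq_zero, not_le]
        linarith) ENNReal.ofReal_ne_top
      rwa [hP, ENNReal.toReal_ofReal (by linarith)] at h1
    -- test function
    set φ : ℂ → ℝ := fun z => (η z) ^ 2 * (H n (z + v) - H n z) with hφ
    have hφs : ContDiff ℝ ∞ φ :=
      (hηs.pow 2).mul (((hHs n).comp (contDiff_id.add contDiff_const)).sub (hHs n))
    have hφt : tsupport φ ⊆ closedBall c (r + t₀) := by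
      refine closure_minimal ?_ isClosed_closedBall
      intro z hz
      by_contra hcon
      apply hz
      rw [hφ]
      simp only
      rw [hηsup z hcon]
      simp
    have hφc : HasCompactSupport φ :=
      (isCompact_closedBall c (r + t₀)).of_isClosed_subset (isClosed_tsupport _) hφt
    have htest := test0 hp hh (v := v) (ρ := r + t₀) (ρ' := r + 3 * t₀) (c := c) hρ13
      ((closedBall_subset_closedBall (by linarith)).trans hB4) hφs hφc hφt
    -- derivative of the test function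
    set T1 : ℂ → ℝ := fun z => 2 * η z * (t * D z) * (conj (gr η z) * F z).re with hT1
    set T2 : ℂ → ℝ := fun z => (conj (f n z) * E z).re with hT2
    have hder : ∀ z, fderiv ℝ φ z (F z) = T1 z + T2 z := by
      intro z
      have d1 : HasFDerivAt η (fderiv ℝ η z) z := (hηs1.differentiable one_ne_zero z).hasFDerivAt
      have d2 : HasFDerivAt (fun z => H n (z + v)) (fderiv ℝ (H n) (z + v)) z := by
        have h1 := ((hHs1 n).differentiable one_ne_zero (z + v)).hasFDerivAt
        have h2 := h1.comp z ((hasFDerivAt_id z).add_const v)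
        rw [ContinuousLinearMap.comp_id] at h2
        exact h2
      have d3 : HasFDerivAt (H n) (fderiv ℝ (H n) z) z :=
        ((hHs1 n).differentiable one_ne_zero z).hasFDerivAt
      have d4 := (d1.pow 2).mul (d2.sub d3)
      have d5 : HasFDerivAt φ _ z := d4
      rw [d5.fderiv]
      simp only [add_apply, smul_apply,
        sub_apply, smul_eq_mul]
      rw [fderiv_eq_gr η z (F z), fderiv_eq_gr (H n) (z + v) (F z), fderiv_eq_gr (H n) z (F z)]
      have e1 : T2 z = (η z) ^ 2 * ((conj (gr (H n) (z + v)) * F z).re -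
          (conj (gr (H n) z) * F z).re) := by
        simp only [hT2, hf, hE]
        have : conj (gr (H n) (z + v) - gr (H n) z) * ((((η z) ^ 2 : ℝ) : ℂ) * F z) =
            (((η z) ^ 2 : ℝ) : ℂ) * (conj (gr (H n) (z + v)) * F z - conj (gr (H n) z) * F z) := by
          rw [map_sub]
          ring
        rw [this, re_ofReal_mul, sub_re]
      have e2 : t * D z = H n (z + v) - H n z := by
        simp only [hD]
        field_simp
      rw [e1, hT1]
      simp only
      rw [e2]
      simp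
      ring
    -- integrability
    have hT2i : Integrable T2 μ1 := by
      have hH : P.HolderTriple P' 1 := hconj.ennrealOfReal
      have h1 : MemLp (fun z => conj (f n z)) P μ1 := (hfm n).star
      exact (MemLp.integrable_mul h1 hEm).re
    have hT1b : ∀ z ∈ closedBall c (r + t₀), |T1 z| ≤
        (η z) ^ 2 * ‖Vt z‖ ^ 2 / (2 * CA) + K1 * t ^ 2 * (y z ^ p + ‖D z‖ ^ p) := by
      intro z hz
      have h1 : |T1 z| ≤ 2 * η z * (t * ‖D z‖) * (Cη * ‖F z‖) := by
        simp only [hT1]
        rw [abs_mul, abs_mul, abs_mul, abs_mul, abs_of_pos ht, abs_of_nonneg (hη0 z),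
          ← Real.norm_eq_abs (D z)]
        have h2 : |(conj (gr η z) * F z).re| ≤ Cη * ‖F z‖ :=
          (abs_re_conj_mul_le _ _).trans (by
            have := hCη z hz
            gcongr)
        have h3 : 0 ≤ 2 * η z * (t * ‖D z‖) := by
          have := hη0 z
          positivity
        rw [abs_of_pos (by norm_num : (0 : ℝ) < 2)]
        exact mul_le_mul_of_nonneg_left h2 h3
      refine h1.trans ?_
      exact dq_pt hp hCA ht (hη0 z) (by rw [hy]; positivity) (norm_nonneg _) (norm_nonneg _) hCη0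
        (hAlg (G (z + v)) (G z)).2.1
    have hbi : Integrable (fun z => (η z) ^ 2 * ‖Vt z‖ ^ 2 / (2 * CA) +
        K1 * t ^ 2 * (y z ^ p + ‖D z‖ ^ p)) μ1 :=
      (hXi.div_const _).add ((hyi.add hDi).const_mul _)
    have hsumi : Integrable (fun z => K1 * t ^ 2 * (y z ^ p + ‖D z‖ ^ p)) μ1 :=
      (hyi.add hDi).const_mul _
    have hT1m : AEStronglyMeasurable T1 μ1 := by
      have h1 : Continuous (fun z => 2 * η z * (t * D z)) := by fun_prop
      exact h1.aestronglyMeasurable.mul
        (((continuous_conj.comp (gr_cont hηs1)).aestronglyMeasurable.mul hFm.1).re)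
    have hT1i : Integrable T1 μ1 := by
      refine Integrable.mono' hbi hT1m ?_
      filter_upwards [ae_restrict_mem measurableSet_closedBall] with z hz
      exact hT1b z hz
    -- the identity
    have hid : ∫ z, T2 z ∂μ1 = - ∫ z, T1 z ∂μ1 := by
      have h1 : ∫ z, fderiv ℝ φ z (F z) ∂μ1 = 0 := by
        rw [hμ1, setIntegral_eq_integral_of_forall_compl_eq_zero]
        · exact htest
        · intro z hz
          rw [fderiv_eq_gr, gr_eq_zero (fun h => hz (hφt h))]
          simp
      simp only [hder] at h1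
      rw [integral_add hT1i hT2i] at h1
      linarith
    have hfinal : - ∫ z, T1 z ∂μ1 ≤ X / (2 * CA) + K1 * t ^ 2 * S := by
      calc - ∫ z, T1 z ∂μ1 = ∫ z, - T1 z ∂μ1 := (integral_neg _).symm
        _ ≤ ∫ z, ((η z) ^ 2 * ‖Vt z‖ ^ 2 / (2 * CA) + K1 * t ^ 2 * (y z ^ p + ‖D z‖ ^ p)) ∂μ1 := by
          refine integral_mono_ae hT1i.neg hbi ?_
          filter_upwards [ae_restrict_mem measurableSet_closedBall] with z hz
          exact (neg_le_abs _).trans (hT1b z hz)
        _ = X / (2 * CA) + K1 * t ^ 2 * ((∫ z, y z ^ p ∂μ1) + ∫ z, ‖D z‖ ^ p ∂μ1) := by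
          rw [integral_add (hXi.div_const _) hsumi, integral_div, integral_const_mul,
            integral_add hyi hDi]
        _ ≤ X / (2 * CA) + K1 * t ^ 2 * S := by
          have : 0 ≤ K1 * t ^ 2 := by positivity
          have h5 : (∫ z, y z ^ p ∂μ1) + ∫ z, ‖D z‖ ^ p ∂μ1 ≤ S := by
            rw [hS]
            exact add_le_add hyint hDint
          gcongr
    calc ∫ z, (conj (f n z) * E z).re ∂μ1 = ∫ z, T2 z ∂μ1 := rfl
      _ = - ∫ z, T1 z ∂μ1 := hid
      _ ≤ _ := hfinal
  have hL := le_of_tendsto hpair hbound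
  -- coercivity
  have hcoer : X ≤ CA * ∫ z, (conj (g z) * E z).re ∂μ1 := by
    rw [hX, ← integral_const_mul]
    have hH : P.HolderTriple P' 1 := hconj.ennrealOfReal
    have h1 : MemLp (fun z => conj (g z)) P μ1 := hgm.star
    have h2 : Integrable (fun z => (conj (g z) * E z).re) μ1 := (MemLp.integrable_mul h1 hEm).re
    refine integral_mono hXi (h2.const_mul _) (fun z => ?_)
    have h3 := (hAlg (G (z + v)) (G z)).1
    have e1 : (conj (g z) * E z).re = (η z) ^ 2 *
        (conj (pw (p - 2) (G (z + v)) - pw (p - 2) (G z)) * (G (z + v) - G z)).re := by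
      simp only [hg, hE, hF, hA1]
      have e2 : conj (G (z + v) - G z) * ((((η z) ^ 2 : ℝ) : ℂ) *
          (pw (p - 2) (G (z + v)) - pw (p - 2) (G z))) = (((η z) ^ 2 : ℝ) : ℂ) *
          conj (conj (pw (p - 2) (G (z + v)) - pw (p - 2) (G z)) * (G (z + v) - G z)) := by
        rw [map_mul, Complex.conj_conj]
        ring
      rw [e2, re_ofReal_mul, conj_re]
    show (η z) ^ 2 * ‖Vt z‖ ^ 2 ≤ CA * (conj (g z) * E z).re
    rw [e1]
    have h4 : 0 ≤ (η z) ^ 2 := sq_nonneg _
    calc (η z) ^ 2 * ‖Vt z‖ ^ 2 ≤ (η z) ^ 2 * (CA *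
          (conj (pw (p - 2) (G (z + v)) - pw (p - 2) (G z)) * (G (z + v) - G z)).re) :=
          mul_le_mul_of_nonneg_left h3 h4
      _ = _ := by ring
  have hXle : X ≤ 2 * CA * K1 * S * t ^ 2 := by
    have h1 : X ≤ CA * (X / (2 * CA) + K1 * t ^ 2 * S) :=
      hcoer.trans (mul_le_mul_of_nonneg_left hL hCA.le)
    have h2 : CA * (X / (2 * CA) + K1 * t ^ 2 * S) = X / 2 + CA * K1 * t ^ 2 * S := by
      field_simp
    rw [h2] at h1
    linarith
  refine le_trans ?_ hXle
  -- restriction to the smaller ball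
  have hsub : ball c r ⊆ closedBall c (r + t₀) :=
    ball_subset_closedBall.trans (closedBall_subset_closedBall (by linarith))
  have e1 : ∫ z in ball c r, ‖pw ((p - 2) / 2) (G (z + t * e)) - pw ((p - 2) / 2) (G z)‖ ^ 2 =
      ∫ z in ball c r, (η z) ^ 2 * ‖Vt z‖ ^ 2 := by
    refine setIntegral_congr_fun measurableSet_ball (fun z hz => ?_)
    show _ = (η z) ^ 2 * ‖Vt z‖ ^ 2
    rw [hηeq z (ball_subset_closedBall hz), one_pow, one_mul]
  rw [e1]
  exact setIntegral_mono_set hXi (Eventually.of_forall fun z => by positivity) hsub.eventuallyLE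

end Pool.Agent.W796.PH
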