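import Mathlib
import Pool.Agent.W796.PH.Defs2
import Pool.Agent.Helper366.IV.GoodPt
import Pool.Agent.W796.PH.CaccL

set_option autoImplicit false

/-! Local boundedness by the `L¹` norm. -/

namespace Pool.Agent.W796.PH

open MeasureTheory Metric Set Filter Topology Complex
open scoped ENNReal ContDiff ComplexConjugate
open Pool.Agent.Helper366.IV
open Pool.Agent.W796.PH.CaccL

/-- real-variable step: `8 sqrt(x y) ≤ x / 2 + 32 y` -/
theorem amgm8 {x y : ℝ} (hx : 0 ≤ x) (hy : 0 ≤ y) : 8 * Real.sqrt (x * y) ≤ x / 2 + 32 * y := by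
  rw [Real.sqrt_mul hx]
  have h1 := Real.sq_sqrt hx
  have h2 := Real.sq_sqrt hy
  nlinarith [sq_nonneg (Real.sqrt x - 8 * Real.sqrt y), Real.sqrt_nonneg x, Real.sqrt_nonneg y]

theorem vol_cb (z : ℂ) (s : ℝ) (hs : 0 < s) : volume.real (closedBall z s) = Real.pi * s ^ 2 := by
  have := vol_ball z (s / 2) (by positivity)
  rw [show 2 * (s / 2) = s by ring] at this
  rw [Measure.real, this]
  ring

/-- one step: from a bound `B` on the larger ball to a bound on the smaller ball -/
theorem mean_step {κ C : ℝ} (hκ : 0 < κ) (hC0 : 0 < C) (hC : ∀ (U : Set ℂ) (q qx qy : ℂ → ℂ),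
    IsOpen U → W U q qx qy → QR κ U qx qy → ∀ (z₀ : ℂ) (r : ℝ) (a : ℂ), 0 < r →
    closedBall z₀ (2 * r) ⊆ U → ∫ z in closedBall z₀ r, (‖qx z‖ ^ 2 + ‖qy z‖ ^ 2) ≤
      C / r ^ 2 * ∫ z in closedBall z₀ (2 * r), ‖q z - a‖ ^ 2)
    {U : Set ℂ} {q qx qy : ℂ → ℂ} (hU : IsOpen U) (hW : W U q qx qy) (hQ : QR κ U qx qy)
    {z₀ a : ℂ} {R : ℝ} (hB : closedBall z₀ R ⊆ U) {t s B : ℝ} (hs : 0 < s) (ht : 0 ≤ t)
    (hts : t + 4 * s ≤ R)
    (hBd : ∀ z ∈ closedBall z₀ (t + 4 * s), ‖q z - a‖ ≤ B) :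
    ∀ z ∈ closedBall z₀ t, ‖q z - a‖ ≤ B / 2 + (8 * C + 1) / s ^ 2 *
      ∫ w in closedBall z₀ R, ‖q w - a‖ := by
  intro z hz
  set L := ∫ w in closedBall z₀ R, ‖q w - a‖ with hL
  have hL0 : 0 ≤ L := integral_nonneg (fun w => norm_nonneg _)
  have hB0 : 0 ≤ B := (norm_nonneg _).trans (hBd z₀ (mem_closedBall_self (by linarith)))
  have hzt : dist z z₀ ≤ t := hz
  have hsub : closedBall z (4 * s) ⊆ closedBall z₀ (t + 4 * s) :=
    closedBall_subset_closedBall' (by linarith)
  have hsubR : closedBall z (4 * s) ⊆ closedBall z₀ R :=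
    hsub.trans (closedBall_subset_closedBall hts)
  have hcont : ContinuousOn (fun w => ‖q w - a‖) (closedBall z₀ R) :=
    ((hW.cont.mono hB).sub continuousOn_const).norm
  have hint : IntegrableOn (fun w => ‖q w - a‖) (closedBall z₀ R) :=
    hcont.integrableOn_compact (isCompact_closedBall _ _)
  -- Dirichlet integral
  have h1 : ∫ w in closedBall z (2 * s), (‖qx w‖ ^ 2 + ‖qy w‖ ^ 2) ≤ B * (C * L / (4 * s ^ 2)) := by
    have h2 := hC U q qx qy hU hW hQ z (2 * s) a (by positivity)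
      (by rw [show 2 * (2 * s) = 4 * s by ring]; exact hsubR.trans hB)
    rw [show 2 * (2 * s) = 4 * s by ring] at h2
    have h3 : ∫ w in closedBall z (4 * s), ‖q w - a‖ ^ 2 ≤ B * L := by
      have h4 : ∫ w in closedBall z (4 * s), ‖q w - a‖ ^ 2 ≤
          ∫ w in closedBall z (4 * s), B * ‖q w - a‖ := by
        refine setIntegral_mono_on ?_ ((hint.mono_set hsubR).const_mul B)
          measurableSet_closedBall ?_
        · exact ((hcont.mono hsubR).pow 2).integrableOn_compact (isCompact_closedBall _ _)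
        · intro w hw
          have := hBd w (hsub hw)
          nlinarith [norm_nonneg (q w - a)]
      refine h4.trans ?_
      rw [integral_const_mul]
      refine mul_le_mul_of_nonneg_left ?_ hB0
      exact setIntegral_mono_set hint (Eventually.of_forall (fun w => norm_nonneg _))
        hsubR.eventuallyLE
    calc _ ≤ C / (2 * s) ^ 2 * ∫ w in closedBall z (4 * s), ‖q w - a‖ ^ 2 := h2
      _ ≤ C / (2 * s) ^ 2 * (B * L) := by gcongr
      _ = B * (C * L / (4 * s ^ 2)) := by ring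
  -- oscillation
  have h5 : ∀ z' ∈ closedBall z s, ‖q z - a‖ ≤ B / 2 + 8 * C * L / s ^ 2 + ‖q z' - a‖ := by
    intro z' hz'
    have h6 := W.oscN hκ hU hW hQ z s hs
      (((closedBall_subset_closedBall (by linarith)).trans hsubR).trans hB) z
      (mem_closedBall_self hs.le) z' hz'
    have h7 : 8 * Real.sqrt (∫ w in closedBall z (2 * s), (‖qx w‖ ^ 2 + ‖qy w‖ ^ 2)) ≤
        B / 2 + 32 * (C * L / (4 * s ^ 2)) := by
      refine le_trans ?_ (amgm8 hB0 (by positivity))
      gcongr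
    have h8 : 32 * (C * L / (4 * s ^ 2)) = 8 * C * L / s ^ 2 := by field_simp; ring
    have e : q z - a = (q z - q z') + (q z' - a) := by ring
    rw [e]
    refine (norm_add_le _ _).trans ?_
    linarith
  -- average over the small ball
  have hfin : volume (closedBall z s) < ⊤ := (isCompact_closedBall z s).measure_lt_top
  have hsubs : closedBall z s ⊆ closedBall z₀ R :=
    (closedBall_subset_closedBall (by linarith)).trans hsubR
  have h9 : ∫ _ in closedBall z s, (‖q z - a‖ - (B / 2 + 8 * C * L / s ^ 2)) ≤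
      ∫ w in closedBall z s, ‖q w - a‖ := by
    refine setIntegral_mono_on (integrableOn_const hfin.ne) (hint.mono_set hsubs)
      measurableSet_closedBall ?_
    intro w hw
    have := h5 w hw
    linarith
  have h10 : ∫ w in closedBall z s, ‖q w - a‖ ≤ L :=
    setIntegral_mono_set hint (Eventually.of_forall (fun w => norm_nonneg _)) hsubs.eventuallyLE
  rw [setIntegral_const, vol_cb z s hs, smul_eq_mul] at h9
  have h11 : Real.pi * s ^ 2 * (‖q z - a‖ - (B / 2 + 8 * C * L / s ^ 2)) ≤ L := h9.trans h10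
  have hpi : 1 ≤ Real.pi := by linarith [Real.pi_gt_three]
  have h12 : ‖q z - a‖ - (B / 2 + 8 * C * L / s ^ 2) ≤ L / s ^ 2 := by
    rw [le_div_iff₀ (by positivity)]
    by_contra hcon
    have hcon : L < (‖q z - a‖ - (B / 2 + 8 * C * L / s ^ 2)) * s ^ 2 := not_le.1 hcon
    nlinarith
  have h13 : (8 * C + 1) / s ^ 2 * L = 8 * C * L / s ^ 2 + L / s ^ 2 := by ring
  rw [h13]
  linarith

theorem mean_main (hCa : S_Cacc) : S_Mean := by
  intro κ hκ
  obtain ⟨C, hC0, hC⟩ := hCa κ hκ
  -- the constant: `K = (25/32) K + 400 (8 C + 1)`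
  set C1 : ℝ := 16 * 25 * (8 * C + 1) with hC1
  have hC10 : 0 < C1 := by positivity
  set K : ℝ := 32 / 7 * C1 with hK
  refine ⟨K, by positivity, ?_⟩
  intro U q qx qy hU hW hQ z₀ r a hr hB
  set L := ∫ w in closedBall z₀ (2 * r), ‖q w - a‖ with hL
  have hL0 : 0 ≤ L := integral_nonneg (fun w => norm_nonneg _)
  have hcont : ContinuousOn (fun w => ‖q w - a‖) (closedBall z₀ (2 * r)) :=
    ((hW.cont.mono hB).sub continuousOn_const).norm
  obtain ⟨B0, hB0⟩ := (isCompact_closedBall z₀ (2 * r)).exists_bound_of_continuousOn hcont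
  have hB0' : ∀ w ∈ closedBall z₀ (2 * r), ‖q w - a‖ ≤ B0 := by
    intro w hw
    have := hB0 w hw
    rwa [norm_norm] at this
  have hB00 : 0 ≤ B0 := (norm_nonneg _).trans (hB0' z₀ (mem_closedBall_self (by positivity)))
  -- induction
  have key : ∀ n : ℕ, ∀ i : ℕ, ∀ z ∈ closedBall z₀ (2 * r - r * (4 / 5) ^ i),
      ‖q z - a‖ ≤ (1 / 2) ^ n * B0 + K / (4 / 5) ^ (2 * i) * (L / r ^ 2) := by
    intro n
    induction n with
    | zero =>
      intro i z hz
      have hpow : 0 < r * (4 / 5 : ℝ) ^ i := by positivity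
      have := hB0' z (closedBall_subset_closedBall (by linarith) hz)
      have h2 : 0 ≤ K / (4 / 5) ^ (2 * i) * (L / r ^ 2) := by positivity
      simp only [pow_zero, one_mul]
      linarith
    | succ n ih =>
      intro i z hz
      have hx : 0 < (4 / 5 : ℝ) ^ i := by positivity
      have hx1 : (4 / 5 : ℝ) ^ i ≤ 1 := pow_le_one₀ (by norm_num) (by norm_num)
      set s : ℝ := r * (4 / 5) ^ i / 20 with hs
      have hs0 : 0 < s := by positivity
      have hst : 2 * r - r * (4 / 5) ^ i + 4 * s = 2 * r - r * (4 / 5) ^ (i + 1) := by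
        rw [hs, pow_succ]
        ring
      have ht0 : 0 ≤ 2 * r - r * (4 / 5) ^ i := by nlinarith
      have hle : 2 * r - r * (4 / 5) ^ i + 4 * s ≤ 2 * r := by
        rw [hst]
        have : 0 < r * (4 / 5 : ℝ) ^ (i + 1) := by positivity
        linarith
      have h1 := mean_step hκ hC0 hC hU hW hQ (a := a) hB hs0 ht0 hle
        (B := (1 / 2) ^ n * B0 + K / (4 / 5) ^ (2 * (i + 1)) * (L / r ^ 2))
        (by rw [hst]; exact ih (i + 1)) z hz
      refine h1.trans (le_of_eq ?_)
      rw [← hL]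
      have e1 : ((4 / 5 : ℝ) ^ (2 * (i + 1))) = (4 / 5) ^ (2 * i) * (16 / 25) := by
        rw [show 2 * (i + 1) = 2 * i + 2 by ring, pow_add]
        norm_num
      have e2 : s ^ 2 = r ^ 2 * (4 / 5) ^ (2 * i) / 400 := by
        rw [hs, pow_mul']
        ring
      rw [e1, e2, pow_succ, hK, hC1]
      have hy : 0 < (4 / 5 : ℝ) ^ (2 * i) := by positivity
      field_simp
      ring
  intro z hz
  have hlim : Tendsto (fun n : ℕ => (1 / 2 : ℝ) ^ n * B0 + K * (L / r ^ 2)) atTop
      (𝓝 (0 * B0 + K * (L / r ^ 2))) := by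
    have := (tendsto_pow_atTop_nhds_zero_of_lt_one (r := (1 / 2 : ℝ)) (by norm_num)
      (by norm_num)).mul_const B0
    exact this.add_const _
  rw [zero_mul, zero_add] at hlim
  have h3 : K / r ^ 2 * L = K * (L / r ^ 2) := by ring
  rw [h3]
  refine ge_of_tendsto' hlim (fun n => ?_)
  have := key n 0 z (by
    simp only [pow_zero, mul_one]
    rw [show 2 * r - r = r by ring]
    exact hz)
  simpa using this

end Pool.Agent.W796.PH
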