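import Mathlib
import Pool.Agent.W796.PH.Defs

set_option autoImplicit false

/-! Corollaries of the growth statement `S_Grow`. -/

namespace Pool.Agent.W796.PH

open MeasureTheory Metric Set Filter Topology Complex
open scoped ENNReal ContDiff ComplexConjugate
open Pool.Agent.Helper366.IV (W QR Jac)

theorem dir_growth (hG : S_Grow) {c : ℂ} {R : ℝ} {q qx qy : ℂ → ℂ} (h : SW (ball c R) q qx qy)
    {K : ℝ} (hK : 1 ≤ K) (hQ : QR (K + 1 / K) (ball c R) qx qy) {a b : ℝ} (ha : 0 < a)
    (hab : a ≤ b) (hb : b < R) :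
    Dir qx qy c a ≤ (a / b) ^ (2 / K) * Dir qx qy c b := by
  have hK0 : 0 < K := by linarith
  have hb0 : 0 < b := ha.trans_le hab
  have h1 := hG c R q qx qy h a b ha hab hb (fun _ => K) (fun r => r ^ (-(2 / K)))
    (fun r => -(2 / K) * r ^ (-(2 / K) - 1)) continuousOn_const (fun _ _ => hK)
    (fun r hr => Real.rpow_nonneg (ha.le.trans hr.1) _)
    (fun r hr => Real.hasDerivAt_rpow_const (Or.inl (ha.trans_le hr.1).ne'))
    (by
      refine continuousOn_const.mul ?_
      intro r hr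
      exact (Real.continuousAt_rpow_const _ _ (Or.inl (ha.trans_le hr.1).ne')).continuousWithinAt)
    (by
      intro r hr
      have hr0 : 0 < r := ha.trans_le hr.1
      rw [Real.rpow_sub_one hr0.ne']
      refine le_of_eq ?_
      field_simp)
    (by
      intro r hr
      exact ae_mono (Measure.restrict_mono (ball_subset_ball (hr.2.trans hb.le)) le_rfl) hQ)
  have ha1 : 0 < a ^ (-(2 / K)) := Real.rpow_pos_of_pos ha _
  have h2 : (a / b) ^ (2 / K) = b ^ (-(2 / K)) / a ^ (-(2 / K)) := by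
    rw [Real.div_rpow ha.le hb0.le, Real.rpow_neg ha.le, Real.rpow_neg hb0.le]
    field_simp
  rw [h2, div_mul_eq_mul_div, le_div_iff₀ ha1]
  linarith

theorem dir_growth2 (hG : S_Grow) {c : ℂ} {R : ℝ} {q qx qy : ℂ → ℂ} (h : SW (ball c R) q qx qy)
    {A α : ℝ} (hA : 0 ≤ A) (hα : 0 < α) {a b : ℝ} (ha : 0 < a) (hab : a ≤ b) (hb : b < R)
    (hQ : ∀ r ∈ Icc a b, QR ((1 + A * r ^ α) + 1 / (1 + A * r ^ α)) (ball c r) qx qy) :
    Dir qx qy c a ≤ Real.exp (2 * A / α * b ^ α) * (a / b) ^ 2 * Dir qx qy c b := by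
  have hb0 : 0 < b := ha.trans_le hab
  have hpos : ∀ r ∈ Icc a b, 0 < r := fun r hr => ha.trans_le hr.1
  have hcr : ∀ e : ℝ, ContinuousOn (fun r : ℝ => r ^ e) (Icc a b) := by
    intro e r hr
    exact (Real.continuousAt_rpow_const _ _ (Or.inl (hpos r hr).ne')).continuousWithinAt
  have h1 := hG c R q qx qy h a b ha hab hb (fun r => 1 + A * r ^ α)
    (fun r => (r ^ 2)⁻¹ * Real.exp (2 * A / α * r ^ α))
    (fun r => (-(2 * r) / (r ^ 2) ^ 2) * Real.exp (2 * A / α * r ^ α) +
      (r ^ 2)⁻¹ * (Real.exp (2 * A / α * r ^ α) * (2 * A / α * (α * r ^ (α - 1)))))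
    (continuousOn_const.add (continuousOn_const.mul (hcr α)))
    (fun r hr => by
      have : 0 ≤ A * r ^ α := mul_nonneg hA (Real.rpow_nonneg (hpos r hr).le _)
      show 1 ≤ 1 + A * r ^ α
      linarith)
    (fun r hr => by positivity)
    (fun r hr => by
      have hr0 := hpos r hr
      have d1 : HasDerivAt (fun r : ℝ => (r ^ 2)⁻¹) (-(2 * r) / (r ^ 2) ^ 2) r := by
        have := (hasDerivAt_pow 2 r).fun_inv (pow_ne_zero 2 hr0.ne')
        refine this.congr_deriv ?_
        norm_num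
      have d2 : HasDerivAt (fun r : ℝ => 2 * A / α * r ^ α) (2 * A / α * (α * r ^ (α - 1))) r :=
        (Real.hasDerivAt_rpow_const (Or.inl hr0.ne')).const_mul _
      exact d1.mul d2.exp)
    (by
      have e1 : ContinuousOn (fun r : ℝ => Real.exp (2 * A / α * r ^ α)) (Icc a b) :=
        Real.continuous_exp.comp_continuousOn (continuousOn_const.mul (hcr α))
      have e2 : ContinuousOn (fun r : ℝ => (r ^ 2)⁻¹) (Icc a b) :=
        (continuous_pow 2).continuousOn.inv₀ (fun r hr => pow_ne_zero 2 (hpos r hr).ne')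
      have e3 : ContinuousOn (fun r : ℝ => -(2 * r) / (r ^ 2) ^ 2) (Icc a b) := by
        refine ContinuousOn.div (by fun_prop) (by fun_prop) ?_
        intro r hr
        exact pow_ne_zero 2 (pow_ne_zero 2 (hpos r hr).ne')
      exact (e3.mul e1).add (e2.mul (e1.mul (continuousOn_const.mul
        (continuousOn_const.mul (hcr (α - 1)))))))
    (by
      intro r hr
      have hr0 : 0 < r := hpos r hr
      have hE : 0 < Real.exp (2 * A / α * r ^ α) := Real.exp_pos _
      set E := Real.exp (2 * A / α * r ^ α) with hEdef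
      have hx : 0 ≤ A * r ^ α := mul_nonneg hA (Real.rpow_nonneg hr0.le _)
      have hr1 : r ^ (α - 1) = r ^ α / r := Real.rpow_sub_one hr0.ne' α
      rw [hr1]
      set x := A * r ^ α with hxdef
      have e1 : -((-(2 * r) / (r ^ 2) ^ 2) * E + (r ^ 2)⁻¹ * (E * (2 * A / α * (α * (r ^ α / r))))) =
          2 * (1 - x) * (E / r ^ 3) := by
        rw [hxdef]
        field_simp
        ring
      have e2 : 2 / ((1 + x) * r) * ((r ^ 2)⁻¹ * E) = 2 * (1 / (1 + x)) * (E / r ^ 3) := by
        have : (1 + x) ≠ 0 := by positivity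
        field_simp
      rw [e1, e2]
      have e3 : 1 - x ≤ 1 / (1 + x) := by
        rw [le_div_iff₀ (by positivity)]
        nlinarith [sq_nonneg x]
      have : 0 ≤ E / r ^ 3 := by positivity
      nlinarith)
    hQ
  have hD : 0 ≤ Dir qx qy c b := by
    unfold Dir
    exact integral_nonneg (fun z => by positivity)
  have hDa : 0 ≤ Dir qx qy c a := by
    unfold Dir
    exact integral_nonneg (fun z => by positivity)
  have hEa : 1 ≤ Real.exp (2 * A / α * a ^ α) := by
    refine Real.one_le_exp ?_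
    positivity
  have h2 : (a ^ 2)⁻¹ * Dir qx qy c a ≤
      (b ^ 2)⁻¹ * Real.exp (2 * A / α * b ^ α) * Dir qx qy c b := by
    refine le_trans ?_ h1
    have : 0 ≤ (a ^ 2)⁻¹ := by positivity
    calc (a ^ 2)⁻¹ * Dir qx qy c a = (a ^ 2)⁻¹ * 1 * Dir qx qy c a := by ring
      _ ≤ (a ^ 2)⁻¹ * Real.exp (2 * A / α * a ^ α) * Dir qx qy c a := by gcongr
  have h3 : Dir qx qy c a ≤ a ^ 2 * ((b ^ 2)⁻¹ * Real.exp (2 * A / α * b ^ α) * Dir qx qy c b) := by
    calc Dir qx qy c a = a ^ 2 * ((a ^ 2)⁻¹ * Dir qx qy c a) := by field_simp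
      _ ≤ _ := by gcongr
  refine h3.trans (le_of_eq ?_)
  field_simp

end Pool.Agent.W796.PH
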