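import Mathlib
import Pool.Agent.W796.PH.Defs
import Pool.Agent.Helper366.IV.Stokes
import Pool.Agent.Helper366.IV.Moll
import Pool.Agent.Helper366.IV.Sub

set_option autoImplicit false

/-! Relations between the classes `SW` and `W`. -/

namespace Pool.Agent.W796.PH

open MeasureTheory Metric Set Filter Topology Complex
open scoped ENNReal ContDiff ComplexConjugate
open Pool.Agent.Helper366.IV

variable {U V : Set ℂ} {q qx qy : ℂ → ℂ}

theorem SW.mono (h : SW U q qx qy) (hV : V ⊆ U) : SW V q qx qy :=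
  ⟨fun K hK hKV => h.mem K hK (hKV.trans hV), fun K hK hKV => h.memx K hK (hKV.trans hV),
    fun K hK hKV => h.memy K hK (hKV.trans hV), fun K hK hKV => h.approx K hK (hKV.trans hV)⟩

theorem weakL2 {q qv : ℂ → ℂ} (φ : ℂ → ℂ) (hφ : ContDiff ℝ 1 φ) (hc : HasCompactSupport φ)
    (hq : MemLp q 2 (volume.restrict (tsupport φ)))
    (hqv : MemLp qv 2 (volume.restrict (tsupport φ)))
    (Q : ℕ → ℂ → ℂ) (hQ : ∀ n, ContDiff ℝ ∞ (Q n))
    (hu : Tendsto (fun n => eLpNorm (fun z => Q n z - q z) 2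
      (volume.restrict (tsupport φ))) atTop (𝓝 0)) (v : ℂ)
    (hv : Tendsto (fun n => eLpNorm (fun z => fderiv ℝ (Q n) z v - qv z) 2
      (volume.restrict (tsupport φ))) atTop (𝓝 0)) :
    ∫ z, q z * fderiv ℝ φ z v = - ∫ z, qv z * φ z := by
  have hK : IsCompact (tsupport φ) := hc
  have hφc : Continuous φ := hφ.continuous
  have hφ'c : Continuous (fun z => fderiv ℝ φ z v) :=
    (hφ.continuous_fderiv one_ne_zero).clm_apply continuous_const
  have hz1 : ∀ (F : ℂ → ℂ) z, z ∉ tsupport φ → F z * fderiv ℝ φ z v = 0 := by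
    intro F z hz; rw [(j1865_fd0 hz).2]; simp
  have hz2 : ∀ (F : ℂ → ℂ) z, z ∉ tsupport φ → F z * φ z = 0 := by
    intro F z hz; rw [(j1865_fd0 hz).1]; simp
  have hQ2 : ∀ n, ∀ z ∈ tsupport φ, ContDiffAt ℝ 2 (Q n) z :=
    fun n z _ => (contDiff_infty.1 (hQ n) 2).contDiffAt
  have hQc : ∀ n, ContinuousOn (Q n) (tsupport φ) :=
    fun n z hz => (hQ2 n z hz).continuousAt.continuousWithinAt
  have hA : ∀ n, ∫ z in tsupport φ, Q n z * fderiv ℝ φ z v =
      - ∫ z in tsupport φ, fderiv ℝ (Q n) z v * φ z := by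
    intro n
    rw [setIntegral_eq_integral_of_forall_compl_eq_zero (hz1 (Q n)),
      setIntegral_eq_integral_of_forall_compl_eq_zero (hz2 (fun z => fderiv ℝ (Q n) z v))]
    apply integral_mul_fderiv_eq_neg_fderiv_mul_of_integrable
    · exact j1865_int_of hK ((j1865_fdcont (hQ2 n) v).mul hφc.continuousOn) (hz2 _)
    · exact j1865_int_of hK ((hQc n).mul hφ'c.continuousOn) (hz1 _)
    · exact j1865_int_of hK ((hQc n).mul hφc.continuousOn) (hz2 _)
    · intro z hz; exact (hQ2 n z hz).differentiableAt (by norm_num)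
    · intro z _; exact hφ.differentiable (by norm_num) z
  have hself : ∀ g : ℂ → ℂ, Tendsto (fun _ : ℕ => eLpNorm (fun z => g z - g z) 2
      (volume.restrict (tsupport φ))) atTop (𝓝 0) := by
    intro g
    simp only [sub_self]
    simp
  have l1 := j1865_T2mul hq (j1865_mem hK hφ'c.continuousOn)
    (fun n => j1865_mem hK (hQc n)) (fun _ => j1865_mem hK hφ'c.continuousOn)
    hu (hself _)
  have l2 := j1865_T2mul hqv (j1865_mem hK hφc.continuousOn)
    (fun n => j1865_mem hK (j1865_fdcont (hQ2 n) v)) (fun _ => j1865_mem hK hφc.continuousOn)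
    hv (hself _)
  have l3 := l2.neg
  have heq := tendsto_nhds_unique (l1.congr hA) l3
  rw [setIntegral_eq_integral_of_forall_compl_eq_zero (hz1 q),
      setIntegral_eq_integral_of_forall_compl_eq_zero (hz2 qv)] at heq
  exact heq

theorem SW.weakC (h : SW U q qx qy) (φ : ℂ → ℂ) (hη : ContDiff ℝ 1 φ) (hc : HasCompactSupport φ)
    (hs : tsupport φ ⊆ U) :
    ((∫ z, q z * fderiv ℝ φ z 1) = - ∫ z, qx z * φ z) ∧
      ((∫ z, q z * fderiv ℝ φ z I) = - ∫ z, qy z * φ z) := by
  have hK : IsCompact (tsupport φ) := hc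
  obtain ⟨Q, hQ, hu, hx, hy⟩ := h.approx (tsupport φ) hK hs
  exact ⟨weakL2 φ hη hc (h.mem _ hK hs) (h.memx _ hK hs) Q hQ hu 1 hx,
    weakL2 φ hη hc (h.mem _ hK hs) (h.memy _ hK hs) Q hQ hu I hy⟩

/-- a continuous representative of a function in `SW` is in `W` (on smaller balls) -/
theorem SW.toW {c : ℂ} {r : ℝ} (h : SW U q qx qy) (hr : closedBall c r ⊆ U)
    (q' : ℂ → ℂ) (hq' : ContinuousOn q' (ball c r))
    (hae : ∀ᵐ z ∂(volume.restrict (ball c r)), q z = q' z) : W (ball c r) q' qx qy := by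
  have hK : IsCompact (closedBall c r) := isCompact_closedBall c r
  refine W_of_weak _ isOpen_ball q' qx qy hq'
    ((h.memx _ hK hr).mono_measure (Measure.restrict_mono ball_subset_closedBall le_rfl))
    ((h.memy _ hK hr).mono_measure (Measure.restrict_mono ball_subset_closedBall le_rfl)) ?_
  intro φ hφ hc hs
  obtain ⟨h1, h2⟩ := h.weakC φ (hφ.of_le (by exact_mod_cast le_top)) hc
    (hs.trans (ball_subset_closedBall.trans hr))
  have key : ∀ v : ℂ, ∫ z, q' z * fderiv ℝ φ z v = ∫ z, q z * fderiv ℝ φ z v := by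
    intro v
    have e1 : ∀ F : ℂ → ℂ, ∫ z, F z * fderiv ℝ φ z v =
        ∫ z in ball c r, F z * fderiv ℝ φ z v := by
      intro F
      rw [setIntegral_eq_integral_of_forall_compl_eq_zero]
      intro z hz
      rw [(j1865_fd0 (fun hz' => hz (hs hz'))).2]
      simp
    rw [e1, e1]
    refine integral_congr_ae ?_
    filter_upwards [hae] with z hz
    rw [hz]
  rw [key, key]
  exact ⟨h1, h2⟩

theorem W.toSW (hS : S_WeakSW) (h : W U q qx qy) {c : ℂ} {r : ℝ} (hr : closedBall c r ⊆ U) :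
    SW (ball c r) q qx qy := by
  have hK : IsCompact (closedBall c r) := isCompact_closedBall c r
  refine hS _ q qx qy isOpen_ball
    ((j1865_mem hK (h.cont.mono hr)).mono_measure
      (Measure.restrict_mono ball_subset_closedBall le_rfl))
    ((h.memx _ hK hr).mono_measure (Measure.restrict_mono ball_subset_closedBall le_rfl))
    ((h.memy _ hK hr).mono_measure (Measure.restrict_mono ball_subset_closedBall le_rfl)) ?_ ?_
  all_goals
    intro φ hφ hc hs
    have hφC : ContDiff ℝ 1 (fun z => ((φ z : ℝ) : ℂ)) :=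
      ofRealCLM.contDiff.comp (hφ.of_le (by exact_mod_cast le_top))
    have hts : tsupport (fun z => ((φ z : ℝ) : ℂ)) = tsupport φ := by
      unfold tsupport
      congr 1
      ext z
      simp
    have hcC : HasCompactSupport (fun z => ((φ z : ℝ) : ℂ)) := by
      unfold HasCompactSupport
      rw [hts]
      exact hc
    obtain ⟨h1, h2⟩ := h.weak (fun z => ((φ z : ℝ) : ℂ)) hφC hcC
      (by rw [hts]; exact hs.trans (ball_subset_closedBall.trans hr))
    have hd : ∀ z v, fderiv ℝ (fun z => ((φ z : ℝ) : ℂ)) z v = ((fderiv ℝ φ z v : ℝ) : ℂ) := by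
      intro z v
      have h3 := ofRealCLM.hasFDerivAt.comp z
        ((hφ.differentiable (by simp)) z).hasFDerivAt
      have h4 : fderiv ℝ (fun z => ((φ z : ℝ) : ℂ)) z =
          ofRealCLM.comp (fderiv ℝ φ z) := h3.fderiv
      rw [h4]
      rfl
    simp only [hd] at h1 h2
  · simpa [real_smul, mul_comm] using h1
  · simpa [real_smul, mul_comm] using h2

end Pool.Agent.W796.PH
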