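import Mathlib
import Pool.Agent.W796.PH.Sob
import Pool.Agent.W796.PH.Growth
import Pool.Agent.Helper366.IV.GoodPt
import Pool.Agent.W796.PH.CaccL

set_option autoImplicit false

/-! Hölder continuity of quasiregular maps in the class `W` with the sharp exponent. -/

namespace Pool.Agent.W796.PH

open MeasureTheory Metric Set Filter Topology Complex
open scoped ENNReal ContDiff ComplexConjugate
open Pool.Agent.Helper366.IV
open Pool.Agent.W796.PH.CaccL

theorem intOn_sq {U : Set ℂ} {q qx qy : ℂ → ℂ} (h : W U q qx qy) {K : Set ℂ} (hK : IsCompact K)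
    (hKU : K ⊆ U) : IntegrableOn (fun z => ‖qx z‖ ^ 2 + ‖qy z‖ ^ 2) K := by
  have h1 := (h.memx K hK hKU).norm.integrable_sq
  have h2 := (h.memy K hK hKU).norm.integrable_sq
  exact h1.add h2

/-- Dirichlet integral bounded by the supremum -/
theorem dir_le_sup {κ C0 : ℝ} (hC0 : 0 < C0) (hC : ∀ (U : Set ℂ) (q qx qy : ℂ → ℂ), IsOpen U →
    W U q qx qy → QR κ U qx qy → ∀ (z₀ : ℂ) (r : ℝ) (a : ℂ), 0 < r → closedBall z₀ (2 * r) ⊆ U →
    ∫ z in closedBall z₀ r, (‖qx z‖ ^ 2 + ‖qy z‖ ^ 2) ≤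
      C0 / r ^ 2 * ∫ z in closedBall z₀ (2 * r), ‖q z - a‖ ^ 2)
    {U : Set ℂ} {q qx qy : ℂ → ℂ} (hU : IsOpen U) (h : W U q qx qy) (hQ : QR κ U qx qy)
    (z : ℂ) (r : ℝ) (a : ℂ) (S : ℝ) (hr : 0 < r) (hB : closedBall z (2 * r) ⊆ U)
    (hS : ∀ w ∈ closedBall z (2 * r), ‖q w - a‖ ≤ S) :
    ∫ z in closedBall z r, (‖qx z‖ ^ 2 + ‖qy z‖ ^ 2) ≤ 4 * Real.pi * C0 * S ^ 2 := by
  refine (hC U q qx qy hU h hQ z r a hr hB).trans ?_
  have hfin : volume (closedBall z (2 * r)) < ⊤ := (isCompact_closedBall z (2 * r)).measure_lt_top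
  have h1 : ∫ w in closedBall z (2 * r), ‖q w - a‖ ^ 2 ≤ S ^ 2 * (4 * Real.pi * r ^ 2) := by
    rw [← vol_ball z r hr]
    have h2 : ∫ w in closedBall z (2 * r), ‖q w - a‖ ^ 2 ≤ ∫ w in closedBall z (2 * r), S ^ 2 := by
      refine setIntegral_mono_on ?_ ?_ measurableSet_closedBall ?_
      · exact (((h.cont.mono hB).sub continuousOn_const).norm.pow 2).integrableOn_compact
          (isCompact_closedBall z (2 * r))
      · exact integrableOn_const hfin.ne
      · intro w hw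
        have := hS w hw
        gcongr
    refine h2.trans (le_of_eq ?_)
    rw [setIntegral_const]
    simp [Measure.real, mul_comm]
  calc C0 / r ^ 2 * ∫ w in closedBall z (2 * r), ‖q w - a‖ ^ 2
      ≤ C0 / r ^ 2 * (S ^ 2 * (4 * Real.pi * r ^ 2)) := by gcongr
    _ = 4 * Real.pi * C0 * S ^ 2 := by field_simp

/-- integral over a closed ball bounded by `Dir` of a bigger ball -/
theorem closedBall_le_Dir {U : Set ℂ} {q qx qy : ℂ → ℂ} (h : W U q qx qy) (z : ℂ) (a b : ℝ)
    (hab : a < b) (hB : closedBall z b ⊆ U) :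
    ∫ w in closedBall z a, (‖qx w‖ ^ 2 + ‖qy w‖ ^ 2) ≤ Dir qx qy z b := by
  unfold Dir
  refine setIntegral_mono_set ?_ ?_ ?_
  · exact (intOn_sq h (isCompact_closedBall z b) hB).mono_set ball_subset_closedBall
  · exact Eventually.of_forall (fun w => by positivity)
  · exact (closedBall_subset_ball hab).eventuallyLE

theorem Dir_le_closedBall {U : Set ℂ} {q qx qy : ℂ → ℂ} (h : W U q qx qy) (z : ℂ) (b : ℝ)
    (hB : closedBall z b ⊆ U) :
    Dir qx qy z b ≤ ∫ w in closedBall z b, (‖qx w‖ ^ 2 + ‖qy w‖ ^ 2) := by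
  unfold Dir
  refine setIntegral_mono_set ?_ ?_ ?_
  · exact intOn_sq h (isCompact_closedBall z b) hB
  · exact Eventually.of_forall (fun w => by positivity)
  · exact ball_subset_closedBall.eventuallyLE

theorem W.holder (hC : S_Cacc) (hG : S_Grow) (hS : S_WeakSW) (K : ℝ) (hK : 1 ≤ K) :
    ∃ C : ℝ, 0 < C ∧ ∀ (U : Set ℂ) (q qx qy : ℂ → ℂ), IsOpen U → W U q qx qy →
      QR (K + 1 / K) U qx qy → ∀ (c : ℂ) (r S : ℝ), 0 < r → closedBall c r ⊆ U → ∀ a : ℂ,
      (∀ w ∈ closedBall c r, ‖q w - a‖ ≤ S) →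
      ∀ z ∈ closedBall c (r / 2), ∀ z' ∈ closedBall c (r / 2),
        ‖q z - q z'‖ ≤ C * (‖z - z'‖ / r) ^ (1 / K) * S := by
  have hK0 : 0 < K := by linarith
  have hκ : 0 < K + 1 / K := by positivity
  obtain ⟨C0, hC0, hC1⟩ := hC (K + 1 / K) hκ
  refine ⟨32 + 8 * 16 * Real.sqrt (4 * Real.pi * C0), by positivity, ?_⟩
  intro U q qx qy hU h hQ c r S hr hB a hSup z hz z' hz'
  set d := ‖z - z'‖ with hd
  have hd0 : 0 ≤ d := norm_nonneg _
  have hS0 : 0 ≤ S := (norm_nonneg _).trans (hSup c (mem_closedBall_self hr.le))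
  have hsub : closedBall c (r / 2) ⊆ closedBall c r := closedBall_subset_closedBall (by linarith)
  rcases hd0.eq_or_lt with h0 | hd1
  · have : z = z' := by
      rw [← sub_eq_zero, ← norm_eq_zero, ← hd, ← h0]
    rw [this, sub_self, norm_zero]
    positivity
  have hx0 : 0 < d / r := by positivity
  rcases le_or_gt (r / 16) d with hbig | hsmall
  · -- large distance
    have h1 : ‖q z - q z'‖ ≤ 2 * S := by
      have e : q z - q z' = (q z - a) - (q z' - a) := by ring
      rw [e]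
      refine (norm_sub_le _ _).trans ?_
      have := hSup z (hsub hz)
      have := hSup z' (hsub hz')
      linarith
    have h2 : 1 ≤ 16 * (d / r) ^ (1 / K) := by
      have h3 : 1 / 16 ≤ d / r := by
        rw [le_div_iff₀ hr]
        linarith
      rcases le_or_gt 1 (d / r) with h4 | h4
      · have : 1 ≤ (d / r) ^ (1 / K) := Real.one_le_rpow h4 (by positivity)
        linarith
      · have h5 : (d / r) ^ (1 : ℝ) ≤ (d / r) ^ (1 / K) := by
          refine Real.rpow_le_rpow_of_exponent_ge hx0 h4.le ?_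
          rw [div_le_one hK0]
          exact hK
        rw [Real.rpow_one] at h5
        linarith
    have h6 : 0 ≤ (d / r) ^ (1 / K) := Real.rpow_nonneg hx0.le _
    calc ‖q z - q z'‖ ≤ 2 * S := h1
      _ ≤ 2 * (16 * (d / r) ^ (1 / K)) * S := by nlinarith
      _ = 32 * (d / r) ^ (1 / K) * S := by ring
      _ ≤ (32 + 8 * 16 * Real.sqrt (4 * Real.pi * C0)) * (d / r) ^ (1 / K) * S := by
        have : 0 ≤ 8 * 16 * Real.sqrt (4 * Real.pi * C0) := by positivity
        gcongr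
        linarith
  · -- small distance
    have hzc : dist z c ≤ r / 2 := hz
    have hin : ∀ ρ : ℝ, ρ ≤ r / 2 → closedBall z ρ ⊆ closedBall c r := by
      intro ρ hρ
      refine closedBall_subset_closedBall' ?_
      linarith
    have h1 : ‖q z - q z'‖ ≤ 8 * Real.sqrt (∫ w in closedBall z (2 * d),
        (‖qx w‖ ^ 2 + ‖qy w‖ ^ 2)) := by
      refine W.oscN hκ hU h hQ z d hd1 ((hin _ (by linarith)).trans hB) z
        (mem_closedBall_self hd1.le) z' ?_
      rw [mem_closedBall, dist_comm, dist_eq_norm]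
    have h2 : ∫ w in closedBall z (2 * d), (‖qx w‖ ^ 2 + ‖qy w‖ ^ 2) ≤ Dir qx qy z (4 * d) :=
      closedBall_le_Dir h z (2 * d) (4 * d) (by linarith) ((hin _ (by linarith)).trans hB)
    have hSW : SW (ball z (3 * r / 8)) q qx qy :=
      W.toSW hS h ((hin _ (by linarith)).trans hB)
    have h3 : Dir qx qy z (4 * d) ≤ (4 * d / (r / 4)) ^ (2 / K) * Dir qx qy z (r / 4) := by
      refine dir_growth hG hSW hK ?_ (by linarith) (by linarith) (by linarith)
      exact ae_mono (Measure.restrict_mono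
        ((ball_subset_closedBall.trans (hin _ (by linarith))).trans hB) le_rfl) hQ
    have h4 : Dir qx qy z (r / 4) ≤ 4 * Real.pi * C0 * S ^ 2 := by
      refine (Dir_le_closedBall h z (r / 4) ((hin _ (by linarith)).trans hB)).trans ?_
      refine dir_le_sup hC0 hC1 hU h hQ z (r / 4) a S (by positivity)
        ((hin _ (by linarith)).trans hB) ?_
      intro w hw
      exact hSup w (hin _ (by linarith) hw)
    have h5 : (4 * d / (r / 4)) ^ (2 / K) ≤ (16 * (d / r) ^ (1 / K)) ^ 2 := by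
      have e1 : 4 * d / (r / 4) = 16 * (d / r) := by field_simp; ring
      have e2 : (2 / K : ℝ) = 1 / K * (2 : ℕ) := by push_cast; ring
      rw [e1, e2, Real.rpow_mul_natCast (by positivity)]
      have h6 : (16 * (d / r)) ^ (1 / K) ≤ 16 * (d / r) ^ (1 / K) := by
        rw [Real.mul_rpow (by norm_num) hx0.le]
        have h7 : (16 : ℝ) ^ (1 / K) ≤ 16 := by
          calc (16 : ℝ) ^ (1 / K) ≤ 16 ^ (1 : ℝ) := by
                refine Real.rpow_le_rpow_of_exponent_le (by norm_num) ?_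
                rw [div_le_one hK0]
                exact hK
            _ = 16 := Real.rpow_one _
        have : 0 ≤ (d / r) ^ (1 / K) := Real.rpow_nonneg hx0.le _
        gcongr
      have : 0 ≤ (16 * (d / r)) ^ (1 / K) := by positivity
      gcongr
    have hD0 : 0 ≤ Dir qx qy z (r / 4) := integral_nonneg (fun w => by positivity)
    have h8 : ∫ w in closedBall z (2 * d), (‖qx w‖ ^ 2 + ‖qy w‖ ^ 2) ≤
        (16 * (d / r) ^ (1 / K) * (Real.sqrt (4 * Real.pi * C0) * S)) ^ 2 := by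
      calc ∫ w in closedBall z (2 * d), (‖qx w‖ ^ 2 + ‖qy w‖ ^ 2)
          ≤ (4 * d / (r / 4)) ^ (2 / K) * Dir qx qy z (r / 4) := h2.trans h3
        _ ≤ (16 * (d / r) ^ (1 / K)) ^ 2 * (4 * Real.pi * C0 * S ^ 2) := by gcongr
        _ = _ := by
          rw [mul_pow (16 * (d / r) ^ (1 / K)), mul_pow (Real.sqrt (4 * Real.pi * C0)),
            Real.sq_sqrt (by positivity)]
    have hx1 : 0 ≤ (d / r) ^ (1 / K) := Real.rpow_nonneg hx0.le _
    calc ‖q z - q z'‖ ≤ 8 * Real.sqrt (∫ w in closedBall z (2 * d),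
          (‖qx w‖ ^ 2 + ‖qy w‖ ^ 2)) := h1
      _ ≤ 8 * Real.sqrt ((16 * (d / r) ^ (1 / K) * (Real.sqrt (4 * Real.pi * C0) * S)) ^ 2) := by
        gcongr
      _ = 8 * (16 * (d / r) ^ (1 / K) * (Real.sqrt (4 * Real.pi * C0) * S)) := by
        rw [Real.sqrt_sq (by positivity)]
      _ = (8 * 16 * Real.sqrt (4 * Real.pi * C0)) * (d / r) ^ (1 / K) * S := by ring
      _ ≤ (32 + 8 * 16 * Real.sqrt (4 * Real.pi * C0)) * (d / r) ^ (1 / K) * S := by
        gcongr
        linarith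

end Pool.Agent.W796.PH
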