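import Mathlib
import Pool.Agent.W796.PH.Rad
import Pool.Agent.W796.PH.HoldW

set_option autoImplicit false

/-! The regularised maps are quasiregular; existence of a continuous representative. -/

namespace Pool.Agent.W796.PH

open MeasureTheory Metric Set Filter Topology Complex
open scoped ENNReal ContDiff ComplexConjugate
open Pool.Agent.Helper366.IV

/-- conjugate of the regularised radial map -/
noncomputable def Th (e δ : ℝ) (v : ℂ) : ℂ := conj (pd e δ v)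

theorem Th_smooth (hP : S_PdDer) (e : ℝ) {δ : ℝ} (hδ : 0 < δ) : ContDiff ℝ ∞ (Th e δ) :=
  (conjCLE.contDiff).comp (hP.1 e δ hδ).1

theorem Th_fderiv (hP : S_PdDer) (e : ℝ) {δ : ℝ} (hδ : 0 < δ) (v w : ℂ) :
    fderiv ℝ (Th e δ) v w = conj ((((δ ^ 2 + ‖v‖ ^ 2) ^ (e / 2) : ℝ) : ℂ) *
      fr (1 + e * ‖v‖ ^ 2 / (δ ^ 2 + ‖v‖ ^ 2)) (v / ‖v‖) w) := by
  have h1 : DifferentiableAt ℝ (pd e δ) v := ((hP.1 e δ hδ).1.differentiable (by simp)) v
  have h2 := (conjCLE.toContinuousLinearMap).hasFDerivAt.comp v h1.hasFDerivAt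
  have h3 : fderiv ℝ (Th e δ) v = (conjCLE.toContinuousLinearMap).comp (fderiv ℝ (pd e δ) v) :=
    h2.fderiv
  rw [h3, ← (hP.1 e δ hδ).2 v w]
  rfl

theorem kk_mem {e δ s : ℝ} (_he1 : -1 < e) (he0 : e ≤ 0) (hδ : 0 < δ) :
    1 + e ≤ 1 + e * s ^ 2 / (δ ^ 2 + s ^ 2) ∧ 1 + e * s ^ 2 / (δ ^ 2 + s ^ 2) ≤ 1 := by
  have h0 : 0 < δ ^ 2 + s ^ 2 := by positivity
  have h1 : s ^ 2 / (δ ^ 2 + s ^ 2) ≤ 1 := by
    rw [div_le_one h0]
    nlinarith [sq_nonneg δ]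
  have h2 : 0 ≤ s ^ 2 / (δ ^ 2 + s ^ 2) := by positivity
  rw [mul_div_assoc]
  constructor <;> nlinarith

theorem norm_unit_le (v : ℂ) : ‖v / (‖v‖ : ℂ)‖ ≤ 1 := by
  rw [norm_div, Complex.norm_real, norm_norm]
  exact div_self_le_one _

theorem Th_bound (hP : S_PdDer) {e δ : ℝ} (he1 : -1 < e) (he0 : e ≤ 0) (hδ : 0 < δ) (v : ℂ) :
    ‖fderiv ℝ (Th e δ) v‖ ≤ 2 * δ ^ e := by
  refine ContinuousLinearMap.opNorm_le_bound _ (by positivity) ?_
  intro w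
  rw [Th_fderiv hP e hδ v w, Complex.norm_conj, norm_mul, Complex.norm_real, Real.norm_eq_abs,
    abs_of_nonneg (by positivity)]
  have h1 : (δ ^ 2 + ‖v‖ ^ 2) ^ (e / 2) ≤ δ ^ e := by
    have e1 : δ ^ e = (δ ^ 2) ^ (e / 2) := by
      rw [← Real.rpow_natCast, ← Real.rpow_mul hδ.le]
      congr 1
      push_cast
      ring
    rw [e1]
    exact Real.rpow_le_rpow_of_nonpos (by positivity) (by nlinarith [sq_nonneg ‖v‖]) (by linarith)
  have h2 := kk_mem (s := ‖v‖) he1 he0 hδ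
  have h3 : ‖fr (1 + e * ‖v‖ ^ 2 / (δ ^ 2 + ‖v‖ ^ 2)) (v / ‖v‖) w‖ ≤ 2 * ‖w‖ := by
    refine norm_fr_le (norm_unit_le v) ?_
    rw [abs_le]
    constructor <;> linarith [h2.1, h2.2]
  calc (δ ^ 2 + ‖v‖ ^ 2) ^ (e / 2) * ‖fr (1 + e * ‖v‖ ^ 2 / (δ ^ 2 + ‖v‖ ^ 2)) (v / ‖v‖) w‖
      ≤ δ ^ e * (2 * ‖w‖) := by gcongr
    _ = 2 * δ ^ e * ‖w‖ := by ring

theorem qr_Th (hP : S_PdDer) (hQA : S_QRAlg) {p : ℝ} (hp : 2 ≤ p) {U : Set ℂ} {V Vx Vy : ℂ → ℂ}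
    (hStr : Str p U V Vx Vy) {δ : ℝ} (hδ : 0 < δ) :
    QR ((p - 1) + 1 / (p - 1)) U (fun z => fderiv ℝ (Th (2 / p - 1) δ) (V z) (Vx z))
      (fun z => fderiv ℝ (Th (2 / p - 1) δ) (V z) (Vy z)) := by
  have hp0 : 0 < p := by linarith
  have he0 : 2 / p - 1 ≤ 0 := by
    have : 2 / p ≤ 1 := by
      rw [div_le_one hp0]
      exact hp
    linarith
  have he1 : -1 < 2 / p - 1 := by
    have : 0 < 2 / p := by positivity
    linarith
  unfold QR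
  filter_upwards [hStr.1, hStr.2] with z h1 h2
  by_cases hV : V z = 0
  · obtain ⟨hx, hy⟩ := h2 hV
    simp [Jac, hx, hy]
  · obtain ⟨ha, hb⟩ := h1 hV
    have hn : ‖V z / (‖V z‖ : ℂ)‖ = 1 := by
      rw [norm_div, Complex.norm_real, norm_norm]
      exact div_self (norm_ne_zero_iff.2 hV)
    have hk := kk_mem (s := ‖V z‖) he1 he0 hδ
    have h3 := hQA p hp (V z / ‖V z‖) (Vx z) (Vy z) hn ha hb
      (1 + (2 / p - 1) * ‖V z‖ ^ 2 / (δ ^ 2 + ‖V z‖ ^ 2)) (by linarith [hk.1]) hk.2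
    set k := 1 + (2 / p - 1) * ‖V z‖ ^ 2 / (δ ^ 2 + ‖V z‖ ^ 2) with hkdef
    set a := fr k (V z / ‖V z‖) (Vx z) with hadef
    set b := fr k (V z / ‖V z‖) (Vy z) with hbdef
    set l : ℝ := (δ ^ 2 + ‖V z‖ ^ 2) ^ ((2 / p - 1) / 2) with hl
    have hx : fderiv ℝ (Th (2 / p - 1) δ) (V z) (Vx z) = conj ((l : ℂ) * a) :=
      Th_fderiv hP _ hδ _ _
    have hy : fderiv ℝ (Th (2 / p - 1) δ) (V z) (Vy z) = conj ((l : ℂ) * b) :=
      Th_fderiv hP _ hδ _ _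
    have hJ : Jac (fun z => fderiv ℝ (Th (2 / p - 1) δ) (V z) (Vx z))
        (fun z => fderiv ℝ (Th (2 / p - 1) δ) (V z) (Vy z)) z =
        l ^ 2 * (b.re * a.im - a.re * b.im) := by
      unfold Jac
      simp only [hx, hy, conj_re, conj_im, mul_re, mul_im, ofReal_re, ofReal_im]
      ring
    rw [hJ]
    show ‖fderiv ℝ (Th (2 / p - 1) δ) (V z) (Vx z)‖ ^ 2 +
      ‖fderiv ℝ (Th (2 / p - 1) δ) (V z) (Vy z)‖ ^ 2 ≤ _
    rw [hx, hy, Complex.norm_conj, Complex.norm_conj, norm_mul, norm_mul, Complex.norm_real,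
      Real.norm_eq_abs, mul_pow, mul_pow, sq_abs]
    have : 0 ≤ l ^ 2 := sq_nonneg l
    nlinarith [mul_le_mul_of_nonneg_left h3 this]

/-- `V` is in the strong Sobolev space on balls -/
theorem V_SW (hDQ : S_DQ) (hRi : S_Riesz) (hWS : S_WeakSW) {p : ℝ} (hp : 2 ≤ p) {Ω : Set ℂ}
    {h : ℂ → ℝ} {G : ℂ → ℂ} (hΩ : IsOpen Ω) (hh : PHarm p Ω h G) {c : ℂ} {r : ℝ} (hr : 0 < r)
    (hB : closedBall c r ⊆ Ω) :
    ∃ Vx Vy : ℂ → ℂ, SW (ball c r) (fun z => pw ((p - 2) / 2) (G z)) Vx Vy := by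
  obtain ⟨C, t₀, ht₀, hD⟩ := hDQ p hp Ω h G hΩ hh c r hr hB
  have hmem : MemLp (fun z => pw ((p - 2) / 2) (G z)) 2 (volume.restrict (ball c (r + t₀ / 2))) := by
    refine memLp_V hp ?_
    refine (hh.gloc (closedBall c (r + t₀ / 2)) (isCompact_closedBall _ _) ?_).mono_measure
      (Measure.restrict_mono ball_subset_closedBall le_rfl)
    exact (hD 1 (by simp) (t₀ / 2) (by positivity) (by linarith)).1
  have hR : ∀ e : ℂ, ‖e‖ = 1 → ∃ Ve : ℂ → ℂ, MemLp Ve 2 (volume.restrict (ball c r)) ∧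
      WD (ball c r) (fun z => pw ((p - 2) / 2) (G z)) Ve e := by
    intro e he
    exact hRi (fun z => pw ((p - 2) / 2) (G z)) c e r C (t₀ / 2) hr (by positivity) he hmem
      (fun t ht ht' => (hD e he t ht (by linarith)).2)
  obtain ⟨Vx, hx, hwx⟩ := hR 1 (by simp)
  obtain ⟨Vy, hy, hwy⟩ := hR I (by simp)
  refine ⟨Vx, Vy, hWS _ _ _ _ isOpen_ball ?_ hx hy hwx hwy⟩
  exact hmem.mono_measure (Measure.restrict_mono (ball_subset_ball (by linarith)) le_rfl)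

theorem SW.intg {U : Set ℂ} {q qx qy : ℂ → ℂ} (h : SW U q qx qy) {K : Set ℂ} (hK : IsCompact K)
    (hKU : K ⊆ U) : IntegrableOn (fun z => ‖qx z‖ ^ 2 + ‖qy z‖ ^ 2) K := by
  have h1 := (h.memx K hK hKU).norm.integrable_sq
  have h2 := (h.memy K hK hKU).norm.integrable_sq
  exact h1.add h2

/-- quasiregular maps in `SW` have continuous representatives -/
theorem SW.exists_cont (hG : S_Grow) (hH : S_Hold) {c : ℂ} {r ρ K : ℝ} {q qx qy : ℂ → ℂ}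
    (h : SW (ball c r) q qx qy) (hK : 1 ≤ K) (hQ : QR (K + 1 / K) (ball c r) qx qy)
    (hρ : 0 < ρ) (hρr : ρ < r) :
    ∃ q' : ℂ → ℂ, ContinuousOn q' (ball c ρ) ∧ ∀ᵐ z ∂(volume.restrict (ball c ρ)), q z = q' z := by
  have hK0 : 0 < K := by linarith
  set s := (r - ρ) / 3 with hs
  have hs0 : 0 < s := by rw [hs]; linarith
  set D0 := ∫ z in closedBall c (ρ + s), (‖qx z‖ ^ 2 + ‖qy z‖ ^ 2) with hD0
  have hD00 : 0 ≤ D0 := integral_nonneg (fun z => by positivity)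
  refine hH c r ρ s (1 / K) (D0 / s ^ (2 / K)) q qx qy h hρ hs0 (by linarith) (by positivity)
    (by positivity) ?_
  intro y hy t ht hts
  have hyc : dist y c < ρ := hy
  have hsub : ball y (2 * s) ⊆ ball c r := by
    refine ball_subset_ball' ?_
    linarith
  have h1 : Dir qx qy y t ≤ (t / s) ^ (2 / K) * Dir qx qy y s := by
    refine dir_growth hG (h.mono hsub) hK ?_ ht hts (by linarith)
    exact ae_mono (Measure.restrict_mono hsub le_rfl) hQ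
  have h2 : Dir qx qy y s ≤ D0 := by
    rw [hD0]
    unfold Dir
    refine setIntegral_mono_set (h.intg (isCompact_closedBall _ _)
      (closedBall_subset_ball (by linarith))) (Eventually.of_forall (fun w => by positivity)) ?_
    refine (ball_subset_closedBall.trans ?_).eventuallyLE
    refine closedBall_subset_closedBall' ?_
    linarith
  have h3 : (t / s) ^ (2 / K) = t ^ (2 / K) / s ^ (2 / K) := Real.div_rpow ht.le hs0.le _
  have h4 : (2 * (1 / K) : ℝ) = 2 / K := by ring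
  rw [h4]
  calc Dir qx qy y t ≤ (t / s) ^ (2 / K) * Dir qx qy y s := h1
    _ ≤ (t / s) ^ (2 / K) * D0 := by gcongr
    _ = D0 / s ^ (2 / K) * t ^ (2 / K) := by rw [h3]; ring

end Pool.Agent.W796.PH
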