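import Mathlib
import Pool.Agent.W796.PH.Reg

set_option autoImplicit false

/-! Continuous representative of the gradient of a p-harmonic function. -/

namespace Pool.Agent.W796.PH

open MeasureTheory Metric Set Filter Topology Complex
open scoped ENNReal ContDiff ComplexConjugate
open Pool.Agent.Helper366.IV

/-- an almost everywhere bound of continuous functions on a ball holds everywhere -/
theorem le_of_ae_ball {c : ℂ} {ρ : ℝ} {f g : ℂ → ℂ} {C : ℝ} (hf : ContinuousOn f (ball c ρ))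
    (hg : ContinuousOn g (ball c ρ)) (h : ∀ᵐ z ∂(volume.restrict (ball c ρ)), ‖f z - g z‖ ≤ C) :
    ∀ z ∈ ball c ρ, ‖f z - g z‖ ≤ C := by
  intro z hz
  by_contra hcon
  have hcon : C < ‖f z - g z‖ := not_le.1 hcon
  have hcont : ContinuousOn (fun z => ‖f z - g z‖) (ball c ρ) := (hf.sub hg).norm
  have h1 : {w | w ∈ ball c ρ ∧ C < ‖f w - g w‖} ∈ 𝓝 z := by
    have h2 := hcont.continuousAt (isOpen_ball.mem_nhds hz)
    filter_upwards [isOpen_ball.mem_nhds hz, h2.eventually (lt_mem_nhds hcon)] with w hw1 hw2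
    exact ⟨hw1, hw2⟩
  have h3 : volume {w | w ∈ ball c ρ ∧ C < ‖f w - g w‖} = 0 := by
    have h4 := (ae_restrict_iff' measurableSet_ball).1 h
    rw [ae_iff] at h4
    refine measure_mono_null ?_ h4
    intro w hw
    simp only [mem_ofPred_eq, Classical.not_imp, not_le]
    exact hw
  have h5 : 0 < volume {w | w ∈ ball c ρ ∧ C < ‖f w - g w‖} := Measure.measure_pos_of_mem_nhds volume h1
  exact h5.ne' h3

/-- uniform limits: a function which is, for every `η > 0`, within `η` of a function with a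
continuous representative has a continuous representative -/
theorem exists_cont_of_approx {c : ℂ} {ρ : ℝ} {f : ℂ → ℂ}
    (h : ∀ η : ℝ, 0 < η → ∃ q q' : ℂ → ℂ, (∀ z, ‖q z - f z‖ ≤ η) ∧ ContinuousOn q' (ball c ρ) ∧
      ∀ᵐ z ∂(volume.restrict (ball c ρ)), q z = q' z) :
    ∃ f' : ℂ → ℂ, ContinuousOn f' (ball c ρ) ∧
      ∀ᵐ z ∂(volume.restrict (ball c ρ)), f z = f' z := by
  have hpos : ∀ n : ℕ, (0 : ℝ) < (1 / 2) ^ n := fun n => by positivity
  choose q q' hq hc hae using fun n : ℕ => h ((1 / 2) ^ n) (hpos n)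
  have hdiff : ∀ n m : ℕ, ∀ z ∈ ball c ρ, ‖q' n z - q' m z‖ ≤ (1 / 2) ^ n + (1 / 2) ^ m := by
    intro n m
    refine le_of_ae_ball (hc n) (hc m) ?_
    filter_upwards [hae n, hae m] with z h1 h2
    rw [← h1, ← h2]
    have e : q n z - q m z = (q n z - f z) - (q m z - f z) := by ring
    rw [e]
    exact (norm_sub_le _ _).trans (add_le_add (hq n z) (hq m z))
  have hlim0 : Tendsto (fun n : ℕ => ((1 / 2) ^ n : ℝ)) atTop (𝓝 0) :=
    tendsto_pow_atTop_nhds_zero_of_lt_one (by norm_num) (by norm_num)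
  have hcau : ∀ z ∈ ball c ρ, ∃ l, Tendsto (fun n => q' n z) atTop (𝓝 l) := by
    intro z hz
    refine cauchySeq_tendsto_of_complete ?_
    refine cauchySeq_of_le_tendsto_0 (fun n => 2 * (1 / 2) ^ n) ?_ ?_
    · intro n m N hn hm
      rw [dist_eq_norm]
      refine (hdiff n m z hz).trans ?_
      have h1 : ((1 / 2) ^ n : ℝ) ≤ (1 / 2) ^ N :=
        pow_le_pow_of_le_one (by norm_num) (by norm_num) hn
      have h2 : ((1 / 2) ^ m : ℝ) ≤ (1 / 2) ^ N :=
        pow_le_pow_of_le_one (by norm_num) (by norm_num) hm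
      linarith
    · simpa using hlim0.const_mul 2
  choose! f' hf' using hcau
  refine ⟨f', ?_, ?_⟩
  · have hu : TendstoUniformlyOn q' f' atTop (ball c ρ) := by
      rw [Metric.tendstoUniformlyOn_iff]
      intro ε hε
      have h1 : ∀ᶠ n : ℕ in atTop, ((1 / 2) ^ n : ℝ) < ε := (tendsto_order.1 hlim0).2 ε hε
      filter_upwards [h1] with n hn z hz
      refine lt_of_le_of_lt ?_ hn
      rw [dist_eq_norm]
      have h2 : Tendsto (fun m => ‖q' m z - q' n z‖) atTop (𝓝 ‖f' z - q' n z‖) :=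
        ((hf' z hz).sub_const _).norm
      have h3 : Tendsto (fun m : ℕ => ((1 / 2) ^ m + (1 / 2) ^ n : ℝ)) atTop
          (𝓝 (0 + (1 / 2) ^ n)) := hlim0.add_const _
      rw [zero_add] at h3
      exact le_of_tendsto_of_tendsto' h2 h3 (fun m => hdiff m n z hz)
    exact hu.continuousOn (Eventually.of_forall (fun n => hc n)).frequently
  · have h1 : ∀ᵐ z ∂(volume.restrict (ball c ρ)), ∀ n, q n z = q' n z := ae_all_iff.2 hae
    filter_upwards [h1, self_mem_ae_restrict measurableSet_ball] with z hz hzb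
    have h2 : Tendsto (fun n => q n z) atTop (𝓝 (f z)) := by
      rw [tendsto_iff_norm_sub_tendsto_zero]
      exact squeeze_zero (fun n => norm_nonneg _) (fun n => hq n z) hlim0
    have h3 : Tendsto (fun n => q n z) atTop (𝓝 (f' z)) := by
      refine (hf' z hzb).congr (fun n => (hz n).symm)
    exact tendsto_nhds_unique h2 h3

/-- everything about the continuous representative -/
structure Rep (p : ℝ) (U : Set ℂ) (G' Vx Vy : ℂ → ℂ) : Prop where
  cont : ContinuousOn G' U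
  app : ∀ η : ℝ, 0 < η → ∃ q qx qy : ℂ → ℂ, W U q qx qy ∧ QR ((p - 1) + 1 / (p - 1)) U qx qy ∧
    ∀ z, ‖q z - conj (G' z)‖ ≤ η
  wV : W U (fun z => pw ((p - 2) / 2) (G' z)) Vx Vy
  str : Str p U (fun z => pw ((p - 2) / 2) (G' z)) Vx Vy

theorem exists_Rep (hDQ : S_DQ) (hRi : S_Riesz) (hWS : S_WeakSW) (hCh : S_Chain) (hSt : S_Str)
    (hQA : S_QRAlg) (hP : S_PdDer) (hG : S_Grow) (hH : S_Hold)
    {p : ℝ} (hp : 2 ≤ p) {Ω : Set ℂ}
    {h : ℂ → ℝ} {G : ℂ → ℂ} (hΩ : IsOpen Ω) (hh : PHarm p Ω h G) {c : ℂ} {r ρ : ℝ} (hρ : 0 < ρ)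
    (hρr : ρ < r) (hB : closedBall c r ⊆ Ω) :
    ∃ G' Vx Vy : ℂ → ℂ, Rep p (ball c ρ) G' Vx Vy ∧
      ∀ᵐ z ∂(volume.restrict (ball c ρ)), G z = G' z := by
  have hp0 : 0 < p := by linarith
  have he0 : 2 / p - 1 ≤ 0 := by
    have : 2 / p ≤ 1 := by
      rw [div_le_one hp0]
      exact hp
    linarith
  have he1 : -1 < 2 / p - 1 := by
    have : 0 < 2 / p := by positivity
    linarith
  have hr : 0 < r := hρ.trans hρr
  obtain ⟨Vx, Vy, hV⟩ := V_SW hDQ hRi hWS hp hΩ hh hr hB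
  have hStr := hSt p hp Ω h G hΩ hh (ball c r) isOpen_ball (ball_subset_closedBall.trans hB) Vx Vy hV
  set V : ℂ → ℂ := fun z => pw ((p - 2) / 2) (G z) with hVdef
  -- the regularised maps
  have hF : ∀ δ : ℝ, 0 < δ → SW (ball c r) (fun z => Th (2 / p - 1) δ (V z))
      (fun z => fderiv ℝ (Th (2 / p - 1) δ) (V z) (Vx z))
      (fun z => fderiv ℝ (Th (2 / p - 1) δ) (V z) (Vy z)) := by
    intro δ hδ
    exact hCh (ball c r) V Vx Vy isOpen_ball hV (Th (2 / p - 1) δ) (2 * δ ^ (2 / p - 1))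
      (Th_smooth hP _ hδ) (Th_bound hP he1 he0 hδ)
  have hQR : ∀ δ : ℝ, 0 < δ → QR ((p - 1) + 1 / (p - 1)) (ball c r)
      (fun z => fderiv ℝ (Th (2 / p - 1) δ) (V z) (Vx z))
      (fun z => fderiv ℝ (Th (2 / p - 1) δ) (V z) (Vy z)) := by
    intro δ hδ
    exact qr_Th hP hQA hp hStr hδ
  -- closeness
  have hclose : ∀ η : ℝ, 0 < η → ∃ δ : ℝ, 0 < δ ∧ ∀ g : ℂ,
      ‖Th (2 / p - 1) δ (pw ((p - 2) / 2) g) - conj g‖ ≤ η := by
    intro η hη
    refine ⟨η ^ (p / 2), by positivity, ?_⟩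
    intro g
    have h1 := pd_close he1 he0 (δ := η ^ (p / 2)) (by positivity) (pw ((p - 2) / 2) g)
    rw [pw_inv p hp] at h1
    have h2 : (η ^ (p / 2)) ^ (1 + (2 / p - 1)) = η := by
      rw [← Real.rpow_mul hη.le]
      have : p / 2 * (1 + (2 / p - 1)) = 1 := by
        field_simp
        ring
      rw [this, Real.rpow_one]
    rw [h2] at h1
    unfold Th
    rw [← map_sub, Complex.norm_conj]
    exact h1
  -- continuous representative of `conj G`
  obtain ⟨f', hf', hfae⟩ := exists_cont_of_approx (c := c) (ρ := ρ) (f := fun z => conj (G z)) (by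
    intro η hη
    obtain ⟨δ, hδ, hcl⟩ := hclose η hη
    obtain ⟨q', hq', hqae⟩ := SW.exists_cont hG hH (hF δ hδ) (by linarith : 1 ≤ p - 1) (hQR δ hδ)
      hρ hρr
    exact ⟨_, q', fun z => hcl (G z), hq', hqae⟩)
  have hG'c : ContinuousOn (fun z => conj (f' z)) (ball c ρ) :=
    Complex.continuous_conj.comp_continuousOn hf'
  have hGae : ∀ᵐ z ∂(volume.restrict (ball c ρ)), G z = conj (f' z) := by
    filter_upwards [hfae] with z hz
    rw [← hz, Complex.conj_conj]
  have hsub : closedBall c ρ ⊆ ball c r := closedBall_subset_ball hρr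
  have hsub' : ball c ρ ⊆ ball c r := ball_subset_closedBall.trans hsub
  refine ⟨fun z => conj (f' z), Vx, Vy, ⟨hG'c, ?_, ?_, ?_⟩, hGae⟩
  · intro η hη
    obtain ⟨δ, hδ, hcl⟩ := hclose η hη
    refine ⟨fun z => Th (2 / p - 1) δ (pw ((p - 2) / 2) (conj (f' z))), _, _,
      SW.toW (hF δ hδ) hsub _ ?_ ?_, ae_mono (Measure.restrict_mono hsub' le_rfl) (hQR δ hδ),
      fun z => hcl _⟩
    · exact (Th_smooth hP _ hδ).continuous.comp_continuousOn
        ((pw_cont (by linarith)).comp_continuousOn hG'c)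
    · filter_upwards [hGae] with z hz
      rw [hVdef]
      simp only
      rw [hz]
  · refine SW.toW hV hsub _ ((pw_cont (by linarith)).comp_continuousOn hG'c) ?_
    filter_upwards [hGae] with z hz
    rw [hVdef]
    simp only
    rw [hz]
  · have hS1 := ae_mono (Measure.restrict_mono hsub' le_rfl) hStr.1
    have hS2 := ae_mono (Measure.restrict_mono hsub' le_rfl) hStr.2
    constructor
    · filter_upwards [hS1, hGae] with z h1 hz
      rw [hVdef] at h1
      simp only at h1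
      rw [hz] at h1
      exact h1
    · filter_upwards [hS2, hGae] with z h1 hz
      rw [hVdef] at h1
      simp only at h1
      rw [hz] at h1
      exact h1

end Pool.Agent.W796.PH
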