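import Mathlib
import Pool.Agent.W796.PH.Rep
import Pool.Agent.W796.PH.Defs2

set_option autoImplicit false

/-! Mean value estimate and Hölder estimate for the gradient. -/

namespace Pool.Agent.W796.PH

open MeasureTheory Metric Set Filter Topology Complex
open scoped ENNReal ContDiff ComplexConjugate
open Pool.Agent.Helper366.IV
open Pool.Agent.W796.PH.CaccL

theorem norm_sub_conj (x y : ℂ) : ‖conj x - conj y‖ = ‖x - y‖ := by
  rw [← map_sub, Complex.norm_conj]

theorem Rep.mean (hM : S_Mean) {p : ℝ} (hp : 2 ≤ p) : ∃ C : ℝ, 0 < C ∧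
    ∀ (U : Set ℂ) (G' Vx Vy : ℂ → ℂ), IsOpen U → Rep p U G' Vx Vy →
    ∀ (c : ℂ) (r : ℝ), 0 < r → closedBall c r ⊆ U → ∀ a : ℂ, ∀ z ∈ closedBall c (r / 2),
      ‖G' z - a‖ ≤ C / r ^ 2 * ∫ w in closedBall c r, ‖G' w - a‖ := by
  have hK0 : 0 < (p - 1) + 1 / (p - 1) := by
    have : 0 < p - 1 := by linarith
    positivity
  obtain ⟨C1, hC1, hC⟩ := hM _ hK0
  refine ⟨4 * C1, by positivity, ?_⟩
  intro U G' Vx Vy hU hR c r hr hB a z hz
  have hfin : volume (closedBall c r) < ⊤ := (isCompact_closedBall c r).measure_lt_top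
  refine le_of_forall_pos_le_add ?_
  intro ε hε
  set η : ℝ := ε / (1 + 4 * Real.pi * C1) with hη
  have hη0 : 0 < η := by positivity
  obtain ⟨q, qx, qy, hq, hQ, hcl⟩ := hR.app η hη0
  have h1 := hC U q qx qy hU hq hQ c (r / 2) (conj a) (by positivity)
    (by rw [show 2 * (r / 2) = r by ring]; exact hB) z hz
  rw [show 2 * (r / 2) = r by ring] at h1
  have hi1 : IntegrableOn (fun w => ‖q w - conj a‖) (closedBall c r) :=
    ((hq.cont.mono hB).sub continuousOn_const).norm.integrableOn_compact (isCompact_closedBall c r)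
  have hi2 : IntegrableOn (fun w => ‖G' w - a‖) (closedBall c r) :=
    ((hR.cont.mono hB).sub continuousOn_const).norm.integrableOn_compact (isCompact_closedBall c r)
  have h2 : ∫ w in closedBall c r, ‖q w - conj a‖ ≤
      (∫ w in closedBall c r, ‖G' w - a‖) + η * (Real.pi * r ^ 2) := by
    have e1 : ∫ w in closedBall c r, (η : ℝ) = η * (Real.pi * r ^ 2) := by
      rw [setIntegral_const]
      have := vol_ball c (r / 2) (by positivity)
      rw [show 2 * (r / 2) = r by ring] at this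
      rw [Measure.real, this, smul_eq_mul]
      ring
    rw [← e1, ← integral_add hi2 (integrableOn_const hfin.ne)]
    refine setIntegral_mono_on hi1 (hi2.add (integrableOn_const hfin.ne)) measurableSet_closedBall ?_
    intro w _
    have e2 : q w - conj a = (q w - conj (G' w)) + (conj (G' w) - conj a) := by ring
    rw [e2]
    refine (norm_add_le _ _).trans ?_
    rw [norm_sub_conj]
    have := hcl w
    linarith
  have h3 : ‖G' z - a‖ ≤ η + ‖q z - conj a‖ := by
    rw [← norm_sub_conj]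
    have e2 : conj (G' z) - conj a = -(q z - conj (G' z)) + (q z - conj a) := by ring
    rw [e2]
    refine (norm_add_le _ _).trans ?_
    rw [norm_neg]
    have := hcl z
    linarith
  have h4 : C1 / (r / 2) ^ 2 = 4 * C1 / r ^ 2 := by field_simp; ring
  rw [h4] at h1
  calc ‖G' z - a‖ ≤ η + ‖q z - conj a‖ := h3
    _ ≤ η + 4 * C1 / r ^ 2 * ∫ w in closedBall c r, ‖q w - conj a‖ := by linarith
    _ ≤ η + 4 * C1 / r ^ 2 * ((∫ w in closedBall c r, ‖G' w - a‖) + η * (Real.pi * r ^ 2)) := by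
      gcongr
    _ = 4 * C1 / r ^ 2 * (∫ w in closedBall c r, ‖G' w - a‖) + η * (1 + 4 * Real.pi * C1) := by
      field_simp
      ring
    _ = 4 * C1 / r ^ 2 * (∫ w in closedBall c r, ‖G' w - a‖) + ε := by
      rw [hη, div_mul_cancel₀ _ (by positivity)]

theorem Rep.hold (hC : S_Cacc) (hG : S_Grow) (hS : S_WeakSW) {p : ℝ} (hp : 2 ≤ p) :
    ∃ C : ℝ, 0 < C ∧ ∀ (U : Set ℂ) (G' Vx Vy : ℂ → ℂ), IsOpen U → Rep p U G' Vx Vy →
    ∀ (c : ℂ) (r S : ℝ), 0 < r → closedBall c r ⊆ U → ∀ a : ℂ,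
    (∀ w ∈ closedBall c r, ‖G' w - a‖ ≤ S) →
    ∀ z ∈ closedBall c (r / 2), ∀ z' ∈ closedBall c (r / 2),
      ‖G' z - G' z'‖ ≤ C * (‖z - z'‖ / r) ^ (1 / (p - 1)) * S := by
  obtain ⟨C1, hC1, hH⟩ := W.holder hC hG hS (p - 1) (by linarith)
  refine ⟨C1, hC1, ?_⟩
  intro U G' Vx Vy hU hR c r S hr hB a hSup z hz z' hz'
  have hx : 0 ≤ (‖z - z'‖ / r) ^ (1 / (p - 1)) := by positivity
  refine le_of_forall_pos_le_add ?_
  intro ε hε
  set η : ℝ := ε / (2 + C1 * (‖z - z'‖ / r) ^ (1 / (p - 1))) with hη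
  have hη0 : 0 < η := by positivity
  obtain ⟨q, qx, qy, hq, hQ, hcl⟩ := hR.app η hη0
  have h1 := hH U q qx qy hU hq hQ c r (S + η) hr hB (conj a) (by
    intro w hw
    have e2 : q w - conj a = (q w - conj (G' w)) + (conj (G' w) - conj a) := by ring
    rw [e2]
    refine (norm_add_le _ _).trans ?_
    rw [norm_sub_conj]
    have := hcl w
    have := hSup w hw
    linarith) z hz z' hz'
  have h3 : ‖G' z - G' z'‖ ≤ 2 * η + ‖q z - q z'‖ := by
    rw [← norm_sub_conj]
    have e2 : conj (G' z) - conj (G' z') =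
        -(q z - conj (G' z)) + (q z - q z') + (q z' - conj (G' z')) := by ring
    rw [e2]
    refine (norm_add_le _ _).trans ?_
    have h5 := norm_add_le (-(q z - conj (G' z))) (q z - q z')
    rw [norm_neg] at h5
    have := hcl z
    have := hcl z'
    linarith
  calc ‖G' z - G' z'‖ ≤ 2 * η + C1 * (‖z - z'‖ / r) ^ (1 / (p - 1)) * (S + η) := by linarith
    _ = C1 * (‖z - z'‖ / r) ^ (1 / (p - 1)) * S +
        η * (2 + C1 * (‖z - z'‖ / r) ^ (1 / (p - 1))) := by ring
    _ = _ := by rw [hη, div_mul_cancel₀ _ (by positivity)]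

end Pool.Agent.W796.PH
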