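import Mathlib
import Pool.Agent.W796.PH.Rep
import Pool.Agent.Helper366.IV.Compz

set_option autoImplicit false

/-! Nondegenerate regime, preparations: linear maps, compositions. -/

namespace Pool.Agent.W796.PH

open MeasureTheory Metric Set Filter Topology Complex
open scoped ENNReal ContDiff ComplexConjugate
open Pool.Agent.Helper366.IV

theorem fr_real (k l : ℝ) (n w : ℂ) : fr k n ((l : ℂ) * w) = (l : ℂ) * fr k n w := by
  unfold fr
  have : (conj n * ((l : ℂ) * w)).re = l * (conj n * w).re := by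
    have e : conj n * ((l : ℂ) * w) = (l : ℂ) * (conj n * w) := by ring
    rw [e, re_ofReal_mul]
  rw [this]
  push_cast
  ring

theorem fr_fr (k l : ℝ) {n : ℂ} (hn : ‖n‖ = 1) (w : ℂ) : fr k n (fr l n w) = fr (k * l) n w := by
  unfold fr
  have hnn : conj n * n = 1 := by
    rw [← Complex.normSq_eq_conj_mul_self, Complex.normSq_eq_norm_sq, hn]
    simp
  have h1 : (conj n * (w + (((l - 1) * (conj n * w).re : ℝ) : ℂ) * n)).re =
      l * (conj n * w).re := by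
    have e : conj n * (w + (((l - 1) * (conj n * w).re : ℝ) : ℂ) * n) =
        conj n * w + (((l - 1) * (conj n * w).re : ℝ) : ℂ) * (conj n * n) := by ring
    rw [e, hnn, mul_one, add_re, ofReal_re]
    ring
  rw [h1]
  push_cast
  ring

/-- the map `g ↦ s Re(m̄ g) - i Im(m̄ g)` -/
noncomputable def Tl (s : ℝ) (m : ℂ) : ℂ →ₗ[ℝ] ℂ where
  toFun g := ((s * (conj m * g).re : ℝ) : ℂ) - (((conj m * g).im : ℝ) : ℂ) * I
  map_add' x y := by
    simp only [mul_add, add_re, add_im]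
    push_cast
    ring
  map_smul' r x := by
    simp only [real_smul, RingHom.id_apply]
    have e : conj m * ((r : ℂ) * x) = (r : ℂ) * (conj m * x) := by ring
    rw [e, re_ofReal_mul, im_ofReal_mul]
    push_cast
    ring

noncomputable def Tc (s : ℝ) (m : ℂ) : ℂ →L[ℝ] ℂ := LinearMap.toContinuousLinearMap (Tl s m)

theorem Tc_apply (s : ℝ) (m g : ℂ) :
    Tc s m g = ((s * (conj m * g).re : ℝ) : ℂ) - (((conj m * g).im : ℝ) : ℂ) * I := rfl

theorem Tc_normSq (s : ℝ) (m g : ℂ) :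
    ‖Tc s m g‖ ^ 2 = s ^ 2 * (conj m * g).re ^ 2 + (conj m * g).im ^ 2 := by
  rw [Tc_apply, ← Complex.normSq_eq_norm_sq, Complex.normSq_apply]
  simp
  ring

theorem norm_conj_mul (m g : ℂ) (hm : ‖m‖ = 1) :
    ‖g‖ ^ 2 = (conj m * g).re ^ 2 + (conj m * g).im ^ 2 := by
  have h : ‖conj m * g‖ = ‖g‖ := by rw [norm_mul, Complex.norm_conj, hm, one_mul]
  rw [← h, ← Complex.normSq_eq_norm_sq, Complex.normSq_apply]
  ring

theorem Tc_lower {s : ℝ} (hs : 1 ≤ s) {m : ℂ} (hm : ‖m‖ = 1) (g : ℂ) : ‖g‖ ≤ ‖Tc s m g‖ := by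
  refine (sq_le_sq₀ (norm_nonneg _) (norm_nonneg _)).1 ?_
  rw [Tc_normSq, norm_conj_mul m g hm]
  have : 1 ≤ s ^ 2 := by nlinarith
  nlinarith [sq_nonneg (conj m * g).re]

theorem Tc_upper {s : ℝ} (hs : 1 ≤ s) {m : ℂ} (hm : ‖m‖ = 1) (g : ℂ) :
    ‖Tc s m g‖ ≤ s * ‖g‖ := by
  refine (sq_le_sq₀ (norm_nonneg _) (by positivity)).1 ?_
  rw [Tc_normSq, mul_pow, norm_conj_mul m g hm]
  have : 1 ≤ s ^ 2 := by nlinarith
  nlinarith [sq_nonneg (conj m * g).im]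

/-- the map `w ↦ m (s Re w + i Im w)` -/
noncomputable def Ll (s : ℝ) (hs : s ≠ 0) (m : ℂ) (hm : ‖m‖ = 1) : ℂ ≃ₗ[ℝ] ℂ where
  toFun w := m * (((s * w.re : ℝ) : ℂ) + ((w.im : ℝ) : ℂ) * I)
  map_add' x y := by
    simp only [add_re, add_im]
    push_cast
    ring
  map_smul' r x := by
    simp only [real_smul, RingHom.id_apply, re_ofReal_mul, im_ofReal_mul]
    push_cast
    ring
  invFun z := (((conj m * z).re / s : ℝ) : ℂ) + (((conj m * z).im : ℝ) : ℂ) * I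
  left_inv w := by
    have hmm : conj m * m = 1 := by
      rw [← Complex.normSq_eq_conj_mul_self, Complex.normSq_eq_norm_sq, hm]
      simp
    have e : conj m * (m * (((s * w.re : ℝ) : ℂ) + ((w.im : ℝ) : ℂ) * I)) =
        (((s * w.re : ℝ) : ℂ) + ((w.im : ℝ) : ℂ) * I) := by
      rw [← mul_assoc, hmm, one_mul]
    beta_reduce
    rw [e]
    apply Complex.ext
    · simp
      field_simp
    · simp
  right_inv z := by
    have hmm : m * conj m = 1 := by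
      rw [mul_comm, ← Complex.normSq_eq_conj_mul_self, Complex.normSq_eq_norm_sq, hm]
      simp
    have e : (((s * ((((conj m * z).re / s : ℝ) : ℂ) + (((conj m * z).im : ℝ) : ℂ) * I).re : ℝ) : ℂ) +
        ((((((conj m * z).re / s : ℝ) : ℂ) + (((conj m * z).im : ℝ) : ℂ) * I).im : ℝ) : ℂ) * I) =
        conj m * z := by
      apply Complex.ext
      · simp
        field_simp
      · simp
    beta_reduce
    rw [e, ← mul_assoc, hmm, one_mul]

noncomputable def Lc (s : ℝ) (hs : s ≠ 0) (m : ℂ) (hm : ‖m‖ = 1) : ℂ ≃L[ℝ] ℂ :=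
  (Ll s hs m hm).toContinuousLinearEquiv

theorem Lc_apply (s : ℝ) (hs : s ≠ 0) (m : ℂ) (hm : ‖m‖ = 1) (w : ℂ) :
    Lc s hs m hm w = m * (((s * w.re : ℝ) : ℂ) + ((w.im : ℝ) : ℂ) * I) := rfl

theorem Lc_one (s : ℝ) (hs : s ≠ 0) (m : ℂ) (hm : ‖m‖ = 1) : Lc s hs m hm 1 = s * m := by
  rw [Lc_apply]
  simp
  ring

theorem Lc_I (s : ℝ) (hs : s ≠ 0) (m : ℂ) (hm : ‖m‖ = 1) : Lc s hs m hm I = m * I := by
  rw [Lc_apply]
  simp

theorem Lc_normSq (s : ℝ) (hs : s ≠ 0) (m : ℂ) (hm : ‖m‖ = 1) (w : ℂ) :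
    ‖Lc s hs m hm w‖ ^ 2 = s ^ 2 * w.re ^ 2 + w.im ^ 2 := by
  rw [Lc_apply, norm_mul, hm, one_mul, ← Complex.normSq_eq_norm_sq, Complex.normSq_apply]
  simp
  ring

theorem Lc_lower {s : ℝ} (hs : s ≠ 0) (hs1 : 1 ≤ s) {m : ℂ} (hm : ‖m‖ = 1) (w : ℂ) :
    ‖w‖ ≤ ‖Lc s hs m hm w‖ := by
  refine (sq_le_sq₀ (norm_nonneg _) (norm_nonneg _)).1 ?_
  rw [Lc_normSq, ← Complex.normSq_eq_norm_sq, Complex.normSq_apply]
  have : 1 ≤ s ^ 2 := by nlinarith
  nlinarith [sq_nonneg w.re]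

theorem Lc_upper {s : ℝ} (hs : s ≠ 0) (hs1 : 1 ≤ s) {m : ℂ} (hm : ‖m‖ = 1) (w : ℂ) :
    ‖Lc s hs m hm w‖ ≤ s * ‖w‖ := by
  refine (sq_le_sq₀ (norm_nonneg _) (by positivity)).1 ?_
  rw [Lc_normSq, mul_pow, ← Complex.normSq_eq_norm_sq, Complex.normSq_apply]
  have : 1 ≤ s ^ 2 := by nlinarith
  nlinarith [sq_nonneg w.im]

/-- almost everywhere statements are preserved by affine changes of variables -/
theorem ae_comp_affine (L : ℂ ≃L[ℝ] ℂ) (y : ℂ) {B : Set ℂ} (hB : MeasurableSet B) {P : ℂ → Prop}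
    (h : ∀ᵐ z ∂(volume.restrict B), P z) :
    ∀ᵐ w ∂(volume.restrict ((fun w => y + L w) ⁻¹' B)), P (y + L w) := by
  have hdet : (L : ℂ →L[ℝ] ℂ).det ≠ 0 := by
    have h1 : LinearMap.det ((L : ℂ →L[ℝ] ℂ) : ℂ →ₗ[ℝ] ℂ) ≠ 0 :=
      LinearEquiv.isUnit_det' L.toLinearEquiv |>.ne_zero
    exact h1
  have hq1 : Measure.QuasiMeasurePreserving (fun w : ℂ => L w) volume volume :=
    Measure.ContinuousLinearMap.quasiMeasurePreserving volume (L : ℂ →L[ℝ] ℂ) hdet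
  have hq2 : Measure.QuasiMeasurePreserving (fun w : ℂ => y + w) volume volume :=
    (measurePreserving_add_left volume y).quasiMeasurePreserving
  have hq : Measure.QuasiMeasurePreserving (fun w : ℂ => y + L w) volume volume := hq2.comp hq1
  rw [ae_restrict_iff' hB] at h
  have hm : MeasurableSet ((fun w => y + L w) ⁻¹' B) := hq.measurable hB
  rw [ae_restrict_iff' hm]
  exact hq.ae h

/-- composition of a `W` map with a linear map -/
theorem W.compL {U : Set ℂ} {q qx qy : ℂ → ℂ} (hU : IsOpen U) (h : W U q qx qy) (T : ℂ →L[ℝ] ℂ) :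
    W U (fun z => T (q z)) (fun z => T (qx z)) (fun z => T (qy z)) := by
  have hd : ∀ p v : ℂ × ℂ, fderiv ℝ (fun p : ℂ × ℂ => T p.2) p v = T v.2 := by
    intro p v
    have h1 : HasFDerivAt (fun p : ℂ × ℂ => T p.2)
        (T.comp (ContinuousLinearMap.snd ℝ ℂ ℂ)) p :=
      T.hasFDerivAt.comp p hasFDerivAt_snd
    rw [h1.fderiv]
    rfl
  have h1 := W.compz hU h (fun p : ℂ × ℂ => T p.2)
    (fun z _ => (T.contDiff.comp contDiff_snd).contDiffAt)
  simp only [hd] at h1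
  exact h1

/-- composition of a `W` map without zeros with a radial power map -/
theorem W.comp_pw (hP : S_PdDer) {U : Set ℂ} {q qx qy : ℂ → ℂ} (hU : IsOpen U) (h : W U q qx qy)
    (e : ℝ) (h0 : ∀ z ∈ U, q z ≠ 0) :
    W U (fun z => pw e (q z))
      (fun z => ((‖q z‖ ^ e : ℝ) : ℂ) * fr (1 + e) (q z / ‖q z‖) (qx z))
      (fun z => ((‖q z‖ ^ e : ℝ) : ℂ) * fr (1 + e) (q z / ‖q z‖) (qy z)) := by
  have h1 := W.compz hU h (fun p : ℂ × ℂ => pw e p.2) (by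
    intro z hz
    have h2 : ContDiffAt ℝ 2 (pw e) (q z) :=
      contDiffAt_infty.1 (hP.2 e (q z) (h0 z hz)).1 2
    exact ContDiffAt.comp (z, q z) (f := fun p : ℂ × ℂ => p.2) (g := pw e) h2
      contDiff_snd.contDiffAt)
  have hd : ∀ z ∈ U, ∀ u w : ℂ, fderiv ℝ (fun p : ℂ × ℂ => pw e p.2) (z, q z) (u, w) =
      ((‖q z‖ ^ e : ℝ) : ℂ) * fr (1 + e) (q z / ‖q z‖) w := by
    intro z hz u w
    obtain ⟨h2, h3⟩ := hP.2 e (q z) (h0 z hz)
    have h4 : HasFDerivAt (fun p : ℂ × ℂ => pw e p.2)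
        ((fderiv ℝ (pw e) (q z)).comp (ContinuousLinearMap.snd ℝ ℂ ℂ)) (z, q z) := by
      have h5 : HasFDerivAt (pw e) (fderiv ℝ (pw e) (q z)) (q z) :=
        (h2.differentiableAt (by simp)).hasFDerivAt
      exact HasFDerivAt.comp (z, q z) (f := fun p : ℂ × ℂ => p.2) (g := pw e) h5 hasFDerivAt_snd
    rw [h4.fderiv]
    show fderiv ℝ (pw e) (q z) w = _
    exact h3 w
  refine h1.congr (fun z _ => rfl) (fun z hz => ?_) (fun z hz => ?_)
  · exact hd z hz _ _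
  · exact hd z hz _ _

theorem QR.le_const {κ κ' : ℝ} {U : Set ℂ} {qx qy : ℂ → ℂ} (h : QR κ U qx qy) (hκ : 0 < κ)
    (hκ' : κ ≤ κ') : QR κ' U qx qy := by
  unfold QR at h ⊢
  filter_upwards [h] with z hz
  have h1 : 0 ≤ ‖qx z‖ ^ 2 + ‖qy z‖ ^ 2 := by positivity
  have h2 : 0 ≤ Jac qx qy z := by
    by_contra hcon
    have : Jac qx qy z < 0 := not_le.1 hcon
    nlinarith
  nlinarith

end Pool.Agent.W796.PH
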