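import Mathlib
import Pool.Agent.W796.PH.NdA
import Pool.Agent.W796.PH.EstA

set_option autoImplicit false

/-! Nondegenerate regime: linear decay at points where the gradient is large. -/

namespace Pool.Agent.W796.PH

open MeasureTheory Metric Set Filter Topology Complex
open scoped ENNReal ContDiff ComplexConjugate
open Pool.Agent.Helper366.IV

theorem nd_alg1 (E C0 d ρ s σ : ℝ) (hE : 0 ≤ E) (hC0 : 0 ≤ C0) (hρ : 0 < ρ) :
    E * (4 * d / (ρ / 4)) ^ 2 * (4 * Real.pi * C0 * (s * σ) ^ 2) =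
      (16 * (d / ρ) * (Real.sqrt (E * (4 * Real.pi * C0)) * (s * σ))) ^ 2 := by
  rw [mul_pow (16 * (d / ρ)), mul_pow (Real.sqrt (E * (4 * Real.pi * C0))),
    Real.sq_sqrt (by positivity)]
  have : 4 * d / (ρ / 4) = 16 * (d / ρ) := by
    field_simp
    ring
  rw [this]
  ring

theorem nd_alg2 (B d r s σ : ℝ) (hr : 0 < r) (hs : 0 < s) :
    8 * (16 * (d / (r / (4 * s))) * (B * (s * σ))) = 8 * 16 * 4 * s * s * B * (d / r) * σ := by
  have : d / (r / (4 * s)) = 4 * s * (d / r) := by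
    field_simp
  rw [this]
  ring

theorem nd_alg3 (B d x r s σ : ℝ) (hr : 0 < r) (hs : 0 < s) (hB : 0 ≤ B) (hσ : 0 ≤ σ)
    (hd : 0 ≤ d) (hdx : d ≤ x) :
    8 * 16 * 4 * s * s * B * (d / r) * σ ≤ (64 * s + 8 * 16 * 4 * s * s * B) * (x / r) * σ := by
  have h1 : d / r ≤ x / r := by gcongr
  have h2 : 0 ≤ d / r := by positivity
  gcongr
  linarith

theorem nd_alg4 (B x r s σ : ℝ) (hr : 0 < r) (hs : 0 < s) (hB : 0 ≤ B) (hσ : 0 ≤ σ)
    (hx : r / (64 * s) ≤ x) :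
    σ ≤ (64 * s + 8 * 16 * 4 * s * s * B) * (x / r) * σ := by
  have hx0 : 0 < x := lt_of_lt_of_le (by positivity) hx
  have h2 : 1 ≤ 64 * s * (x / r) := by
    rw [mul_div_assoc', le_div_iff₀ hr, one_mul]
    rw [div_le_iff₀ (by positivity)] at hx
    linarith
  have h3 : 0 ≤ 8 * 16 * 4 * s * s * B * (x / r) := by positivity
  nlinarith

theorem unit_diff {g g' : ℂ} (hg : g ≠ 0) (hg' : g' ≠ 0) :
    ‖g / (‖g‖ : ℂ) - g' / (‖g'‖ : ℂ)‖ ≤ 2 * ‖g - g'‖ / ‖g'‖ := by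
  have h0 : 0 < ‖g‖ := norm_pos_iff.2 hg
  have h0' : 0 < ‖g'‖ := norm_pos_iff.2 hg'
  have h1 : (‖g‖ : ℂ) ≠ 0 := by exact_mod_cast h0.ne'
  have h1' : (‖g'‖ : ℂ) ≠ 0 := by exact_mod_cast h0'.ne'
  have e : g / (‖g‖ : ℂ) - g' / (‖g'‖ : ℂ) =
      (g / (‖g‖ : ℂ)) * (((‖g'‖ - ‖g‖ : ℝ) : ℂ) / (‖g'‖ : ℂ)) + (g - g') / (‖g'‖ : ℂ) := by
    push_cast
    field_simp
    ring
  rw [e]
  refine (norm_add_le _ _).trans ?_
  have h2 : ‖g / (‖g‖ : ℂ)‖ = 1 := by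
    rw [norm_div, Complex.norm_real, norm_norm]
    exact div_self h0.ne'
  have h3 : |‖g'‖ - ‖g‖| ≤ ‖g - g'‖ := by
    rw [abs_sub_comm]
    exact abs_norm_sub_norm_le g g'
  rw [norm_mul, h2, one_mul, norm_div, norm_div, Complex.norm_real, Complex.norm_real, norm_norm,
    Real.norm_eq_abs, ← add_div]
  gcongr
  linarith

/-- the gradient itself is in `W` where it does not vanish, with the equations for its
derivatives -/
theorem Rep.grad (hP : S_PdDer) {p : ℝ} (hp : 2 ≤ p) {U : Set ℂ} {G' Vx Vy : ℂ → ℂ}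
    (hR : Rep p U G' Vx Vy) {B : Set ℂ} (hBo : IsOpen B) (hB : B ⊆ U)
    (h0 : ∀ z ∈ B, G' z ≠ 0) :
    ∃ a b : ℂ → ℂ, W B G' a b ∧ ∀ᵐ z ∂(volume.restrict B),
      (fr (p - 1) (G' z / ‖G' z‖) (a z)).re + (fr (p - 1) (G' z / ‖G' z‖) (b z)).im = 0 ∧
      (a z).im = (b z).re := by
  have hp0 : 0 < p := by linarith
  have hV0 : ∀ z ∈ B, pw ((p - 2) / 2) (G' z) ≠ 0 := fun z hz => pw_ne_zero (h0 z hz)
  have h1 := W.comp_pw hP hBo (hR.wV.mono hB) (2 / p - 1) hV0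
  refine ⟨_, _, h1.congr (fun z _ => pw_inv p hp (G' z)) (fun z _ => rfl) (fun z _ => rfl), ?_⟩
  have hs := ae_mono (Measure.restrict_mono hB le_rfl) hR.str.1
  filter_upwards [hs, self_mem_ae_restrict hBo.measurableSet] with z hz hzB
  have hG : G' z ≠ 0 := h0 z hzB
  have hn0 : 0 < ‖G' z‖ := norm_pos_iff.2 hG
  obtain ⟨e1, e2⟩ := hz (hV0 z hzB)
  have hn : pw ((p - 2) / 2) (G' z) / (‖pw ((p - 2) / 2) (G' z)‖ : ℂ) = G' z / ‖G' z‖ := by
    rw [norm_pw]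
    unfold pw
    have h3 : 0 < ‖G' z‖ ^ ((p - 2) / 2) := Real.rpow_pos_of_pos hn0 _
    have h4 : ((‖G' z‖ ^ ((p - 2) / 2) : ℝ) : ℂ) ≠ 0 := by exact_mod_cast h3.ne'
    have h5 : (‖G' z‖ : ℂ) ≠ 0 := by exact_mod_cast hn0.ne'
    rw [ofReal_mul]
    field_simp
  have hn1 : ‖G' z / (‖G' z‖ : ℂ)‖ = 1 := by
    rw [norm_div, Complex.norm_real, norm_norm]
    exact div_self hn0.ne'
  have hexp : 1 + (2 / p - 1) = 2 / p := by ring
  have hprod : (p - 1) * (2 / p) = 2 - 2 / p := by field_simp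
  rw [hn] at e1 e2 ⊢
  simp only [hexp]
  constructor
  · rw [fr_real, fr_real, fr_fr _ _ hn1, fr_fr _ _ hn1, hprod, re_ofReal_mul, im_ofReal_mul,
      ← mul_add, e1, mul_zero]
  · rw [re_ofReal_mul, im_ofReal_mul, e2]

theorem Rep.nd (hC : S_Cacc) (hG : S_Grow) (hS : S_WeakSW) (hP : S_PdDer) (hL : S_Lin)
    (hN : S_NdAlg) {p : ℝ} (hp : 2 ≤ p) :
    ∃ C M : ℝ, 0 < C ∧ 0 < M ∧
    ∀ (U : Set ℂ) (G' Vx Vy : ℂ → ℂ), IsOpen U → Rep p U G' Vx Vy →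
    ∀ (c : ℂ) (r σ : ℝ), 0 < r → closedBall c r ⊆ U →
    (∀ w ∈ closedBall c r, ‖G' w - G' c‖ ≤ σ) → M * σ ≤ ‖G' c‖ →
    ∀ z ∈ closedBall c (r / 8), ‖G' z - G' c‖ ≤ C * (‖z - c‖ / r) * σ := by
  obtain ⟨CH, hCH, hH⟩ := Rep.hold hC hG hS hp
  obtain ⟨C0, hC0, hC1⟩ := hC 4 (by norm_num)
  have hp1 : 0 < p - 1 := by linarith
  set al : ℝ := 1 / (p - 1) with hal
  have hal0 : 0 < al := by positivity
  set s : ℝ := Real.sqrt (p - 1) with hs
  have hs1 : 1 ≤ s := by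
    rw [hs, Real.one_le_sqrt]
    linarith
  have hs0 : s ≠ 0 := by positivity
  set E : ℝ := Real.exp (4 / al) with hE
  have hE0 : 0 < E := Real.exp_pos _
  set M : ℝ := 8 * (p - 2) * CH + 2 with hM
  have hM2 : 2 ≤ M := by
    have : 0 ≤ 8 * (p - 2) * CH := by
      have : 0 ≤ p - 2 := by linarith
      positivity
    linarith
  refine ⟨64 * s + 8 * 16 * 4 * s * s * Real.sqrt (E * (4 * Real.pi * C0)), M, by positivity,
    by linarith, ?_⟩
  intro U G' Vx Vy hU hR c r σ hr hB hσ hMσ z hz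
  have hσ0 : 0 ≤ σ := (norm_nonneg _).trans (hσ c (mem_closedBall_self hr.le))
  have hzr : ‖z - c‖ ≤ r / 8 := by
    rw [← dist_eq_norm]
    exact hz
  have hzB : z ∈ closedBall c r := closedBall_subset_closedBall (by linarith) hz
  have hRHS : 0 ≤ (64 * s + 8 * 16 * 4 * s * s * Real.sqrt (E * (4 * Real.pi * C0))) *
      (‖z - c‖ / r) * σ := by positivity
  -- trivial cases
  rcases hσ0.eq_or_lt with h0 | hσ1
  · have h5 : ‖G' z - G' c‖ ≤ 0 := by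
      have := hσ z hzB
      rwa [← h0] at this
    exact h5.trans hRHS
  rcases eq_or_ne z c with rfl | hzc
  · rw [sub_self, norm_zero]
    exact hRHS
  have hG0 : 0 < ‖G' c‖ := lt_of_lt_of_le (by positivity) hMσ
  have hGc : G' c ≠ 0 := norm_pos_iff.1 hG0
  have hGne : ∀ w ∈ ball c r, G' w ≠ 0 := by
    intro w hw hcon
    have h1 := hσ w (ball_subset_closedBall hw)
    rw [hcon, zero_sub, norm_neg] at h1
    nlinarith
  obtain ⟨a, b, hW, hab⟩ := hR.grad hP hp isOpen_ball (ball_subset_closedBall.trans hB) hGne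
  -- unit vector and change of variables
  set m : ℂ := G' c / (‖G' c‖ : ℂ) with hm
  have hm1 : ‖m‖ = 1 := by
    rw [hm, norm_div, Complex.norm_real, norm_norm]
    exact div_self hG0.ne'
  set L : ℂ ≃L[ℝ] ℂ := Lc s hs0 m hm1 with hLdef
  set T : ℂ →L[ℝ] ℂ := Tc s m with hTdef
  set ψ : ℂ → ℂ := fun w => c + L w with hψ
  have hL1 : L 1 = s * m := Lc_one s hs0 m hm1
  have hLI : L I = m * I := Lc_I s hs0 m hm1
  have hψo : IsOpen (ψ ⁻¹' ball c r) := by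
    refine isOpen_ball.preimage ?_
    exact continuous_const.add L.continuous
  have hW1 := hL (ball c r) G' a b isOpen_ball hW L c
  have hW2 := W.compL hψo hW1 T
  -- the transformed map
  set q : ℂ → ℂ := fun w => T (G' (ψ w)) with hq
  set X : ℂ → ℂ := fun w => T ((L 1).re • a (c + L w) + (L 1).im • b (c + L w)) with hX
  set Y : ℂ → ℂ := fun w => T ((L I).re • a (c + L w) + (L I).im • b (c + L w)) with hY
  have hW3 : W (ψ ⁻¹' ball c r) q X Y := hW2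
  set ρ₀ : ℝ := r / (4 * s) with hρ₀
  have hρ₀0 : 0 < ρ₀ := by positivity
  have hρs : s * ρ₀ = r / 4 := by rw [hρ₀]; field_simp
  have hψball : ∀ ρ : ℝ, ρ ≤ ρ₀ → ∀ w ∈ ball (0 : ℂ) ρ, dist (ψ w) c < s * ρ := by
    intro ρ _ w hw
    rw [mem_ball_zero_iff] at hw
    rw [dist_eq_norm]
    have e : ψ w - c = L w := by rw [hψ]; ring
    rw [e]
    refine lt_of_le_of_lt (Lc_upper hs0 hs1 hm1 w) ?_
    have : 0 < s := by linarith
    exact mul_lt_mul_of_pos_left hw this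
  have hball : ball (0 : ℂ) ρ₀ ⊆ ψ ⁻¹' ball c r := by
    intro w hw
    have := hψball ρ₀ le_rfl w hw
    rw [hρs] at this
    exact lt_trans this (by linarith)
  have hW4 : W (ball (0 : ℂ) ρ₀) q X Y := hW3.mono hball
  -- the equations in the new coordinates
  have hab' : ∀ᵐ w ∂(volume.restrict (ψ ⁻¹' ball c r)),
      (fr (p - 1) (G' (ψ w) / ‖G' (ψ w)‖) (a (ψ w))).re +
        (fr (p - 1) (G' (ψ w) / ‖G' (ψ w)‖) (b (ψ w))).im = 0 ∧ (a (ψ w)).im = (b (ψ w)).re :=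
    ae_comp_affine L c measurableSet_ball hab
  -- the variable constant
  set A₀ : ℝ := 4 * (p - 2) * CH * (s / r) ^ al * (σ / ‖G' c‖) with hA₀
  have hp2 : 0 ≤ p - 2 := by linarith
  have hA₀0 : 0 ≤ A₀ := by positivity
  have hσM : σ / ‖G' c‖ ≤ 1 / M := by
    rw [div_le_div_iff₀ hG0 (by linarith)]
    linarith
  have hA₀ρ : A₀ * ρ₀ ^ al ≤ 1 / 2 := by
    have e1 : (s / r) ^ al * ρ₀ ^ al = (1 / 4 : ℝ) ^ al := by
      rw [← Real.mul_rpow (by positivity) hρ₀0.le]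
      congr 1
      rw [hρ₀]
      field_simp
    have e2 : (1 / 4 : ℝ) ^ al ≤ 1 := Real.rpow_le_one (by norm_num) (by norm_num) hal0.le
    calc A₀ * ρ₀ ^ al = 4 * (p - 2) * CH * ((s / r) ^ al * ρ₀ ^ al) * (σ / ‖G' c‖) := by
          rw [hA₀]; ring
      _ = 4 * (p - 2) * CH * (1 / 4 : ℝ) ^ al * (σ / ‖G' c‖) := by rw [e1]
      _ ≤ 4 * (p - 2) * CH * 1 * (1 / M) := by gcongr
      _ ≤ 1 / 2 := by
        rw [mul_one, mul_one_div, div_le_iff₀ (by linarith)]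
        rw [hM]
        nlinarith
  have hQR : ∀ ρ ∈ Ioc (0 : ℝ) ρ₀, QR ((1 + 4 * A₀ * ρ ^ al) + 1 / (1 + 4 * A₀ * ρ ^ al))
      (ball (0 : ℂ) ρ) X Y := by
    intro ρ hρ
    have hsub : ball (0 : ℂ) ρ ⊆ ψ ⁻¹' ball c r := (ball_subset_ball hρ.2).trans hball
    have hae := ae_mono (Measure.restrict_mono hsub le_rfl) hab'
    unfold QR
    filter_upwards [hae, self_mem_ae_restrict measurableSet_ball] with w hw hwB
    have hψw : ψ w ∈ ball c r := hsub hwB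
    have hGw : G' (ψ w) ≠ 0 := hGne _ hψw
    have hGw0 : 0 < ‖G' (ψ w)‖ := norm_pos_iff.2 hGw
    have hn1 : ‖G' (ψ w) / (‖G' (ψ w)‖ : ℂ)‖ = 1 := by
      rw [norm_div, Complex.norm_real, norm_norm]
      exact div_self hGw0.ne'
    have hdist := hψball ρ hρ.2 w hwB
    have hρle : A₀ * ρ ^ al ≤ A₀ * ρ₀ ^ al := by
      have : ρ ^ al ≤ ρ₀ ^ al := Real.rpow_le_rpow hρ.1.le hρ.2 hal0.le
      gcongr
    have hdist2 : dist (ψ w) c ≤ r / 2 := by
      have : s * ρ ≤ s * ρ₀ := by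
        have := hρ.2
        gcongr
      rw [hρs] at this
      linarith
    have hhold : ‖G' (ψ w) - G' c‖ ≤ CH * (‖ψ w - c‖ / r) ^ al * σ :=
      hH U G' Vx Vy hU hR c r σ hr hB (G' c) hσ (ψ w) hdist2 c
        (mem_closedBall_self (by positivity))
    have hhold2 : ‖G' (ψ w) - G' c‖ ≤ CH * ((s / r) ^ al * ρ ^ al) * σ := by
      refine hhold.trans ?_
      rw [← Real.mul_rpow (by positivity) hρ.1.le]
      have : ‖ψ w - c‖ / r ≤ s / r * ρ := by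
        rw [← dist_eq_norm, div_mul_eq_mul_div]
        gcongr
      gcongr
    have hud := unit_diff hGw hGc
    have hεle : 2 * (p - 2) * ‖G' (ψ w) / (‖G' (ψ w)‖ : ℂ) - m‖ ≤ A₀ * ρ ^ al := by
      calc 2 * (p - 2) * ‖G' (ψ w) / (‖G' (ψ w)‖ : ℂ) - m‖
          ≤ 2 * (p - 2) * (2 * ‖G' (ψ w) - G' c‖ / ‖G' c‖) := by gcongr
        _ ≤ 2 * (p - 2) * (2 * (CH * ((s / r) ^ al * ρ ^ al) * σ) / ‖G' c‖) := by gcongr
        _ = A₀ * ρ ^ al := by rw [hA₀]; ring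
    have h3 := hN p hp (G' (ψ w) / ‖G' (ψ w)‖) m (a (ψ w)) (b (ψ w)) hn1 hm1 hw.1 hw.2
      (A₀ * ρ ^ al) hεle (hρle.trans hA₀ρ)
    have e4 : 1 + 4 * (A₀ * ρ ^ al) = 1 + 4 * A₀ * ρ ^ al := by ring
    rw [e4] at h3
    have hXw : X w = ((s * (conj m * ((s * m).re • a (ψ w) + (s * m).im • b (ψ w))).re : ℝ) : ℂ) -
        (((conj m * ((s * m).re • a (ψ w) + (s * m).im • b (ψ w))).im : ℝ) : ℂ) * I := by
      show T ((L 1).re • a (ψ w) + (L 1).im • b (ψ w)) = _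
      rw [hL1, hTdef, Tc_apply]
    have hYw : Y w = ((s * (conj m * ((m * I).re • a (ψ w) + (m * I).im • b (ψ w))).re : ℝ) : ℂ) -
        (((conj m * ((m * I).re • a (ψ w) + (m * I).im • b (ψ w))).im : ℝ) : ℂ) * I := by
      show T ((L I).re • a (ψ w) + (L I).im • b (ψ w)) = _
      rw [hLI, hTdef, Tc_apply]
    have h5 : ‖X w‖ ^ 2 + ‖Y w‖ ^ 2 ≤ ((1 + 4 * A₀ * ρ ^ al) + 1 / (1 + 4 * A₀ * ρ ^ al)) *
        ((X w).re * (Y w).im - (Y w).re * (X w).im) := by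
      rw [hXw, hYw]
      exact h3
    exact h5
  -- fixed constant
  have hQ4 : QR 4 (ball (0 : ℂ) ρ₀) X Y := by
    refine QR.le_const (hQR ρ₀ ⟨hρ₀0, le_rfl⟩) (by positivity) ?_
    have h1 : 0 ≤ 4 * A₀ * ρ₀ ^ al := by positivity
    have h2 : 1 / (1 + 4 * A₀ * ρ₀ ^ al) ≤ 1 := by
      rw [div_le_one (by linarith)]
      linarith
    have h3 : 4 * A₀ * ρ₀ ^ al ≤ 2 := by linarith
    linarith
  -- the point
  set w : ℂ := L.symm (z - c) with hw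
  have hLw : L w = z - c := by rw [hw]; exact L.apply_symm_apply _
  have hψw : ψ w = z := by rw [hψ]; simp only; rw [hLw]; ring
  have hψ0 : ψ 0 = c := by rw [hψ]; simp
  have hwle : ‖w‖ ≤ ‖z - c‖ := by
    rw [← hLw]
    exact Lc_lower hs0 hs1 hm1 w
  have hw0 : 0 < ‖w‖ := by
    rw [norm_pos_iff]
    intro hcon
    rw [hcon, map_zero] at hLw
    exact hzc (sub_eq_zero.1 hLw.symm)
  have hqd : ‖G' z - G' c‖ ≤ ‖q w - q 0‖ := by
    have e : q w - q 0 = T (G' z - G' c) := by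
      rw [hq]
      simp only
      rw [hψw, hψ0, map_sub]
    rw [e]
    exact Tc_lower hs1 hm1 _
  set d := ‖w‖ with hd
  have hspos : 0 < s := by linarith
  rcases le_or_gt d (ρ₀ / 16) with hsm | hbig
  · -- main case
    have hin : ∀ ρ : ℝ, ρ < ρ₀ → closedBall (0 : ℂ) ρ ⊆ ball (0 : ℂ) ρ₀ :=
      fun ρ hρ => closedBall_subset_ball hρ
    have h1 : ‖q w - q 0‖ ≤ 8 * Real.sqrt (∫ y in closedBall (0 : ℂ) (2 * d),
        (‖X y‖ ^ 2 + ‖Y y‖ ^ 2)) := by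
      refine W.oscN (by norm_num) isOpen_ball hW4 hQ4 0 d hw0 (hin _ (by linarith)) w ?_ 0
        (mem_closedBall_self hw0.le)
      rw [mem_closedBall_zero_iff]
    have h2 : ∫ y in closedBall (0 : ℂ) (2 * d), (‖X y‖ ^ 2 + ‖Y y‖ ^ 2) ≤ Dir X Y 0 (4 * d) :=
      closedBall_le_Dir hW4 0 (2 * d) (4 * d) (by linarith) (hin _ (by linarith))
    have hSW : SW (ball (0 : ℂ) (3 * ρ₀ / 4)) q X Y := W.toSW hS hW4 (hin _ (by linarith))
    have h3 := dir_growth2 hG hSW (A := 4 * A₀) (α := al) (by positivity) hal0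
      (a := 4 * d) (b := ρ₀ / 4) (by linarith) (by linarith) (by linarith)
      (fun ρ hρ => hQR ρ ⟨by linarith [hρ.1], by linarith [hρ.2]⟩)
    have hexp : Real.exp (2 * (4 * A₀) / al * (ρ₀ / 4) ^ al) ≤ E := by
      rw [hE]
      refine Real.exp_le_exp.2 ?_
      have e1 : (ρ₀ / 4) ^ al ≤ ρ₀ ^ al :=
        Real.rpow_le_rpow (by positivity) (by linarith) hal0.le
      calc 2 * (4 * A₀) / al * (ρ₀ / 4) ^ al ≤ 2 * (4 * A₀) / al * ρ₀ ^ al := by gcongr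
        _ = 8 * (A₀ * ρ₀ ^ al) / al := by ring
        _ ≤ 8 * (1 / 2) / al := by gcongr
        _ = 4 / al := by norm_num
    have hD0 : 0 ≤ Dir X Y 0 (ρ₀ / 4) := integral_nonneg (fun y => by positivity)
    have hqsup : ∀ y ∈ closedBall (0 : ℂ) (2 * (ρ₀ / 4)), ‖q y - q 0‖ ≤ s * σ := by
      intro y hy
      have hy' : y ∈ ball (0 : ℂ) ρ₀ := hin _ (by linarith) hy
      have e : q y - q 0 = T (G' (ψ y) - G' c) := by
        rw [hq]
        simp only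
        rw [hψ0, map_sub]
      rw [e]
      refine (Tc_upper hs1 hm1 _).trans ?_
      have := hσ (ψ y) (ball_subset_closedBall (hball hy'))
      gcongr
    have h4 : Dir X Y 0 (ρ₀ / 4) ≤ 4 * Real.pi * C0 * (s * σ) ^ 2 := by
      refine (Dir_le_closedBall hW4 0 (ρ₀ / 4) (hin _ (by linarith))).trans ?_
      exact dir_le_sup hC0 hC1 isOpen_ball hW4 hQ4 0 (ρ₀ / 4) (q 0) (s * σ) (by positivity)
        (hin _ (by linarith)) hqsup
    have h5 : ∫ y in closedBall (0 : ℂ) (2 * d), (‖X y‖ ^ 2 + ‖Y y‖ ^ 2) ≤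
        (16 * (d / ρ₀) * (Real.sqrt (E * (4 * Real.pi * C0)) * (s * σ))) ^ 2 := by
      calc ∫ y in closedBall (0 : ℂ) (2 * d), (‖X y‖ ^ 2 + ‖Y y‖ ^ 2)
          ≤ Real.exp (2 * (4 * A₀) / al * (ρ₀ / 4) ^ al) * (4 * d / (ρ₀ / 4)) ^ 2 *
            Dir X Y 0 (ρ₀ / 4) := h2.trans h3
        _ ≤ E * (4 * d / (ρ₀ / 4)) ^ 2 * (4 * Real.pi * C0 * (s * σ) ^ 2) := by
          have h6 : 0 ≤ (4 * d / (ρ₀ / 4)) ^ 2 := sq_nonneg _
          exact mul_le_mul (mul_le_mul_of_nonneg_right hexp h6) h4 hD0 (by positivity)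
        _ = _ := nd_alg1 E C0 d ρ₀ s σ hE0.le hC0.le hρ₀0
    have h7 : 0 ≤ 16 * (d / ρ₀) * (Real.sqrt (E * (4 * Real.pi * C0)) * (s * σ)) := by positivity
    have h8 : ‖q w - q 0‖ ≤ 8 * (16 * (d / ρ₀) *
        (Real.sqrt (E * (4 * Real.pi * C0)) * (s * σ))) := by
      refine h1.trans ?_
      have h9 := Real.sqrt_le_sqrt h5
      rw [Real.sqrt_sq h7] at h9
      linarith
    rw [hρ₀, nd_alg2 _ d r s σ hr hspos] at h8
    exact (hqd.trans h8).trans (nd_alg3 _ d ‖z - c‖ r s σ hr hspos (Real.sqrt_nonneg _) hσ0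
      hw0.le hwle)
  · have h1 := hσ z hzB
    have h3 : r / (64 * s) ≤ ‖z - c‖ := by
      have e : ρ₀ / 16 = r / (64 * s) := by rw [hρ₀]; field_simp; ring
      rw [← e]
      linarith
    exact h1.trans (nd_alg4 _ _ r s σ hr hspos (Real.sqrt_nonneg _) hσ0 h3)

/-- the three local estimates -/
theorem est_of (hM : S_Mean) (hC : S_Cacc) (hG : S_Grow) (hS : S_WeakSW) (hP : S_PdDer)
    (hL : S_Lin) (hN : S_NdAlg) (hDQ : S_DQ) (hRi : S_Riesz) (hCh : S_Chain) (hSt : S_Str)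
    (hQA : S_QRAlg) (hH : S_Hold) : S_Est := by
  intro p hp
  obtain ⟨C1, hC1, h1⟩ := Rep.mean hM hp
  obtain ⟨C2, hC2, h2⟩ := Rep.hold hC hG hS hp
  obtain ⟨C3, M, hC3, hM0, h3⟩ := Rep.nd hC hG hS hP hL hN hp
  refine ⟨C1 + C2 + C3, M, by positivity, hM0, ?_⟩
  intro Ω h G hΩ hh c R hR hB
  obtain ⟨δ, hδ, hδB⟩ := (isCompact_closedBall c R).exists_cthickening_subset_open hΩ hB
  have hB' : closedBall c (R + δ) ⊆ Ω := by
    refine subset_trans ?_ hδB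
    rw [cthickening_closedBall hδ.le hR.le, add_comm]
  obtain ⟨G', Vx, Vy, hRep, hae⟩ := exists_Rep hDQ hRi hS hCh hSt hQA hP hG hH hp hΩ hh hR
    (show R < R + δ by linarith) hB'
  refine ⟨G', ⟨hRep.cont, ?_, ?_, ?_⟩, hae⟩
  · intro y r hr hyB a z hz
    have := h1 _ G' Vx Vy isOpen_ball hRep y r hr hyB a z hz
    have h0 : 0 ≤ ∫ w in closedBall y r, ‖G' w - a‖ := integral_nonneg (fun w => norm_nonneg _)
    refine this.trans ?_
    gcongr
    linarith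
  · intro y r S hr hyB a hSup z hz z' hz'
    have := h2 _ G' Vx Vy isOpen_ball hRep y r S hr hyB a hSup z hz z' hz'
    have hS0 : 0 ≤ S := (norm_nonneg _).trans (hSup y (mem_closedBall_self hr.le))
    refine this.trans ?_
    gcongr
    linarith
  · intro y r σ hr hyB hSup hMσ z hz
    have := h3 _ G' Vx Vy isOpen_ball hRep y r σ hr hyB hSup hMσ z hz
    have hS0 : 0 ≤ σ := (norm_nonneg _).trans (hSup y (mem_closedBall_self hr.le))
    refine this.trans ?_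
    gcongr
    linarith

end Pool.Agent.W796.PH
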