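import Mathlib
import Pool.Agent.W796.PH.Mean
import Pool.Agent.W796.PH.NdB
import Pool.Agent.W796.PH.DQc
import Pool.Agent.W345.PH.Riesz
import Pool.Agent.W345.PH.WeakSW
import Pool.Agent.W345.PH.PdDer
import Pool.Agent.W796.PH.Cacc2
import Pool.Agent.W345.PH.Lin
import Pool.Agent.W345.PH.Decay
import Pool.Agent.W597.PHChain
import Pool.Agent.W597.PHZero
import Pool.Agent.W597.PHStrCurl
import Pool.Agent.W597.PHQRAlg
import Pool.Agent.W597.PHHold
import Pool.Agent.W597.PHAlg
import Pool.Agent.W585.PHG.Grow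
import Pool.Agent.W991.PHFinal
import Pool.Agent.W796.PH.Trans

set_option autoImplicit false

/-! Assembly of the linear decay theorem. -/

namespace Pool.Agent.W796.PH

theorem est_main : S_Est :=
  est_of (mean_main Pool.Agent.W796.PH.Cacc2.main) Pool.Agent.W796.PH.Cacc2.main
    Pool.Agent.W585.PHG.main_grow Pool.Agent.W345.PH.WeakSW.main Pool.Agent.W345.PH.PdDer.main
    Pool.Agent.W345.PH.Lin.main Pool.Agent.W597.PHQRAlg.main2
    (dq_main Pool.Agent.W597.PHAlg.main) Pool.Agent.W345.PH.Riesz.main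
    Pool.Agent.W597.PHChain.main
    (Pool.Agent.W597.PHStr.main Pool.Agent.W597.PHChain.main
      (Pool.Agent.W597.PHZero.main Pool.Agent.W597.PHChain.main) Pool.Agent.W345.PH.PdDer.main)
    Pool.Agent.W597.PHQRAlg.main1 Pool.Agent.W597.PHHold.main

theorem decay_main (p : ℝ) (hp : 2 ≤ p) : ∃ c : ℝ, 0 < c ∧ DecayE p c := by
  obtain ⟨c, hc, hD⟩ := Pool.Agent.W345.PH.Decay.main
    (Pool.Agent.W991.PHFinal.main Pool.Agent.W597.PHAlg.main) est_main p hp
  exact ⟨c, hc, Pool.Agent.W796.PH.Trans.main p c hp hc hD⟩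

end Pool.Agent.W796.PH
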